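import Mathlib
import Pool.Agent.H14.Sel.Defs

set_option autoImplicit false

/-!
# MP_8e9775_nt, degree 2 and moderate conductor: definitions

`MAut s k φ` : the abstract properties of `φ = phi a` used in the geometric part: `φ` has period one and is
almost invariant under the reflections `s i + z ↦ s i + 1 / (k i * conj z)` (`i : Fin N`).
`Geo s k r` : the real discs `|x - s i| < r i` (`k i * r i ^ 2 < 1`) and their integer translates cover the
line, and the complement of a closed set invariant under the expanding maps is empty.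
`MAdm s k r p c` : admissible cusps with their denominators.
-/

namespace Pool.Agent.H80.Sel

open Complex Pool.Agent.H11.Selberg Pool.Agent.H14.Sel

/-- The abstract properties of `φ`: approximate reflections at the centres `s i`, of moduli `k i`. -/
structure MAut {N : ℕ} (s k : Fin N → ℝ) (φ : ℂ → ℝ) : Prop where
  per : ∀ z : ℂ, φ (z + 1) = φ z
  nonneg : ∀ z : ℂ, 0 < z.im → 0 ≤ φ z
  cont : ∀ y : ℝ, 0 < y → Continuous (fun x : ℝ => φ (x + y * I))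
  refl : ∃ C : ℝ, 0 ≤ C ∧ ∀ (i : Fin N) (z : ℂ), 0 < z.im → z.im ≤ 1 → ‖z‖ ^ 2 ≤ 1 / k i →
    |φ (s i + z) - φ (s i + 1 / ((k i : ℂ) * (starRingEnd ℂ) z))| ≤ C * z.im ^ (1 / 4 : ℝ)
  high : ∀ t : ℝ, 0 < t → ∃ M : ℝ, ∀ z : ℂ, t ≤ z.im → φ z ≤ M
  top : ∃ V c : ℝ, 1 ≤ V ∧ 0 < c ∧ ∀ z : ℂ, V ≤ z.im → z.im ≤ 2 * V → c ≤ φ z

/-- Admissible radii: covering and no gaps. -/
structure Geo {N : ℕ} (s k r : Fin N → ℝ) : Prop where
  kpos : ∀ i, 0 < k i
  rpos : ∀ i, 0 < r i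
  kr : ∀ i, k i * r i ^ 2 < 1
  cov : ∃ δ : ℝ, 0 < δ ∧ ∀ x : ℝ, ∃ (i : Fin N) (j : ℤ), |x + j - s i| ≤ r i - δ
  gap : ∀ U : Set ℝ, IsOpen U → (∀ x : ℝ, x ∈ U ↔ x + 1 ∈ U) → (∀ i, s i ∉ U) →
    (∀ (i : Fin N) (x : ℝ), x ∈ U → x ≠ s i → |x - s i| < r i →
      s i + 1 / (k i * (x - s i)) ∈ U) → U = ∅

/-- Admissible cusps and their denominators. -/
inductive MAdm {N : ℕ} (s k r : Fin N → ℝ) : ℝ → ℝ → Prop where
  | base (i : Fin N) (j : ℤ) : MAdm s k r (s i + j) (Real.sqrt (k i))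
  | step (i : Fin N) (p c : ℝ) (j : ℤ) (h : MAdm s k r p c) (hp : 1 / (k i * r i) ≤ |p - s i|) :
      MAdm s k r (s i + 1 / (k i * (p - s i)) - j) (Real.sqrt (k i) * |p - s i| * c)

/-- `G a z = ∑ a n * n^(1/2) * exp (2 π i n z)`. -/
noncomputable def G (a : ℕ → ℂ) (z : ℂ) : ℂ := E (1 / 2) a (-(2 * (Real.pi : ℂ) * I * z))

end Pool.Agent.H80.Sel
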