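import Mathlib
import Pool.Agent.H80.Sel.Defs
import Pool.Agent.H14.Sel.Triv

set_option autoImplicit false

/-!
# Module TWOX (MP_8e9775_nt): the exact relation at `1/2`

`TwoStep a α ω`: `a (2 k) = α a k - ω a (k/2)` (the last term only for even `k`).
`G a (z + 1/2) = ∑ (-1)^n a n n^(1/2) e(nz) = -G a z + 2 ∑_{k} a (2k) (2k)^(1/2) e(2kz)`, and
`∑ a (2k) (2k)^(1/2) e(2kz) = √2 α G a (2z) - √2 ω ∑_{l} a l (2l)^(1/2) e(4lz) = √2 α G a (2z) - 2 ω G a (4z)`.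
-/

namespace Pool.Agent.H80.Sel

open Complex MeasureTheory Filter Topology Pool.Agent.H11.Selberg Pool.Agent.H14.Sel

/-- the recursion of the coefficients at the prime two -/
def TwoStep (a : ℕ → ℂ) (α ω : ℂ) : Prop :=
  ∀ k : ℕ, 1 ≤ k → a (2 * k) = α * a k - ω * (if Even k then a (k / 2) else 0)

theorem TwoStep.cj {a : ℕ → ℂ} {α ω : ℂ} (h : TwoStep a α ω) :
    TwoStep (Pool.Agent.H14.Sel.cj a) ((starRingEnd ℂ) α) ((starRingEnd ℂ) ω) := by
  intro k hk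
  have h1 := congrArg (starRingEnd ℂ) (h k hk)
  unfold Pool.Agent.H14.Sel.cj
  rw [h1, map_sub, map_mul, map_mul]
  congr 2
  split_ifs
  · rfl
  · exact map_zero _

/-- the terms of `G a z` -/
noncomputable def twoF (a : ℕ → ℂ) (z : ℂ) (n : ℕ) : ℂ :=
  a n * (((n : ℝ) ^ (1 / 2 : ℝ) : ℝ) : ℂ) * Complex.exp (-((n : ℂ) * (-(2 * (Real.pi : ℂ) * I * z))))

theorem twoF_G (a : ℕ → ℂ) (z : ℂ) : G a z = ∑' n : ℕ, twoF a z n := rfl

theorem twoF_summable (a : ℕ → ℂ)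
    (ram : ∀ δ : ℝ, 0 < δ → ∃ C : ℝ, ∀ n : ℕ, 1 ≤ n → ‖a n‖ ≤ C * (n : ℝ) ^ δ)
    (z : ℂ) (hz : 0 < z.im) : Summable (twoF a z) := by
  obtain ⟨C, hC0, hC⟩ := sum_le a ram (1 / 2) 2 (by norm_num) (by norm_num) (by norm_num)
  have hX : 0 < (-(2 * (Real.pi : ℂ) * I * z)).re := by
    simp only [neg_re, mul_re, mul_im, ofReal_re, ofReal_im, I_re, I_im, re_ofNat, im_ofNat]
    have := mul_pos Real.pi_pos hz
    ring_nf
    nlinarith
  obtain ⟨h1, _⟩ := hC _ hX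
  refine Summable.of_norm ?_
  refine h1.congr fun n => ?_
  rw [← triv_norm_term]
  rfl

theorem twoF_rpow (k : ℕ) : (((2 * k : ℕ) : ℝ) ^ (1 / 2 : ℝ)) = Real.sqrt 2 * (k : ℝ) ^ (1 / 2 : ℝ) := by
  rw [Nat.cast_mul, Real.mul_rpow (by positivity) (by positivity), Real.sqrt_eq_rpow]
  norm_num

theorem twoF_even (a : ℕ → ℂ) (z : ℂ) (k : ℕ) : twoF a (z + 1 / 2) (2 * k) = twoF a z (2 * k) := by
  unfold twoF
  congr 1
  have e : -(((2 * k : ℕ) : ℂ) * (-(2 * (Real.pi : ℂ) * I * (z + 1 / 2)))) =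
      -(((2 * k : ℕ) : ℂ) * (-(2 * (Real.pi : ℂ) * I * z))) + (k : ℤ) * (2 * Real.pi * I) := by
    push_cast
    ring
  rw [e, Complex.exp_add, Complex.exp_int_mul_two_pi_mul_I, mul_one]

theorem twoF_odd (a : ℕ → ℂ) (z : ℂ) (k : ℕ) :
    twoF a (z + 1 / 2) (2 * k + 1) = -twoF a z (2 * k + 1) := by
  unfold twoF
  have e : -(((2 * k + 1 : ℕ) : ℂ) * (-(2 * (Real.pi : ℂ) * I * (z + 1 / 2)))) =
      -(((2 * k + 1 : ℕ) : ℂ) * (-(2 * (Real.pi : ℂ) * I * z))) + (k : ℤ) * (2 * Real.pi * I)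
        + Real.pi * I := by
    push_cast
    ring
  rw [e, Complex.exp_add, Complex.exp_add, Complex.exp_int_mul_two_pi_mul_I, mul_one,
    Complex.exp_pi_mul_I]
  ring

theorem twoF_zero (a : ℕ → ℂ) (z : ℂ) : twoF a z 0 = 0 := by
  unfold twoF
  rw [Nat.cast_zero, Real.zero_rpow (by norm_num), Complex.ofReal_zero, mul_zero, zero_mul]

/-- the auxiliary sum over even `k` -/
noncomputable def twoH (a : ℕ → ℂ) (z : ℂ) (k : ℕ) : ℂ :=
  (if Even k then a (k / 2) else 0) * (((k : ℝ) ^ (1 / 2 : ℝ) : ℝ) : ℂ) *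
    Complex.exp (-((k : ℂ) * (-(2 * (Real.pi : ℂ) * I * (2 * z)))))

theorem twoH_even (a : ℕ → ℂ) (z : ℂ) (l : ℕ) :
    twoH a z (2 * l) = (Real.sqrt 2 : ℂ) * twoF a (4 * z) l := by
  unfold twoH twoF
  rw [if_pos (even_two_mul l), Nat.mul_div_cancel_left l two_pos, twoF_rpow]
  have e : -(((2 * l : ℕ) : ℂ) * (-(2 * (Real.pi : ℂ) * I * (2 * z)))) =
      -((l : ℂ) * (-(2 * (Real.pi : ℂ) * I * (4 * z)))) := by
    push_cast
    ring
  rw [e]
  push_cast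
  ring

theorem twoH_odd (a : ℕ → ℂ) (z : ℂ) (l : ℕ) : twoH a z (2 * l + 1) = 0 := by
  unfold twoH
  rw [if_neg (by simp), zero_mul, zero_mul]

theorem twoF_two_mul (a : ℕ → ℂ) (α ω : ℂ) (h : TwoStep a α ω) (z : ℂ) (k : ℕ) :
    twoF a z (2 * k) = (Real.sqrt 2 : ℂ) * α * twoF a (2 * z) k - (Real.sqrt 2 : ℂ) * ω * twoH a z k := by
  rcases Nat.eq_zero_or_pos k with rfl | hk
  · rw [mul_zero, twoF_zero, twoF_zero]
    unfold twoH
    rw [Nat.cast_zero, Real.zero_rpow (by norm_num), Complex.ofReal_zero]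
    ring
  · unfold twoF twoH
    rw [twoF_rpow, h k hk]
    have e : -(((2 * k : ℕ) : ℂ) * (-(2 * (Real.pi : ℂ) * I * z))) =
        -((k : ℂ) * (-(2 * (Real.pi : ℂ) * I * (2 * z)))) := by
      push_cast
      ring
    rw [e]
    push_cast
    ring

theorem G_half (a : ℕ → ℂ) (ram : ∀ δ : ℝ, 0 < δ → ∃ C : ℝ, ∀ n : ℕ, 1 ≤ n → ‖a n‖ ≤ C * (n : ℝ) ^ δ)
    (α ω : ℂ) (h : TwoStep a α ω) (z : ℂ) (hz : 0 < z.im) :
    G a (z + 1 / 2) = -G a z + 2 * Real.sqrt 2 * α * G a (2 * z) - 4 * ω * G a (4 * z) := by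
  have hz2 : 0 < (2 * z).im := by
    simp only [mul_im, re_ofNat, im_ofNat, zero_mul, add_zero]
    linarith
  have hz4 : 0 < (4 * z).im := by
    simp only [mul_im, re_ofNat, im_ofNat, zero_mul, add_zero]
    linarith
  have hs := twoF_summable a ram z hz
  have hs2 := twoF_summable a ram (2 * z) hz2
  have hs4 := twoF_summable a ram (4 * z) hz4
  have hinj0 : Function.Injective (fun k : ℕ => 2 * k) := fun x y hxy => by
    simpa using hxy
  have hinj1 : Function.Injective (fun k : ℕ => 2 * k + 1) := fun x y hxy => by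
    simpa using hxy
  have he : Summable (fun k => twoF a z (2 * k)) := hs.comp_injective hinj0
  have ho : Summable (fun k => twoF a z (2 * k + 1)) := hs.comp_injective hinj1
  -- the two halves
  have hG : HasSum (twoF a z) (∑' k, twoF a z (2 * k) + ∑' k, twoF a z (2 * k + 1)) :=
    he.hasSum.even_add_odd ho.hasSum
  have hGh : HasSum (twoF a (z + 1 / 2)) (∑' k, twoF a z (2 * k) + -∑' k, twoF a z (2 * k + 1)) := by
    refine HasSum.even_add_odd ?_ ?_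
    · simp only [twoF_even]
      exact he.hasSum
    · simp only [twoF_odd]
      exact ho.hasSum.neg
  have hH : HasSum (twoH a z) ((Real.sqrt 2 : ℂ) * G a (4 * z)) := by
    have h1 : HasSum (twoH a z) ((Real.sqrt 2 : ℂ) * G a (4 * z) + 0) := by
      refine HasSum.even_add_odd ?_ ?_
      · simp only [twoH_even]
        exact hs4.hasSum.mul_left _
      · simp only [twoH_odd]
        exact hasSum_zero
    rwa [add_zero] at h1
  have hE : ∑' k, twoF a z (2 * k) = (Real.sqrt 2 : ℂ) * α * G a (2 * z)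
      - (Real.sqrt 2 : ℂ) * ω * ((Real.sqrt 2 : ℂ) * G a (4 * z)) := by
    refine HasSum.tsum_eq ?_
    simp only [twoF_two_mul a α ω h]
    exact (hs2.hasSum.mul_left _).sub (hH.mul_left _)
  have h22 : (Real.sqrt 2 : ℂ) * (Real.sqrt 2 : ℂ) = 2 := by
    rw [← Complex.ofReal_mul, Real.mul_self_sqrt (by norm_num)]
    norm_num
  have e1 : G a z = ∑' k, twoF a z (2 * k) + ∑' k, twoF a z (2 * k + 1) := hG.tsum_eq
  have e2 : G a (z + 1 / 2) = ∑' k, twoF a z (2 * k) + -∑' k, twoF a z (2 * k + 1) := hGh.tsum_eq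
  have e3 : G a (z + 1 / 2) = -G a z + 2 * ∑' k, twoF a z (2 * k) := by
    rw [e1, e2]
    ring
  rw [e3, hE]
  linear_combination (-2 * ω * G a (4 * z)) * h22

end Pool.Agent.H80.Sel
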