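import Mathlib
import Pool.Agent.H11.Selberg.Equiv
import Pool.Agent.H80.Sel.TwoX

set_option autoImplicit false

/-!
# Module EULERTWO (MP_8e9775_nt): the recursion at `2` from the Euler factor at `2`

`mult`: multiplicativity, as in the first lines of the proof of `equivalence` (Selberg/Equiv.lean).
`twoStep_of`: `k = 2^j u`, `u` odd.
`TwoStep.twist`: `a' n = a n n^(-w)`, `α' = α 2^(-w)`, `ω' = ω 4^(-w)`.
-/

namespace Pool.Agent.H80.Sel

open Complex MeasureTheory Filter Topology Pool.Agent.H11.Selberg Pool.Agent.H14.Sel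

theorem mult (a : ℕ → ℂ) (F : ℂ → ℂ) (h : IsSelberg a F) :
    ∀ m n : ℕ, Nat.Coprime m n → a (m * n) = a m * a n := by
  obtain ⟨b, θ, Cb, hθ, hbb, hE⟩ := h.euler
  have hE' : ∀ s : ℂ, 1 < s.re → HasProd
      (fun p : Nat.Primes => Complex.exp (∑' l : ℕ, b ((p : ℕ) ^ (l + 1)) *
        ((p : ℕ) : ℂ) ^ (-((l : ℂ) + 1) * s))) (LSeries a s) := fun s hs => by
    rw [← h.eq_LSeries s hs]; exact hE s hs
  have hrec := conv_rec a h.summable b θ Cb hθ hbb hE'
  intro m n hmn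
  by_cases h0 : m * n = 0
  · rcases Nat.mul_eq_zero.mp h0 with rfl | rfl
    · rw [Nat.coprime_zero_left] at hmn
      subst hmn
      rw [mul_one, h.one, mul_one]
    · rw [Nat.coprime_zero_right] at hmn
      subst hmn
      rw [one_mul, h.one, one_mul]
  · exact mult_of_rec a (fun q => (Real.log q : ℂ) * bb b q) h.one
      (fun q hq => by simp [bb, hq]) hrec (m * n) m n rfl h0 hmn

theorem twoStep_of (a : ℕ → ℂ) (F : ℂ → ℂ) (h : IsSelberg a F) (ω : ℂ)
    (h2 : ∀ k : ℕ, a (2 ^ (k + 2)) = a 2 * a (2 ^ (k + 1)) - ω * a (2 ^ k)) :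
    TwoStep a (a 2) ω := by
  have hmul := mult a F h
  intro k hk
  obtain ⟨j, u, hu, rfl⟩ := Nat.exists_eq_two_pow_mul_odd (n := k) (by omega)
  have hcop : ∀ i : ℕ, Nat.Coprime (2 ^ i) u := fun i =>
    Nat.Coprime.pow_left i (Nat.coprime_two_left.2 hu)
  cases j with
  | zero =>
    rw [pow_zero, one_mul, if_neg (Nat.not_even_iff_odd.2 hu), mul_zero, sub_zero]
    have := hcop 1
    rw [pow_one] at this
    exact hmul 2 u this
  | succ i =>
    have hev : Even (2 ^ (i + 1) * u) := by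
      rw [pow_succ, mul_assoc, mul_comm (2 ^ i), mul_assoc]
      exact even_two_mul _
    have e1 : 2 * (2 ^ (i + 1) * u) = 2 ^ (i + 2) * u := by ring
    have e2 : 2 ^ (i + 1) * u / 2 = 2 ^ i * u := by
      rw [show 2 ^ (i + 1) * u = 2 * (2 ^ i * u) by ring]
      exact Nat.mul_div_cancel_left _ (by norm_num)
    rw [if_pos hev, e1, e2, hmul _ _ (hcop _), hmul _ _ (hcop _), hmul _ _ (hcop _), h2]
    ring

theorem TwoStep.twist {a : ℕ → ℂ} {α ω : ℂ} (h : TwoStep a α ω) (w : ℂ) :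
    TwoStep (fun n => a n * (n : ℂ) ^ (-w)) (α * (2 : ℂ) ^ (-w)) (ω * (4 : ℂ) ^ (-w)) := by
  intro k hk
  have e1 : (((2 * k : ℕ) : ℂ)) ^ (-w) = (2 : ℂ) ^ (-w) * (k : ℂ) ^ (-w) := by
    have := Complex.natCast_mul_natCast_cpow 2 k (-w)
    push_cast at this ⊢
    exact this
  have e4 : (4 : ℂ) ^ (-w) = (2 : ℂ) ^ (-w) * (2 : ℂ) ^ (-w) := by
    have := Complex.natCast_mul_natCast_cpow 2 2 (-w)
    push_cast at this
    rw [← this]
    norm_num
  change a (2 * k) * (((2 * k : ℕ) : ℂ)) ^ (-w) = α * (2 : ℂ) ^ (-w) * (a k * (k : ℂ) ^ (-w)) -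
    ω * (4 : ℂ) ^ (-w) * (if Even k then a (k / 2) * (((k / 2 : ℕ) : ℂ)) ^ (-w) else 0)
  rw [h k hk, e1, e4]
  by_cases hev : Even k
  · rw [if_pos hev, if_pos hev]
    obtain ⟨l, rfl⟩ := hev
    have e2 : (l + l) / 2 = l := by omega
    have e3 : (((l + l : ℕ) : ℂ)) ^ (-w) = (2 : ℂ) ^ (-w) * (l : ℂ) ^ (-w) := by
      have := Complex.natCast_mul_natCast_cpow 2 l (-w)
      push_cast at this ⊢
      rw [← this]
      congr 1
      ring
    rw [e2, e3]
    ring
  · rw [if_neg hev, if_neg hev]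
    ring

end Pool.Agent.H80.Sel
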