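import Mathlib
import Pool.Agent.H80.Sel.Defs
import Pool.Agent.H14.Sel.Cover

set_option autoImplicit false

/-!
# Module GEOONE (MP_8e9775_nt): one centre, `q < 4`

`r` from `Pool.Agent.H14.Sel.exists_par`; `cov`: `|x - round x| ≤ 1/2 < r`; `gap`: apply
`Pool.Agent.H14.Sel.cover` to `U ∪ -U`.
-/

namespace Pool.Agent.H80.Sel

open Complex MeasureTheory Filter Topology Pool.Agent.H11.Selberg Pool.Agent.H14.Sel

theorem geo_one (q : ℝ) (hq : 0 < q) (hq4 : q < 4) :
    ∃ r : ℝ, Geo (fun _ : Fin 1 => (0 : ℝ)) (fun _ => q) (fun _ => r) := by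
  obtain ⟨r, hr⟩ := exists_par q hq hq4
  have hr12 : 1 / 2 < r := hr.1
  have hqr : q * r ^ 2 < 1 := hr.2.1
  refine ⟨r, ⟨fun _ => hq, fun _ => by linarith, fun _ => hqr, ?_, ?_⟩⟩
  · refine ⟨r - 1 / 2, by linarith, fun x => ⟨0, -round x, ?_⟩⟩
    have h := abs_sub_round x
    push_cast
    rw [sub_zero, ← sub_eq_add_neg]
    linarith
  · intro U hU hper h0 hcl
    have hV : U ∪ -U = ∅ := by
      refine cover q r hq hq4 hr (U ∪ -U) (hU.union hU.neg) ?_ ?_ ?_ ?_
      · intro x
        have h1 := hper x
        have h2 := hper (-(x + 1))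
        rw [neg_add_rev, neg_add_cancel_comm] at h2
        simp only [Set.mem_union, Set.mem_neg, neg_add_rev]
        rw [h1, ← h2]
      · intro x hx
        rcases hx with hx | hx
        · exact Or.inr (by rw [Set.mem_neg, neg_neg]; exact hx)
        · exact Or.inl (Set.mem_neg.1 hx)
      · intro x hx hx0 hxr
        rcases hx with hx | hx
        · have h := hcl 0 x hx hx0 (by rw [sub_zero]; exact hxr)
          rw [sub_zero, zero_add] at h
          exact Or.inl h
        · have h := hcl 0 (-x) (Set.mem_neg.1 hx) (neg_ne_zero.2 hx0)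
            (by rw [sub_zero, abs_neg]; exact hxr)
          rw [sub_zero, zero_add] at h
          refine Or.inr ?_
          rw [Set.mem_neg]
          have e : -(1 / (q * x)) = 1 / (q * -x) := by
            rw [mul_neg, div_neg]
          rw [e]
          exact h
      · intro h
        rcases h with h | h
        · exact h0 0 h
        · rw [Set.mem_neg, neg_zero] at h
          exact h0 0 h
    exact Set.subset_eq_empty (Set.subset_union_left) hV

end Pool.Agent.H80.Sel
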