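import Mathlib
import Pool.Agent.H80.Sel.Defs

set_option autoImplicit false

/-!
# Module GEOTWO (MP_8e9775_nt): two centres `0` and `1/2`

`R i = 1/sqrt (q i) ≤ 1/2`, `R 0 + R 1 > 1/2`; `θ < 1` close to one, `r i = θ R i`, `P i = R i/θ = 1/(q i r i)`.
Conditions: `r 0 + r 1 > 1/2`; with `A = 1/2 - r 1`: `θ R0 (θ R0 - A) > A (R0 - θ A)` (at `θ = 1` it is
`(R0 - A)^2 > 0`), and the same with `0, 1` exchanged.
`cov`: `δ = (r 0 + r 1 - 1/2)/2`. `gap`: replace `U` by `U ∪ -U` (symmetric). If `U` is not empty let `ℓ` be the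
supremum of the lengths of intervals in `U` (no half integer is in `U`, so `ℓ ≤ 1/2`). Take an interval of length
`> θ ℓ`, move it to `[0, 1/2]` and extend it to the component `(a,b)` (`a, b ∉ U`).
(i) `b ≤ r 0`: `a > 0` and the image `(1/(q0 b), 1/(q0 a))` has length `≥ (b-a)/θ^2`, contradiction; similarly
`a ≥ 1/2 - r 1`.
(ii) `a < A = 1/2 - r 1`, `r 0 < b`. The image of `(a, r 0)` is `J = (P 0, 1/(q0 a)) ⊆ U`. If `b ≤ P 0` then
`|J| = P0 (r0 - a)/a ≥ (1/θ) (P0 - a) ≥ (b-a)/θ` since `P0 (r0 - a) - a (P0 - a)/θ` is decreasing on `(0, A)`.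
Similarly if `1/2 - a ≤ P 1`. Otherwise `b ∉ U` gives `1/(q0 a) ≤ b`, `a b ≥ R0^2`, and
`(1/2 - a)(1/2 - b) ≥ R1^2`, so `R0 + R1 ≤ 1/2` by Cauchy, contradiction.
-/

namespace Pool.Agent.H80.Sel

open Complex MeasureTheory Filter Topology Pool.Agent.H11.Selberg Pool.Agent.H14.Sel

/-- the parameters -/
structure GtPm (q₀ q₁ r₀ r₁ κ : ℝ) : Prop where
  q0 : 0 < q₀
  q1 : 0 < q₁
  r0 : 0 < r₀
  r1 : 0 < r₁
  r0h : r₀ < 1 / 2
  r1h : r₁ < 1 / 2
  sum : 1 / 2 < r₀ + r₁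
  k1 : 1 < κ
  e0 : κ * (q₀ * r₀ ^ 2) ≤ 1
  e1 : κ * (q₁ * r₁ ^ 2) ≤ 1
  cs : 1 / 2 < 1 / Real.sqrt q₀ + 1 / Real.sqrt q₁
  p0 : κ * (1 / 2 - r₁) * (1 / (q₀ * r₀) - (1 / 2 - r₁)) ≤ 1 / (q₀ * r₀) * (r₀ - (1 / 2 - r₁))
  p1 : κ * (1 / 2 - r₀) * (1 / (q₁ * r₁) - (1 / 2 - r₀)) ≤ 1 / (q₁ * r₁) * (r₁ - (1 / 2 - r₀))

/-- the properties of the gap set -/
structure GtSys (q₀ q₁ r₀ r₁ : ℝ) (U : Set ℝ) : Prop where
  op : IsOpen U
  per : ∀ x : ℝ, x ∈ U ↔ x + 1 ∈ U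
  sym : ∀ x : ℝ, x ∈ U → -x ∈ U
  z0 : (0 : ℝ) ∉ U
  z1 : (1 / 2 : ℝ) ∉ U
  c0 : ∀ x : ℝ, x ∈ U → x ≠ 0 → |x| < r₀ → 1 / (q₀ * x) ∈ U
  c1 : ∀ x : ℝ, x ∈ U → x ≠ 1 / 2 → |x - 1 / 2| < r₁ → 1 / 2 + 1 / (q₁ * (x - 1 / 2)) ∈ U

theorem GtPm.swap {q₀ q₁ r₀ r₁ κ : ℝ} (h : GtPm q₀ q₁ r₀ r₁ κ) : GtPm q₁ q₀ r₁ r₀ κ where
  q0 := h.q1
  q1 := h.q0
  r0 := h.r1
  r1 := h.r0
  r0h := h.r1h
  r1h := h.r0h
  sum := by linarith [h.sum]
  k1 := h.k1
  e0 := h.e1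
  e1 := h.e0
  cs := by linarith [h.cs]
  p0 := h.p1
  p1 := h.p0

theorem GtSys.int {q₀ q₁ r₀ r₁ : ℝ} {U : Set ℝ} (h : GtSys q₀ q₁ r₀ r₁ U) (x : ℝ) (n : ℤ) :
    x ∈ U ↔ x + n ∈ U := by
  induction n using Int.induction_on with
  | zero => simp
  | succ i ih =>
    rw [ih, h.per]
    push_cast
    rw [add_assoc]
  | pred i ih =>
    rw [ih, h.per (x + ((-(i : ℤ) - 1 : ℤ) : ℝ))]
    push_cast
    have : x + (-(i : ℝ) - 1) + 1 = x + -(i : ℝ) := by ring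
    rw [this]

theorem GtSys.swap {q₀ q₁ r₀ r₁ : ℝ} {U : Set ℝ} (h : GtSys q₀ q₁ r₀ r₁ U) :
    GtSys q₁ q₀ r₁ r₀ {x : ℝ | 1 / 2 - x ∈ U} where
  op := h.op.preimage (by fun_prop)
  per := by
    intro x
    change 1 / 2 - x ∈ U ↔ 1 / 2 - (x + 1) ∈ U
    rw [h.per (1 / 2 - (x + 1))]
    have : 1 / 2 - (x + 1) + 1 = 1 / 2 - x := by ring
    rw [this]
  sym := by
    intro x hx
    change 1 / 2 - -x ∈ U
    have h1 := h.sym _ hx
    rw [h.per] at h1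
    have : -(1 / 2 - x) + 1 = 1 / 2 - -x := by ring
    rwa [this] at h1
  z0 := by
    intro hx
    change 1 / 2 - (0 : ℝ) ∈ U at hx
    rw [sub_zero] at hx
    exact h.z1 hx
  z1 := by
    intro hx
    change 1 / 2 - (1 / 2 : ℝ) ∈ U at hx
    rw [sub_self] at hx
    exact h.z0 hx
  c0 := by
    intro x hx hx0 hxr
    change 1 / 2 - 1 / (q₁ * x) ∈ U
    have h1 := h.c1 (1 / 2 - x) hx (by intro he; apply hx0; linarith) (by
      have : (1 / 2 - x - 1 / 2 : ℝ) = -x := by ring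
      rw [this, abs_neg]
      exact hxr)
    have e : (1 / 2 - x - 1 / 2 : ℝ) = -x := by ring
    rw [e, mul_neg, div_neg, ← sub_eq_add_neg] at h1
    exact h1
  c1 := by
    intro x hx hx0 hxr
    change 1 / 2 - (1 / 2 + 1 / (q₀ * (x - 1 / 2))) ∈ U
    have h1 := h.c0 (1 / 2 - x) hx (by intro he; apply hx0; linarith) (by
      rw [abs_sub_comm]
      exact hxr)
    have e : 1 / 2 - (1 / 2 + 1 / (q₀ * (x - 1 / 2))) = 1 / (q₀ * (1 / 2 - x)) := by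
      have : q₀ * (1 / 2 - x) = -(q₀ * (x - 1 / 2)) := by ring
      rw [this, div_neg]
      ring
    rw [e]
    exact h1

theorem GtSys.half_int {q₀ q₁ r₀ r₁ : ℝ} {U : Set ℝ} (h : GtSys q₀ q₁ r₀ r₁ U) (n : ℤ) :
    ((n : ℝ) / 2) ∉ U := by
  intro hn
  rcases Int.even_or_odd' n with ⟨j, hj | hj⟩
  · apply h.z0
    rw [h.int 0 j, zero_add]
    rw [hj] at hn
    push_cast at hn
    have e : (2 * (j : ℝ)) / 2 = j := by ring
    rwa [e] at hn
  · apply h.z1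
    rw [h.int (1 / 2) j]
    rw [hj] at hn
    push_cast at hn
    have e : (2 * (j : ℝ) + 1) / 2 = 1 / 2 + j := by ring
    rwa [e] at hn

theorem GtSys.img {q₀ q₁ r₀ r₁ : ℝ} {U : Set ℝ} (h : GtSys q₀ q₁ r₀ r₁ U) (hq : 0 < q₀) {y : ℝ}
    (hy : 0 < y) (hU : 1 / (q₀ * y) ∈ U) (hr : 1 / (q₀ * y) < r₀) : y ∈ U := by
  have hx : 0 < 1 / (q₀ * y) := by positivity
  have h1 := h.c0 _ hU hx.ne' (by rw [abs_of_pos hx]; exact hr)
  have e : 1 / (q₀ * (1 / (q₀ * y))) = y := by field_simp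
  rwa [e] at h1

/-- no interval `(0, b)` in `U` -/
theorem GtSys.zero {q₀ q₁ r₀ r₁ : ℝ} {U : Set ℝ} (h : GtSys q₀ q₁ r₀ r₁ U) (hq : 0 < q₀)
    {b : ℝ} (hb : 0 < b) (hbr : b ≤ r₀) (hs : Set.Ioo 0 b ⊆ U) : False := by
  obtain ⟨n, hn⟩ := exists_nat_gt (1 / (q₀ * b))
  have hn0 : (0 : ℝ) < n := lt_trans (by positivity) hn
  have h1 : 1 / (q₀ * n) < b := by
    rw [div_lt_iff₀ (by positivity)] at hn ⊢
    nlinarith
  have h2 : (n : ℝ) ∈ U := by
    refine h.img hq hn0 (hs ⟨by positivity, h1⟩) (lt_of_lt_of_le h1 hbr)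
  apply h.half_int (2 * n : ℤ)
  push_cast
  have e : (2 * (n : ℝ)) / 2 = n := by ring
  rwa [e]

/-- the image of an interval -/
theorem GtSys.image {q₀ q₁ r₀ r₁ : ℝ} {U : Set ℝ} (h : GtSys q₀ q₁ r₀ r₁ U) (hq : 0 < q₀)
    {a b : ℝ} (ha : 0 < a) (hab : a < b) (hbr : b ≤ r₀) (hs : Set.Ioo a b ⊆ U) :
    Set.Ioo (1 / (q₀ * b)) (1 / (q₀ * a)) ⊆ U := by
  rintro y ⟨h1, h2⟩
  have hb : 0 < b := ha.trans hab
  have hy : 0 < y := lt_trans (by positivity) h1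
  have h3 : 1 / (q₀ * y) < b := by
    rw [div_lt_iff₀ (by positivity)] at h1 ⊢
    nlinarith
  have h4 : a < 1 / (q₀ * y) := by
    rw [lt_div_iff₀ (by positivity)] at h2 ⊢
    nlinarith
  exact h.img hq hy (hs ⟨h4, h3⟩) (lt_of_lt_of_le h3 hbr)

/-- case (i) -/
theorem GtSys.case1 {q₀ q₁ r₀ r₁ κ : ℝ} {U : Set ℝ} (h : GtSys q₀ q₁ r₀ r₁ U)
    (P : GtPm q₀ q₁ r₀ r₁ κ) {a b : ℝ} (ha : 0 ≤ a) (hab : a < b) (hbr : b ≤ r₀)
    (hs : Set.Ioo a b ⊆ U) : ∃ c d : ℝ, c < d ∧ Set.Ioo c d ⊆ U ∧ κ * (b - a) ≤ d - c := by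
  have hq := P.q0
  rcases ha.lt_or_eq with ha | ha
  · refine ⟨1 / (q₀ * b), 1 / (q₀ * a), ?_, h.image hq ha hab hbr hs, ?_⟩
    · apply one_div_lt_one_div_of_lt (by positivity)
      exact mul_lt_mul_of_pos_left hab hq
    · have hb0 : 0 < b := ha.trans hab
      have e : 1 / (q₀ * a) - 1 / (q₀ * b) = (b - a) / (q₀ * (a * b)) := by
        field_simp
      rw [e, le_div_iff₀ (by positivity)]
      have h2 : a * b ≤ r₀ ^ 2 := by nlinarith
      have hk : 0 < κ := by linarith [P.k1]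
      have h3 : κ * (q₀ * (a * b)) ≤ κ * (q₀ * r₀ ^ 2) := by
        apply mul_le_mul_of_nonneg_left _ hk.le
        exact mul_le_mul_of_nonneg_left h2 hq.le
      have h4 := P.e0
      nlinarith
  · subst ha
    exact (h.zero hq hab hbr hs).elim

/-- case (ii), `b ≤ P` -/
theorem GtSys.case2 {q₀ q₁ r₀ r₁ κ : ℝ} {U : Set ℝ} (h : GtSys q₀ q₁ r₀ r₁ U)
    (P : GtPm q₀ q₁ r₀ r₁ κ) {a b : ℝ} (ha : 0 < a) (haA : a < 1 / 2 - r₁) (hbr : r₀ < b)
    (hbP : b ≤ 1 / (q₀ * r₀)) (hs : Set.Ioo a b ⊆ U) :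
    ∃ c d : ℝ, c < d ∧ Set.Ioo c d ⊆ U ∧ κ * (b - a) ≤ d - c := by
  have hq := P.q0
  have hr := P.r0
  have har : a < r₀ := by linarith [P.sum]
  refine ⟨1 / (q₀ * r₀), 1 / (q₀ * a), ?_,
    h.image hq ha har le_rfl (fun y hy => hs ⟨hy.1, hy.2.trans hbr⟩), ?_⟩
  · apply one_div_lt_one_div_of_lt (by positivity)
    exact mul_lt_mul_of_pos_left har hq
  · have hk := P.k1
    have hk0 : 0 < κ := by linarith
    set p := 1 / (q₀ * r₀) with hp
    have hp0 : 0 < p := by positivity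
    have e : 1 / (q₀ * a) - p = p * (r₀ - a) / a := by
      rw [hp]
      field_simp
    rw [e, le_div_iff₀ ha]
    have h0 := P.p0
    rw [← hp] at h0
    set A := 1 / 2 - r₁ with hA
    have hAr : A < r₀ := by linarith [P.sum]
    have hrp : κ * r₀ ≤ p := by
      rw [hp, le_div_iff₀ (by positivity)]
      have := P.e0
      nlinarith
    -- κ a (p - a) ≤ p (r₀ - a)
    have h1 : κ * a * (p - a) ≤ p * (r₀ - a) := by
      -- difference is decreasing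
      have h2 : p * (r₀ - a) - κ * a * (p - a) - (p * (r₀ - A) - κ * A * (p - A)) =
          (A - a) * ((1 + κ) * p - κ * (A + a)) := by ring
      have h3 : 0 ≤ (A - a) * ((1 + κ) * p - κ * (A + a)) := by
        apply mul_nonneg (by linarith)
        have h4 : κ * (A + a) ≤ κ * (r₀ + r₀) := mul_le_mul_of_nonneg_left (by linarith) hk0.le
        nlinarith
      linarith
    have h5 : κ * (b - a) * a ≤ κ * a * (p - a) := by
      have h6 : b - a ≤ p - a := by linarith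
      have h7 := mul_le_mul_of_nonneg_left h6 (mul_pos hk0 ha).le
      nlinarith
    linarith

/-- case (ii), `P < b` -/
theorem GtSys.case3 {q₀ q₁ r₀ r₁ κ : ℝ} {U : Set ℝ} (h : GtSys q₀ q₁ r₀ r₁ U)
    (P : GtPm q₀ q₁ r₀ r₁ κ) {a b : ℝ} (ha : 0 < a) (har : a < r₀) (hbr : r₀ < b)
    (hbP : 1 / (q₀ * r₀) < b) (hbU : b ∉ U) (hs : Set.Ioo a b ⊆ U) : 1 ≤ q₀ * (a * b) := by
  have hq := P.q0
  have h1 := h.image hq ha har le_rfl (fun y hy => hs ⟨hy.1, hy.2.trans hbr⟩)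
  have h2 : 1 / (q₀ * a) ≤ b := by
    by_contra hc
    push Not at hc
    exact hbU (h1 ⟨hbP, hc⟩)
  rw [div_le_iff₀ (by positivity)] at h2
  nlinarith

theorem GtSys.step {q₀ q₁ r₀ r₁ κ : ℝ} {U : Set ℝ} (h : GtSys q₀ q₁ r₀ r₁ U)
    (P : GtPm q₀ q₁ r₀ r₁ κ) {a b : ℝ} (ha : 0 ≤ a) (hab : a < b) (hb : b ≤ 1 / 2)
    (haU : a ∉ U) (hbU : b ∉ U)
    (hs : Set.Ioo a b ⊆ U) : ∃ c d : ℝ, c < d ∧ Set.Ioo c d ⊆ U ∧ κ * (b - a) ≤ d - c := by
  have hsw : Set.Ioo (1 / 2 - b) (1 / 2 - a) ⊆ {x : ℝ | 1 / 2 - x ∈ U} := by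
    rintro y ⟨h1, h2⟩
    exact hs ⟨by linarith, by linarith⟩
  have hback : (∃ c d : ℝ, c < d ∧ Set.Ioo c d ⊆ {x : ℝ | 1 / 2 - x ∈ U} ∧
      κ * ((1 / 2 - a) - (1 / 2 - b)) ≤ d - c) →
      ∃ c d : ℝ, c < d ∧ Set.Ioo c d ⊆ U ∧ κ * (b - a) ≤ d - c := by
    rintro ⟨c, d, h1, h2, h3⟩
    refine ⟨1 / 2 - d, 1 / 2 - c, by linarith, ?_, ?_⟩
    · rintro y ⟨h4, h5⟩
      have h6 : (1 / 2 - y) ∈ {x : ℝ | 1 / 2 - x ∈ U} := h2 ⟨by linarith, by linarith⟩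
      change 1 / 2 - (1 / 2 - y) ∈ U at h6
      rwa [sub_sub_cancel] at h6
    · have e : (1 / 2 - a) - (1 / 2 - b) = b - a := by ring
      rw [e] at h3
      linarith
  by_cases hb1 : b ≤ r₀
  · exact h.case1 P ha hab hb1 hs
  by_cases ha1 : 1 / 2 - r₁ ≤ a
  · exact hback (h.swap.case1 P.swap (by linarith) (by linarith) (by linarith) hsw)
  push Not at hb1 ha1
  have ha0 : 0 < a := by
    rcases ha.lt_or_eq with h0 | h0
    · exact h0
    · exact (h.zero P.q0 P.r0 le_rfl (fun y hy => hs ⟨h0 ▸ hy.1, hy.2.trans hb1⟩)).elim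
  have hb0 : b < 1 / 2 := by
    rcases hb.lt_or_eq with h0 | h0
    · exact h0
    · refine (h.swap.zero P.q1 P.r1 le_rfl (fun y hy => hsw ⟨?_, ?_⟩)).elim
      · rw [h0, sub_self]; exact hy.1
      · linarith [hy.2]
  by_cases hbP : b ≤ 1 / (q₀ * r₀)
  · exact h.case2 P ha0 ha1 hb1 hbP hs
  by_cases haP : 1 / 2 - a ≤ 1 / (q₁ * r₁)
  · exact hback (h.swap.case2 P.swap (by linarith) (by linarith) (by linarith) haP hsw)
  push Not at hbP haP
  exfalso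
  have har : a < r₀ := by linarith [P.sum]
  have h1 := h.case3 P ha0 har hb1 hbP hbU hs
  have h2 := h.swap.case3 P.swap (a := 1 / 2 - b) (b := 1 / 2 - a) (by linarith)
    (by linarith [P.sum]) (by linarith) haP (by
      change ¬ (1 / 2 - (1 / 2 - a) ∈ U)
      rw [sub_sub_cancel]
      exact haU) hsw
  -- Cauchy
  have hq0 := P.q0
  have hq1 := P.q1
  set u := 1 / Real.sqrt q₀ with hu
  set v := 1 / Real.sqrt q₁ with hv
  have hu0 : 0 < u := by have := Real.sqrt_pos.mpr hq0; positivity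
  have hv0 : 0 < v := by have := Real.sqrt_pos.mpr hq1; positivity
  have hu2 : q₀ * u ^ 2 = 1 := by
    rw [hu, div_pow, Real.sq_sqrt hq0.le]
    field_simp
  have hv2 : q₁ * v ^ 2 = 1 := by
    rw [hv, div_pow, Real.sq_sqrt hq1.le]
    field_simp
  have h3 : u ^ 2 ≤ a * b := by
    by_contra hc
    push Not at hc
    have := mul_lt_mul_of_pos_left hc hq0
    linarith
  have h4 : v ^ 2 ≤ (1 / 2 - b) * (1 / 2 - a) := by
    by_contra hc
    push Not at hc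
    have := mul_lt_mul_of_pos_left hc hq1
    linarith
  have hX : 0 < a * (1 / 2 - b) := mul_pos ha0 (by linarith)
  have hY : 0 < b * (1 / 2 - a) := mul_pos (by linarith) (by linarith)
  have h5 : (2 * (u * v)) ^ 2 ≤ (a * (1 / 2 - b) + b * (1 / 2 - a)) ^ 2 := by
    have h6 : u ^ 2 * v ^ 2 ≤ (a * b) * ((1 / 2 - b) * (1 / 2 - a)) :=
      mul_le_mul h3 h4 (by positivity) (by nlinarith)
    have h7 := sq_nonneg (a * (1 / 2 - b) - b * (1 / 2 - a))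
    nlinarith
  have h8 : 2 * (u * v) ≤ a * (1 / 2 - b) + b * (1 / 2 - a) := by
    refine le_of_sq_le_sq h5 (by linarith)
  have h9 : (u + v) ^ 2 ≤ (1 / 2) ^ 2 := by nlinarith
  have h10 : u + v ≤ 1 / 2 := le_of_sq_le_sq h9 (by norm_num)
  have := P.cs
  linarith

theorem GtSys.empty {q₀ q₁ r₀ r₁ κ : ℝ} {U : Set ℝ} (h : GtSys q₀ q₁ r₀ r₁ U)
    (P : GtPm q₀ q₁ r₀ r₁ κ) : U = ∅ := by
  by_contra hne
  obtain ⟨x0, hx0⟩ := Set.nonempty_iff_ne_empty.2 hne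
  set L : Set ℝ := {l | ∃ a b : ℝ, a < b ∧ Set.Ioo a b ⊆ U ∧ l = b - a} with hL
  have hloc : ∀ a b : ℝ, a < b → Set.Ioo a b ⊆ U →
      (⌊2 * a⌋ : ℝ) / 2 ≤ a ∧ b ≤ ((⌊2 * a⌋ : ℝ) + 1) / 2 := by
    intro a b hab hs
    have h1 := Int.floor_le (2 * a)
    have h2 := Int.lt_floor_add_one (2 * a)
    refine ⟨by linarith, ?_⟩
    by_contra hc
    push Not at hc
    refine h.half_int (⌊2 * a⌋ + 1) (hs ⟨?_, ?_⟩)
    · push_cast
      linarith
    · push_cast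
      exact hc
  have hbd : BddAbove L := by
    refine ⟨1 / 2, ?_⟩
    rintro l ⟨a, b, hab, hs, rfl⟩
    obtain ⟨h1, h2⟩ := hloc a b hab hs
    linarith
  obtain ⟨δ, hδ, hball⟩ := Metric.isOpen_iff.1 h.op _ hx0
  have hmem0 : δ ∈ L := by
    refine ⟨x0 - δ / 2, x0 + δ / 2, by linarith, ?_, by ring⟩
    rintro y ⟨h1, h2⟩
    apply hball
    rw [Metric.mem_ball, Real.dist_eq, abs_lt]
    constructor <;> linarith
  set ℓ := sSup L with hℓ
  have hℓpos : 0 < ℓ := lt_of_lt_of_le hδ (le_csSup hbd hmem0)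
  have hk := P.k1
  have hk0 : 0 < κ := by linarith
  have hlt : ℓ / κ < ℓ := by
    rw [div_lt_iff₀ hk0]
    nlinarith
  obtain ⟨l, ⟨a', b', hab', hs', rfl⟩, hl⟩ := exists_lt_of_lt_csSup ⟨δ, hmem0⟩ hlt
  -- move to [0, 1/2]
  obtain ⟨a, b, ha, hab, hb, hs, hlen⟩ : ∃ a b : ℝ, 0 ≤ a ∧ a < b ∧ b ≤ 1 / 2 ∧
      Set.Ioo a b ⊆ U ∧ b - a = b' - a' := by
    obtain ⟨h1, h2⟩ := hloc a' b' hab' hs'
    rcases Int.even_or_odd' ⌊2 * a'⌋ with ⟨j, hj | hj⟩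
    · rw [hj] at h1 h2
      push_cast at h1 h2
      refine ⟨a' - j, b' - j, by linarith, by linarith, by linarith, ?_, by ring⟩
      rintro y ⟨h3, h4⟩
      rw [h.int y j]
      exact hs' ⟨by linarith, by linarith⟩
    · rw [hj] at h1 h2
      push_cast at h1 h2
      refine ⟨(j + 1 : ℝ) - b', (j + 1 : ℝ) - a', by linarith, by linarith, by linarith, ?_,
        by ring⟩
      rintro y ⟨h3, h4⟩
      have h5 : (j + 1 : ℝ) - y ∈ U := hs' ⟨by linarith, by linarith⟩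
      have h6 := h.sym _ h5
      rw [h.int _ (j + 1)] at h6
      push_cast at h6
      have e : -((j : ℝ) + 1 - y) + ((j : ℝ) + 1) = y := by ring
      rwa [e] at h6
  -- the component
  set mid := (a + b) / 2 with hmid
  have hmU : mid ∈ U := hs ⟨by linarith, by linarith⟩
  have hcl : IsClosed Uᶜ := isClosed_compl_iff.2 h.op
  set SB : Set ℝ := Uᶜ ∩ Set.Ici mid with hSB
  have hSBc : IsClosed SB := hcl.inter isClosed_Ici
  have hSBne : SB.Nonempty := ⟨1 / 2, h.z1, by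
    change mid ≤ 1 / 2
    linarith⟩
  have hSBb : BddBelow SB := ⟨mid, fun x hx => hx.2⟩
  set β := sInf SB with hβ
  have hβm : β ∈ SB := hSBc.csInf_mem hSBne hSBb
  have hββ : b ≤ β := by
    apply le_csInf hSBne
    rintro x ⟨h1, h2⟩
    by_contra hc
    push Not at hc
    refine h1 (hs ⟨?_, hc⟩)
    have : mid ≤ x := h2
    linarith
  have hβ1 : β ≤ 1 / 2 := csInf_le hSBb ⟨h.z1, by change mid ≤ 1 / 2; linarith⟩
  set SA : Set ℝ := Uᶜ ∩ Set.Iic mid with hSA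
  have hSAc : IsClosed SA := hcl.inter isClosed_Iic
  have hSAne : SA.Nonempty := ⟨0, h.z0, by
    change 0 ≤ mid
    linarith⟩
  have hSAb : BddAbove SA := ⟨mid, fun x hx => hx.2⟩
  set α := sSup SA with hα
  have hαm : α ∈ SA := hSAc.csSup_mem hSAne hSAb
  have hαα : α ≤ a := by
    apply csSup_le hSAne
    rintro x ⟨h1, h2⟩
    by_contra hc
    push Not at hc
    refine h1 (hs ⟨hc, ?_⟩)
    have : x ≤ mid := h2
    linarith
  have hα0 : 0 ≤ α := le_csSup hSAb ⟨h.z0, by change 0 ≤ mid; linarith⟩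
  have hcomp : Set.Ioo α β ⊆ U := by
    rintro y ⟨h1, h2⟩
    by_contra hc
    rcases le_total mid y with h3 | h3
    · have := csInf_le hSBb (show y ∈ SB from ⟨hc, h3⟩)
      linarith
    · have := le_csSup hSAb (show y ∈ SA from ⟨hc, h3⟩)
      linarith
  obtain ⟨c, d, hcd, hcdU, hlen2⟩ := h.step P hα0 (by linarith) hβ1 hαm.1 hβm.1 hcomp
  have h1 : d - c ≤ ℓ := le_csSup hbd ⟨c, d, hcd, hcdU, rfl⟩
  rw [div_lt_iff₀ hk0] at hl
  have h2 : κ * (b - a) ≤ κ * (β - α) := mul_le_mul_of_nonneg_left (by linarith) hk0.le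
  rw [hlen] at h2
  nlinarith

theorem gt_par (q₀ q₁ : ℝ) (h0 : 4 ≤ q₀) (h1 : 4 ≤ q₁)
    (h01 : 1 / 2 < 1 / Real.sqrt q₀ + 1 / Real.sqrt q₁) :
    ∃ r₀ r₁ κ : ℝ, GtPm q₀ q₁ r₀ r₁ κ := by
  have hq0 : 0 < q₀ := by linarith
  have hq1 : 0 < q₁ := by linarith
  have hs0 : 0 < Real.sqrt q₀ := Real.sqrt_pos.mpr hq0
  have hs1 : 0 < Real.sqrt q₁ := Real.sqrt_pos.mpr hq1
  obtain ⟨R₀, hR₀⟩ : ∃ R₀ : ℝ, R₀ = 1 / Real.sqrt q₀ := ⟨_, rfl⟩
  obtain ⟨R₁, hR₁⟩ : ∃ R₁ : ℝ, R₁ = 1 / Real.sqrt q₁ := ⟨_, rfl⟩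
  have hR0 : 0 < R₀ := by rw [hR₀]; positivity
  have hR1 : 0 < R₁ := by rw [hR₁]; positivity
  have hqR0 : q₀ * R₀ ^ 2 = 1 := by
    rw [hR₀, div_pow, Real.sq_sqrt hq0.le]
    field_simp
  have hqR1 : q₁ * R₁ ^ 2 = 1 := by
    rw [hR₁, div_pow, Real.sq_sqrt hq1.le]
    field_simp
  have hR0h : R₀ ≤ 1 / 2 := by
    by_contra hc
    push Not at hc
    have : (1 / 2) ^ 2 < R₀ ^ 2 := by nlinarith
    nlinarith
  have hR1h : R₁ ≤ 1 / 2 := by
    by_contra hc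
    push Not at hc
    have : (1 / 2) ^ 2 < R₁ ^ 2 := by nlinarith
    nlinarith
  have hsum : 1 / 2 < R₀ + R₁ := by rw [hR₀, hR₁]; exact h01
  have ev : ∀ (f : ℝ → ℝ), Continuous f → 0 < f 1 → ∀ᶠ t in 𝓝 (1 : ℝ), 0 < f t :=
    fun f hf h => continuousAt_const.eventually_lt hf.continuousAt h
  have e1 := ev (fun t => t * (R₀ + R₁) - 1 / 2) (by fun_prop) (by linarith)
  have e2 := ev (fun t => t * R₀ * (t * R₀ - (1 / 2 - t * R₁)) -
    (1 / 2 - t * R₁) * (R₀ - t * (1 / 2 - t * R₁))) (by fun_prop) (by nlinarith)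
  have e3 := ev (fun t => t * R₁ * (t * R₁ - (1 / 2 - t * R₀)) -
    (1 / 2 - t * R₀) * (R₁ - t * (1 / 2 - t * R₀))) (by fun_prop) (by nlinarith)
  have e4 := ev (fun t => t - 1 / 2) (by fun_prop) (by norm_num)
  have hall : ∀ᶠ t in 𝓝[<] (1 : ℝ), _ :=
    (nhdsWithin_le_nhds (e1.and (e2.and (e3.and e4))))
  obtain ⟨θ, ⟨g1, g2, g3, g4⟩, hθ1⟩ := (hall.and self_mem_nhdsWithin).exists
  have hθ1' : θ < 1 := hθ1
  have hθ0 : 0 < θ := by linarith
  have k0 : 1 / (q₀ * (θ * R₀)) = R₀ / θ := by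
    rw [div_eq_div_iff (by positivity) (by positivity)]
    linear_combination (-θ) * hqR0
  have k1 : 1 / (q₁ * (θ * R₁)) = R₁ / θ := by
    rw [div_eq_div_iff (by positivity) (by positivity)]
    linear_combination (-θ) * hqR1
  refine ⟨θ * R₀, θ * R₁, 1 / θ, hq0, hq1, by positivity, by positivity, by nlinarith,
    by nlinarith, by linarith, ?_, ?_, ?_, h01, ?_, ?_⟩
  · rw [lt_div_iff₀ hθ0]; linarith
  · have : 1 / θ * (q₀ * (θ * R₀) ^ 2) = θ * (q₀ * R₀ ^ 2) := by field_simp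
    rw [this, hqR0]; linarith
  · have : 1 / θ * (q₁ * (θ * R₁) ^ 2) = θ * (q₁ * R₁ ^ 2) := by field_simp
    rw [this, hqR1]; linarith
  · rw [k0]
    have a1 : 1 / θ * (1 / 2 - θ * R₁) * (R₀ / θ - (1 / 2 - θ * R₁)) =
        (1 / 2 - θ * R₁) * (R₀ - θ * (1 / 2 - θ * R₁)) / θ ^ 2 := by field_simp
    have a2 : R₀ / θ * (θ * R₀ - (1 / 2 - θ * R₁)) =
        θ * R₀ * (θ * R₀ - (1 / 2 - θ * R₁)) / θ ^ 2 := by field_simp
    rw [a1, a2]
    apply div_le_div_of_nonneg_right _ (by positivity)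
    linarith
  · rw [k1]
    have a1 : 1 / θ * (1 / 2 - θ * R₀) * (R₁ / θ - (1 / 2 - θ * R₀)) =
        (1 / 2 - θ * R₀) * (R₁ - θ * (1 / 2 - θ * R₀)) / θ ^ 2 := by field_simp
    have a2 : R₁ / θ * (θ * R₁ - (1 / 2 - θ * R₀)) =
        θ * R₁ * (θ * R₁ - (1 / 2 - θ * R₀)) / θ ^ 2 := by field_simp
    rw [a1, a2]
    apply div_le_div_of_nonneg_right _ (by positivity)
    linarith

theorem geo_two (q₀ q₁ : ℝ) (h0 : 4 ≤ q₀) (h1 : 4 ≤ q₁)
    (h01 : 1 / 2 < 1 / Real.sqrt q₀ + 1 / Real.sqrt q₁) :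
    ∃ r₀ r₁ : ℝ, Geo ![0, 1 / 2] ![q₀, q₁] ![r₀, r₁] := by
  obtain ⟨r₀, r₁, κ, P⟩ := gt_par q₀ q₁ h0 h1 h01
  have hk := P.k1
  refine ⟨r₀, r₁, ?_, ?_, ?_, ?_, ?_⟩
  · intro i
    fin_cases i
    · exact P.q0
    · exact P.q1
  · intro i
    fin_cases i
    · exact P.r0
    · exact P.r1
  · intro i
    have hh : ∀ t : ℝ, 0 < t → κ * t ≤ 1 → t < 1 := by
      intro t ht h
      nlinarith
    have p0 := P.q0
    have p1 := P.q1
    have p2 := P.r0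
    have p3 := P.r1
    fin_cases i
    · exact hh _ (by positivity) P.e0
    · exact hh _ (by positivity) P.e1
  · have hs := P.sum
    refine ⟨(r₀ + r₁ - 1 / 2) / 2, by linarith, ?_⟩
    intro x
    have hx := abs_sub_round x
    by_cases hc : |x - round x| ≤ r₀ - (r₀ + r₁ - 1 / 2) / 2
    · refine ⟨0, -round x, ?_⟩
      change |x + ((-round x : ℤ) : ℝ) - 0| ≤ r₀ - _
      push_cast
      rw [sub_zero, ← sub_eq_add_neg]
      exact hc
    · push Not at hc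
      rcases le_total 0 (x - round x) with h2 | h2
      · rw [abs_of_nonneg h2] at hc hx
        refine ⟨1, -round x, ?_⟩
        change |x + ((-round x : ℤ) : ℝ) - 1 / 2| ≤ r₁ - _
        push_cast
        rw [abs_le]
        constructor <;> linarith
      · rw [abs_of_nonpos h2] at hc hx
        refine ⟨1, -round x + 1, ?_⟩
        change |x + ((-round x + 1 : ℤ) : ℝ) - 1 / 2| ≤ r₁ - _
        push_cast
        rw [abs_le]
        constructor <;> linarith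
  · intro U hU hper hc hcl
    have hint : ∀ x : ℝ, x ∈ U → x - 1 ∈ U := by
      intro x hx
      rw [hper, sub_add_cancel]
      exact hx
    have c0 := hc 0
    have c1 := hc 1
    have d0 := hcl 0
    have d1 := hcl 1
    change (0 : ℝ) ∉ U at c0
    change (1 / 2 : ℝ) ∉ U at c1
    change ∀ x : ℝ, x ∈ U → x ≠ 0 → |x - 0| < r₀ → 0 + 1 / (q₀ * (x - 0)) ∈ U at d0
    change ∀ x : ℝ, x ∈ U → x ≠ 1 / 2 → |x - 1 / 2| < r₁ →
      1 / 2 + 1 / (q₁ * (x - 1 / 2)) ∈ U at d1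
    have hS : GtSys q₀ q₁ r₀ r₁ (U ∪ {x : ℝ | -x ∈ U}) := by
      refine ⟨?_, ?_, ?_, ?_, ?_, ?_, ?_⟩
      · exact hU.union (hU.preimage continuous_neg)
      · intro x
        have e : -(x + 1) + 1 = -x := by ring
        have h2 : -x ∈ U ↔ -(x + 1) ∈ U := by rw [hper (-(x + 1)), e]
        constructor
        · rintro (h3 | h3)
          · exact Or.inl ((hper x).1 h3)
          · exact Or.inr (h2.1 h3)
        · rintro (h3 | h3)
          · exact Or.inl ((hper x).2 h3)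
          · exact Or.inr (h2.2 h3)
      · rintro x (h3 | h3)
        · right
          change - -x ∈ U
          rwa [neg_neg]
        · left
          exact h3
      · rintro (h3 | h3)
        · exact c0 h3
        · change -(0 : ℝ) ∈ U at h3
          rw [neg_zero] at h3
          exact c0 h3
      · rintro (h3 | h3)
        · exact c1 h3
        · change -(1 / 2 : ℝ) ∈ U at h3
          rw [hper] at h3
          have e : -(1 / 2 : ℝ) + 1 = 1 / 2 := by norm_num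
          rw [e] at h3
          exact c1 h3
      · rintro x (h3 | h3) hx0 hxr
        · left
          have := d0 x h3 hx0 (by rwa [sub_zero])
          rwa [sub_zero, zero_add] at this
        · right
          change -(1 / (q₀ * x)) ∈ U
          have := d0 (-x) h3 (by simpa using hx0) (by rwa [sub_zero, abs_neg])
          rw [sub_zero, zero_add, mul_neg, div_neg] at this
          exact this
      · rintro x (h3 | h3) hx0 hxr
        · left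
          exact d1 x h3 hx0 hxr
        · right
          change -(1 / 2 + 1 / (q₁ * (x - 1 / 2))) ∈ U
          have h4 : -x + 1 ∈ U := (hper _).1 h3
          have e : -x + 1 - 1 / 2 = -(x - 1 / 2) := by ring
          have := d1 (-x + 1) h4 (by intro he; apply hx0; linarith) (by rw [e, abs_neg]; exact hxr)
          rw [e, mul_neg, div_neg] at this
          have h5 := hint _ this
          have e2 : 1 / 2 + -(1 / (q₁ * (x - 1 / 2))) - 1 =
            -(1 / 2 + 1 / (q₁ * (x - 1 / 2))) := by ring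
          rwa [e2] at h5
    have h6 := hS.empty P
    rw [Set.union_empty_iff] at h6
    exact h6.1

end Pool.Agent.H80.Sel
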