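import Mathlib
import Pool.Agent.H80.Sel.Defs

set_option autoImplicit false

/-!
# MP_8e9775_nt: elementary facts on `Geo` and `MAdm`
-/

namespace Pool.Agent.H80.Sel

open Complex Pool.Agent.H11.Selberg Pool.Agent.H14.Sel

/-- uniform constants -/
structure Unif {N : ℕ} (k r : Fin N → ℝ) (k₀ K₁ κ : ℝ) : Prop where
  k0 : 0 < k₀
  kap : κ < 1
  kap0 : 0 < κ
  le_k : ∀ i, k₀ ≤ k i
  k_le : ∀ i, k i ≤ K₁
  K1 : 0 < K₁
  kr_le : ∀ i, k i * r i ^ 2 ≤ κ

theorem Geo.unif {N : ℕ} {s k r : Fin N → ℝ} (h : Geo s k r) : ∃ k₀ K₁ κ : ℝ, Unif k r k₀ K₁ κ := by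
  have hne : Nonempty (Fin N) := by
    obtain ⟨δ, _, hδ⟩ := h.cov
    obtain ⟨i, _, _⟩ := hδ 0
    exact ⟨i⟩
  obtain ⟨i0, hi0⟩ := Finite.exists_min k
  obtain ⟨i1, hi1⟩ := Finite.exists_max k
  obtain ⟨i2, hi2⟩ := Finite.exists_max (fun i => k i * r i ^ 2)
  exact ⟨k i0, k i1, k i2 * r i2 ^ 2, h.kpos i0, h.kr i2,
    mul_pos (h.kpos i2) (pow_pos (h.rpos i2) 2), hi0, hi1, h.kpos i1, hi2⟩

theorem Unif.krpos {N : ℕ} {s k r : Fin N → ℝ} (h : Geo s k r) (i : Fin N) : 0 < k i * r i :=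
  mul_pos (h.kpos i) (h.rpos i)

/-- the factor of a step is at least one -/
theorem Geo.one_le_step {N : ℕ} {s k r : Fin N → ℝ} (h : Geo s k r) (i : Fin N) (p : ℝ)
    (hp : 1 / (k i * r i) ≤ |p - s i|) : 1 ≤ Real.sqrt (k i) * |p - s i| := by
  have hk := h.kpos i
  have hr := h.rpos i
  have hkr := h.kr i
  have hs0 : 0 < Real.sqrt (k i) := Real.sqrt_pos.2 hk
  have hss : Real.sqrt (k i) * Real.sqrt (k i) = k i := Real.mul_self_sqrt hk.le
  have hsr : Real.sqrt (k i) * r i < 1 := by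
    by_contra hc
    push Not at hc
    have h1 : 1 ≤ (Real.sqrt (k i) * r i) * (Real.sqrt (k i) * r i) := by nlinarith
    have e : (Real.sqrt (k i) * r i) * (Real.sqrt (k i) * r i) = k i * r i ^ 2 := by
      calc (Real.sqrt (k i) * r i) * (Real.sqrt (k i) * r i)
          = (Real.sqrt (k i) * Real.sqrt (k i)) * r i ^ 2 := by ring
        _ = k i * r i ^ 2 := by rw [hss]
    linarith
  have h2 : Real.sqrt (k i) * (1 / (k i * r i)) ≤ Real.sqrt (k i) * |p - s i| :=
    mul_le_mul_of_nonneg_left hp hs0.le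
  have h3 : 1 ≤ Real.sqrt (k i) * (1 / (k i * r i)) := by
    rw [mul_one_div, le_div_iff₀ (by positivity), one_mul]
    calc k i * r i = Real.sqrt (k i) * (Real.sqrt (k i) * r i) := by rw [← mul_assoc, hss]
      _ ≤ Real.sqrt (k i) * 1 := mul_le_mul_of_nonneg_left hsr.le hs0.le
      _ = Real.sqrt (k i) := mul_one _
  linarith

theorem MAdm.sqrt_le {N : ℕ} {s k r : Fin N → ℝ} (hg : Geo s k r) {k₀ : ℝ} (hk : ∀ i, k₀ ≤ k i)
    {p c : ℝ} (h : MAdm s k r p c) : Real.sqrt k₀ ≤ c := by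
  induction h with
  | base i j => exact Real.sqrt_le_sqrt (hk i)
  | step i p c j h hp ih =>
    have h1 := hg.one_le_step i p hp
    have hc0 : 0 ≤ c := (Real.sqrt_nonneg _).trans ih
    calc Real.sqrt k₀ ≤ c := ih
      _ = 1 * c := (one_mul _).symm
      _ ≤ Real.sqrt (k i) * |p - s i| * c := mul_le_mul_of_nonneg_right h1 hc0

theorem MAdm.add_int {N : ℕ} {s k r : Fin N → ℝ} {p c : ℝ} (h : MAdm s k r p c) (n : ℤ) :
    MAdm s k r (p + n) c := by
  cases h with
  | base i j =>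
    have := MAdm.base (s := s) (k := k) (r := r) i (j + n)
    push_cast at this
    rw [← add_assoc] at this
    exact this
  | step i p c j h hp =>
    have := MAdm.step (s := s) (k := k) (r := r) i p c (j - n) h hp
    push_cast at this
    have e : s i + 1 / (k i * (p - s i)) - (j : ℝ) + n =
      s i + 1 / (k i * (p - s i)) - ((j : ℝ) - n) := by ring
    rw [e]
    exact this

/-- periodicity by integers -/
theorem MAut.per_int {N : ℕ} {s k : Fin N → ℝ} {φ : ℂ → ℝ} (h : MAut s k φ) (z : ℂ) (j : ℤ) :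
    φ (z + (j : ℂ)) = φ z := by
  induction j using Int.induction_on with
  | zero => simp
  | succ i ih =>
      have := h.per (z + ((i : ℤ) : ℂ))
      rw [ih] at this
      rw [← this]
      congr 1
      push_cast
      ring
  | pred i ih =>
      have := h.per (z + (((-(i : ℤ) - 1 : ℤ)) : ℂ))
      rw [← this, ← ih]
      congr 1
      push_cast
      ring

end Pool.Agent.H80.Sel
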