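import Mathlib
import Pool.Agent.H80.Sel.Basic

set_option autoImplicit false

/-!
# Module CUSPX (MP_8e9775_nt): `φ` is large near admissible cusps (adaptation of
`Pool/Agent/H14/Sel/Cusp.lean`)

`V, cV` from `h.top`, `C ≥ 0` from `h.refl`, `k₀, K₁, κ` from `hg.unif` (`k₀ ≤ k i ≤ K₁`, `k i r i^2 ≤ κ < 1`).
`ε = sqrt (2 K₁ v₀/V)`, `K = 4 ε/(1 - κ)`, `R4 = (1/κ)^(1/4)`, `A = C (2 v₀)^(1/4)/(R4 - 1)`,
`D = k₀^(-1/4) R4`. Conditions on `v₀` (all hold for small `v₀`): `V v₀ ≤ 1/8`, `ε ≤ k₀/2`,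
`exp (K/k₀) ≤ 2`, `2 v₀ ≤ k₀`, `r i + sqrt (2 v₀/V)/k₀ ≤ 1/sqrt (k i)` for all `i`, `A D ≤ cV/2`.

Claim by induction on `MAdm s k r p c`: if `y = Im z > 0`, `y/(2V) ≤ c^2 ‖z-p‖^2 ≤ y/V` and
`y c^2 ≤ v₀ exp (K/c^2)`, then `φ z ≥ cV - A (D - (c^2)^(-1/4))`.
Base `p = s i + j`, `c = sqrt (k i)`: `w = z - j - s i`, `φ z = φ (s i + w)`, as in `Cusp.lean`
(`D - k i^(-1/4) ≥ k i^(-1/4) (R4 - 1)` since `k₀ ≤ k i`).
Step: `P = s i + 1/(k i (p - s i)) - j`, `c₁ = sqrt (k i) |p - s i| c`, `w = z + j - s i`,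
`z' = s i + 1/(k i conj w)`; `z' - p = 1/(k i conj w) - (p - s i)`, so everything is as in `Cusp.lean` with `q`
replaced by `k i`, `p` by `p - s i`; `c₁^2 ≥ c^2/κ`, `x = k i |p - s i| ‖z - P‖`, `c^2 x ≤ ε`
(`(c^2 x)^2 = k i c^2 c₁^2 ‖z-P‖^2 ≤ k i c^2 y/V ≤ K₁ y c₁^2/V ≤ 2 K₁ v₀/V`).
-/

namespace Pool.Agent.H80.Sel

open Complex MeasureTheory Filter Topology Pool.Agent.H11.Selberg Pool.Agent.H14.Sel

private theorem cgeo_im {q : ℝ} (hq : 0 < q) (w : ℂ) (hw : w ≠ 0) :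
    (1 / ((q : ℂ) * (starRingEnd ℂ) w)).im = w.im / (q * ‖w‖ ^ 2) := by
  have e1 : (1 / ((q : ℂ) * (starRingEnd ℂ) w)) = ((1 / (q * ‖w‖ ^ 2) : ℝ) : ℂ) * w := by
    have h1 : (starRingEnd ℂ) w ≠ 0 := by simpa using hw
    have h2 : ((‖w‖ ^ 2 : ℝ) : ℂ) = w * (starRingEnd ℂ) w := by
      rw [Complex.mul_conj, Complex.normSq_eq_norm_sq]
    have hq' : (q : ℂ) ≠ 0 := by exact_mod_cast hq.ne'
    push_cast at h2 ⊢
    rw [h2]
    field_simp
  rw [e1, Complex.im_ofReal_mul]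
  ring

private theorem cgeo_norm {q : ℝ} (hq : 0 < q) (w : ℂ) (p : ℝ) (hp : p ≠ 0) (hw : w ≠ 0) :
    ‖1 / ((q : ℂ) * (starRingEnd ℂ) w) - (p : ℂ)‖ =
      |p| * ‖w - ((1 / (q * p) : ℝ) : ℂ)‖ / ‖w‖ := by
  have hq' : (q : ℂ) ≠ 0 := by exact_mod_cast hq.ne'
  have hp' : (p : ℂ) ≠ 0 := by exact_mod_cast hp
  have h1 : (starRingEnd ℂ) w ≠ 0 := by
    rw [Ne, map_eq_zero]
    exact hw
  have e1 : 1 / ((q : ℂ) * (starRingEnd ℂ) w) - (p : ℂ) =
      -((p : ℂ) * (starRingEnd ℂ) (w - ((1 / (q * p) : ℝ) : ℂ)) / (starRingEnd ℂ) w) := by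
    have e2 : (starRingEnd ℂ) (w - ((1 / (q * p) : ℝ) : ℂ)) =
        (starRingEnd ℂ) w - 1 / ((q : ℂ) * p) := by
      rw [map_sub, Complex.conj_ofReal]
      push_cast
      ring
    rw [e2]
    field_simp
    ring
  rw [e1, norm_neg, norm_div, norm_mul, RCLike.norm_conj, RCLike.norm_conj, Complex.norm_real,
    Real.norm_eq_abs]

private theorem cexp_ineq {x : ℝ} (h0 : 0 ≤ x) (h1 : x ≤ 1 / 2) :
    1 ≤ Real.exp (4 * x) * (1 - x) ^ 2 := by
  have h2 : 1 ≤ Real.exp (2 * x) * (1 - x) := by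
    have := Real.add_one_le_exp (2 * x)
    have h3 : (2 * x + 1) * (1 - x) ≤ Real.exp (2 * x) * (1 - x) :=
      mul_le_mul_of_nonneg_right this (by linarith)
    nlinarith
  have e : Real.exp (4 * x) * (1 - x) ^ 2 = (Real.exp (2 * x) * (1 - x)) ^ 2 := by
    rw [mul_pow, ← Real.exp_nat_mul]
    congr 2
    push_cast
    ring
  rw [e]
  nlinarith

private theorem mcusp_ind {N : ℕ} {s k r : Fin N → ℝ} {φ : ℂ → ℝ} (h : MAut s k φ)
    (hg : Geo s k r) {k₀ K₁ κ : ℝ} (hu : Unif k r k₀ K₁ κ)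
    (V cV C v₀ ε K A D R4 : ℝ) (hV : 1 ≤ V)
    (htop : ∀ z : ℂ, V ≤ z.im → z.im ≤ 2 * V → cV ≤ φ z)
    (hC : 0 ≤ C)
    (hrefl : ∀ (i : Fin N) (z : ℂ), 0 < z.im → z.im ≤ 1 → ‖z‖ ^ 2 ≤ 1 / k i →
      |φ (s i + z) - φ (s i + 1 / ((k i : ℂ) * (starRingEnd ℂ) z))| ≤ C * z.im ^ (1 / 4 : ℝ))
    (hv : 0 < v₀) (hε0 : 0 ≤ ε) (hε : 2 * K₁ * v₀ / V ≤ ε ^ 2) (hεq : ε ≤ k₀ / 2)
    (hK0 : 0 ≤ K) (hK : 4 * ε ≤ K * (1 - κ)) (hKq : Real.exp (K / k₀) ≤ 2)
    (h4 : 2 * v₀ ≤ k₀) (h5 : ∀ i, r i + Real.sqrt (2 * v₀ / V) / k₀ ≤ 1 / Real.sqrt (k i))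
    (hR4 : R4 = (1 / κ) ^ (1 / 4 : ℝ))
    (hA0 : 0 ≤ A) (hA : C * (2 * v₀) ^ (1 / 4 : ℝ) ≤ A * (R4 - 1))
    (hD : D = k₀ ^ (-(1 / 4) : ℝ) * R4) :
    ∀ p c : ℝ, MAdm s k r p c → ∀ z : ℂ, 0 < z.im →
      z.im * c ^ 2 ≤ v₀ * Real.exp (K / c ^ 2) →
      z.im / (2 * V) ≤ c ^ 2 * ‖z - p‖ ^ 2 → c ^ 2 * ‖z - p‖ ^ 2 ≤ z.im / V →
      cV - A * (D - (c ^ 2) ^ (-(1 / 4) : ℝ)) ≤ φ z := by
  have hq := hu.k0
  have hsq : 0 < Real.sqrt k₀ := Real.sqrt_pos.mpr hq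
  have hsq2 : Real.sqrt k₀ ^ 2 = k₀ := Real.sq_sqrt hq.le
  have hκ1 : κ < 1 := hu.kap
  have hκ0 : 0 < κ := hu.kap0
  have hV0 : 0 < V := by linarith
  -- general consequences of the hypothesis on y
  have key : ∀ c y : ℝ, Real.sqrt k₀ ≤ c → 0 < y → y * c ^ 2 ≤ v₀ * Real.exp (K / c ^ 2) →
      y * c ^ 2 ≤ 2 * v₀ ∧ y ≤ 1 ∧ y ^ (1 / 4 : ℝ) ≤ (2 * v₀) ^ (1 / 4 : ℝ) * (c ^ 2) ^ (-(1 / 4) : ℝ) := by
    intro c y hc hy hyc
    have hc0 : 0 < c := lt_of_lt_of_le hsq hc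
    have hc2 : k₀ ≤ c ^ 2 := by
      rw [← hsq2]
      exact pow_le_pow_left₀ hsq.le hc 2
    have hc20 : 0 < c ^ 2 := by positivity
    have h1 : Real.exp (K / c ^ 2) ≤ 2 := by
      refine le_trans (Real.exp_le_exp.mpr ?_) hKq
      exact div_le_div_of_nonneg_left hK0 hq hc2
    have h2 : y * c ^ 2 ≤ 2 * v₀ := by
      have := mul_le_mul_of_nonneg_left h1 hv.le
      linarith
    have h3 : y ≤ 1 := by
      by_contra hcon
      push Not at hcon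
      have : c ^ 2 < y * c ^ 2 := lt_mul_of_one_lt_left hc20 hcon
      linarith
    refine ⟨h2, h3, ?_⟩
    have h6 : y ≤ 2 * v₀ * (c ^ 2)⁻¹ := by
      rw [← div_eq_mul_inv, le_div_iff₀ hc20]
      exact h2
    calc y ^ (1 / 4 : ℝ) ≤ (2 * v₀ * (c ^ 2)⁻¹) ^ (1 / 4 : ℝ) :=
          Real.rpow_le_rpow hy.le h6 (by norm_num)
      _ = (2 * v₀) ^ (1 / 4 : ℝ) * (c ^ 2) ^ (-(1 / 4) : ℝ) := by
          rw [Real.mul_rpow (by positivity) (by positivity), Real.inv_rpow hc20.le,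
            Real.rpow_neg hc20.le]
  intro p c hadm
  induction hadm with
  | base i j =>
      intro z hz hyc hlo hhi
      have hki : 0 < k i := hg.kpos i
      have hk0i : k₀ ≤ k i := hu.le_k i
      have hski2 : Real.sqrt (k i) ^ 2 = k i := Real.sq_sqrt hki.le
      obtain ⟨k1, k2, k3⟩ := key (Real.sqrt (k i)) z.im (Real.sqrt_le_sqrt hk0i) hz hyc
      rw [hski2] at k1 k3 hlo hhi hyc ⊢
      have hwim : (z + ((-j : ℤ) : ℂ) - ((s i : ℝ) : ℂ)).im = z.im := by simp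
      have hper := h.per_int z (-j)
      have hw : z - ((s i + j : ℝ) : ℂ) = z + ((-j : ℤ) : ℂ) - ((s i : ℝ) : ℂ) := by
        push_cast
        ring
      rw [hw] at hlo hhi
      have hsw : z + ((-j : ℤ) : ℂ) =
          ((s i : ℝ) : ℂ) + (z + ((-j : ℤ) : ℂ) - ((s i : ℝ) : ℂ)) := by ring
      rw [hsw] at hper
      set w := z + ((-j : ℤ) : ℂ) - ((s i : ℝ) : ℂ) with hwdef
      have hw0 : w ≠ 0 := by
        intro h0
        rw [h0] at hwim
        simp at hwim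
        linarith
      have hN : 0 < ‖w‖ := norm_pos_iff.mpr hw0
      have hqN : 0 < k i * ‖w‖ ^ 2 := by positivity
      have hle1 : ‖w‖ ^ 2 ≤ 1 / k i := by
        rw [le_div_iff₀ hki]
        have : z.im / V ≤ 1 := by
          rw [div_le_one hV0]
          linarith
        linarith
      have hrf := hrefl i w (by rw [hwim]; exact hz) (by rw [hwim]; exact k2) hle1
      rw [hwim] at hrf
      have him := cgeo_im hki w hw0
      rw [hwim] at him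
      have him' : (((s i : ℝ) : ℂ) + 1 / ((k i : ℂ) * (starRingEnd ℂ) w)).im =
          (1 / ((k i : ℂ) * (starRingEnd ℂ) w)).im := by
        rw [Complex.add_im, Complex.ofReal_im, zero_add]
      have hge : V ≤ (((s i : ℝ) : ℂ) + 1 / ((k i : ℂ) * (starRingEnd ℂ) w)).im := by
        rw [him', him, le_div_iff₀ hqN]
        rw [le_div_iff₀ hV0] at hhi
        linarith
      have hle : (((s i : ℝ) : ℂ) + 1 / ((k i : ℂ) * (starRingEnd ℂ) w)).im ≤ 2 * V := by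
        rw [him', him, div_le_iff₀ hqN]
        rw [div_le_iff₀ (by positivity)] at hlo
        linarith
      have ht := htop _ hge hle
      have habs := (abs_le.mp hrf).1
      rw [hper] at habs
      have hCy : C * z.im ^ (1 / 4 : ℝ) ≤ C * ((2 * v₀) ^ (1 / 4 : ℝ) * (k i) ^ (-(1 / 4) : ℝ)) :=
        mul_le_mul_of_nonneg_left k3 hC
      have hq4 : 0 ≤ (k i) ^ (-(1 / 4) : ℝ) := by positivity
      have hfin : C * (2 * v₀) ^ (1 / 4 : ℝ) * (k i) ^ (-(1 / 4) : ℝ) ≤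
          A * (R4 - 1) * (k i) ^ (-(1 / 4) : ℝ) :=
        mul_le_mul_of_nonneg_right hA hq4
      have hR40 : 0 ≤ R4 := by
        rw [hR4]
        positivity
      have hmono : (k i) ^ (-(1 / 4) : ℝ) ≤ k₀ ^ (-(1 / 4) : ℝ) :=
        Real.rpow_le_rpow_of_nonpos hq hk0i (by norm_num)
      have hD1 : (k i) ^ (-(1 / 4) : ℝ) * R4 ≤ D := by
        rw [hD]
        exact mul_le_mul_of_nonneg_right hmono hR40
      have hAD : A * ((k i) ^ (-(1 / 4) : ℝ) * R4) ≤ A * D := mul_le_mul_of_nonneg_left hD1 hA0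
      generalize (k i) ^ (-(1 / 4) : ℝ) = g1 at *
      generalize (2 * v₀) ^ (1 / 4 : ℝ) = g3 at *
      have e1 : C * (g3 * g1) = C * g3 * g1 := by ring
      have e2 : A * (R4 - 1) * g1 = A * (g1 * R4) - A * g1 := by ring
      have e3 : A * (D - g1) = A * D - A * g1 := by ring
      rw [e3]
      rw [e1] at hCy
      rw [e2] at hfin
      linarith
  | step i p c j hpc hp ih =>
      intro z hz hyc hlo hhi
      have hki : 0 < k i := hg.kpos i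
      have hk0i : k₀ ≤ k i := hu.le_k i
      have hkK : k i ≤ K₁ := hu.k_le i
      have hski : 0 < Real.sqrt (k i) := Real.sqrt_pos.mpr hki
      have hski2 : Real.sqrt (k i) ^ 2 = k i := Real.sq_sqrt hki.le
      have hri : 0 < r i := hg.rpos i
      have hκi : k i * r i ^ 2 ≤ κ := hu.kr_le i
      have hcs : Real.sqrt k₀ ≤ c := MAdm.sqrt_le hg hu.le_k hpc
      have hc1s : Real.sqrt k₀ ≤ Real.sqrt (k i) * |p - s i| * c :=
        MAdm.sqrt_le hg hu.le_k (MAdm.step i p c j hpc hp)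
      have hps : (p : ℂ) = ((s i : ℝ) : ℂ) + ((p - s i : ℝ) : ℂ) := by
        push_cast
        ring
      set p' := p - s i with hp'def
      obtain ⟨k1, k2, k3⟩ := key (Real.sqrt (k i) * |p'| * c) z.im hc1s hz hyc
      have hc0 : 0 < c := lt_of_lt_of_le hsq hcs
      have hc2 : k₀ ≤ c ^ 2 := by
        rw [← hsq2]
        exact pow_le_pow_left₀ hsq.le hcs 2
      have hc20 : 0 < c ^ 2 := by positivity
      have hp0 : 0 < |p'| := lt_of_lt_of_le (by positivity) hp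
      have hpne : p' ≠ 0 := abs_pos.mp hp0
      have hp20 : 0 < p' ^ 2 := by positivity
      have hc1sq : (Real.sqrt (k i) * |p'| * c) ^ 2 = k i * p' ^ 2 * c ^ 2 := by
        rw [mul_pow, mul_pow, hski2, sq_abs]
      rw [hc1sq] at k1 k3 hlo hhi hyc ⊢
      have hpr : 1 ≤ |p'| * (k i * r i) := by
        rw [div_le_iff₀ (by positivity)] at hp
        exact hp
      have hpr2 : 1 ≤ p' ^ 2 * (k i * r i) ^ 2 := by
        have : 1 ≤ (|p'| * (k i * r i)) ^ 2 := one_le_pow₀ hpr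
        rw [mul_pow, sq_abs] at this
        exact this
      have hC1 : 0 < k i * p' ^ 2 * c ^ 2 := by positivity
      have hρ : c ^ 2 ≤ k i * p' ^ 2 * c ^ 2 * κ := by
        have e : k i * p' ^ 2 * c ^ 2 * (k i * r i ^ 2) = c ^ 2 * (p' ^ 2 * (k i * r i) ^ 2) := by
          ring
        calc c ^ 2 ≤ c ^ 2 * (p' ^ 2 * (k i * r i) ^ 2) := le_mul_of_one_le_right hc20.le hpr2
          _ = k i * p' ^ 2 * c ^ 2 * (k i * r i ^ 2) := e.symm
          _ ≤ k i * p' ^ 2 * c ^ 2 * κ := mul_le_mul_of_nonneg_left hκi hC1.le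
      have hcc1 : c ^ 2 ≤ k i * p' ^ 2 * c ^ 2 :=
        le_trans hρ (mul_le_of_le_one_right hC1.le hκ1.le)
      have hqc1 : k₀ ≤ k i * p' ^ 2 * c ^ 2 := le_trans hc2 hcc1
      -- the point w
      have hwim : (z + (j : ℂ) - ((s i : ℝ) : ℂ)).im = z.im := by simp
      have hper := h.per_int z j
      have hsw : z + (j : ℂ) = ((s i : ℝ) : ℂ) + (z + (j : ℂ) - ((s i : ℝ) : ℂ)) := by ring
      rw [hsw] at hper
      have hdiff : (z + (j : ℂ) - ((s i : ℝ) : ℂ)) - ((1 / (k i * p') : ℝ) : ℂ) =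
          z - ((s i + 1 / (k i * p') - j : ℝ) : ℂ) := by
        push_cast
        ring
      set P : ℂ := ((s i + 1 / (k i * p') - j : ℝ) : ℂ) with hP
      set w := z + (j : ℂ) - ((s i : ℝ) : ℂ) with hwdef
      have hw0 : w ≠ 0 := by
        intro h0
        rw [h0] at hwim
        simp at hwim
        linarith
      have hN : 0 < ‖w‖ := norm_pos_iff.mpr hw0
      have hgn := cgeo_norm hki w p' hpne hw0
      rw [hdiff] at hgn
      have him := cgeo_im hki w hw0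
      rw [hwim] at him
      set M := ‖z - P‖ with hM
      have hM0 : 0 ≤ M := norm_nonneg _
      have hnorm1 : ‖((1 / (k i * p') : ℝ) : ℂ)‖ = 1 / (k i * |p'|) := by
        rw [Complex.norm_real, Real.norm_eq_abs, abs_div, abs_mul, abs_one, abs_of_pos hki]
      have htri1 : ‖w‖ ≤ 1 / (k i * |p'|) + M := by
        have : w = ((1 / (k i * p') : ℝ) : ℂ) + (z - P) := by rw [← hdiff]; ring
        calc ‖w‖ = ‖((1 / (k i * p') : ℝ) : ℂ) + (z - P)‖ := by rw [← this]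
          _ ≤ ‖((1 / (k i * p') : ℝ) : ℂ)‖ + ‖z - P‖ := norm_add_le _ _
          _ = 1 / (k i * |p'|) + M := by rw [hnorm1]
      have htri2 : 1 / (k i * |p'|) ≤ ‖w‖ + M := by
        have : ((1 / (k i * p') : ℝ) : ℂ) = w - (z - P) := by rw [← hdiff]; ring
        calc 1 / (k i * |p'|) = ‖((1 / (k i * p') : ℝ) : ℂ)‖ := hnorm1.symm
          _ = ‖w - (z - P)‖ := by rw [← this]
          _ ≤ ‖w‖ + ‖z - P‖ := norm_sub_le _ _
      have hinv : 1 / (k i * |p'|) ≤ r i := by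
        rw [div_le_iff₀ (by positivity)]
        have e : r i * (k i * |p'|) = |p'| * (k i * r i) := by ring
        rw [e]
        exact hpr
      -- bound of M
      have hyV : z.im / V * (k i * p' ^ 2 * c ^ 2) ≤ 2 * v₀ / V := by
        rw [div_mul_eq_mul_div]
        exact div_le_div_of_nonneg_right k1 hV0.le
      have hMb : M ≤ Real.sqrt (2 * v₀ / V) / k₀ := by
        rw [le_div_iff₀ hq]
        apply Real.le_sqrt_of_sq_le
        have h1 : (M * k₀) ^ 2 ≤ (k i * p' ^ 2 * c ^ 2 * M ^ 2) * (k i * p' ^ 2 * c ^ 2) := by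
          have h2 : k₀ * k₀ ≤ (k i * p' ^ 2 * c ^ 2) * (k i * p' ^ 2 * c ^ 2) :=
            mul_le_mul hqc1 hqc1 hq.le hC1.le
          calc (M * k₀) ^ 2 = M ^ 2 * (k₀ * k₀) := by ring
            _ ≤ M ^ 2 * ((k i * p' ^ 2 * c ^ 2) * (k i * p' ^ 2 * c ^ 2)) :=
              mul_le_mul_of_nonneg_left h2 (sq_nonneg M)
            _ = (k i * p' ^ 2 * c ^ 2 * M ^ 2) * (k i * p' ^ 2 * c ^ 2) := by ring
        refine le_trans h1 (le_trans ?_ hyV)
        exact mul_le_mul_of_nonneg_right hhi hC1.le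
      have h5i := h5 i
      have hNle : ‖w‖ ≤ 1 / Real.sqrt (k i) := by linarith
      have hN2 : ‖w‖ ^ 2 ≤ 1 / k i := by
        have := pow_le_pow_left₀ hN.le hNle 2
        rw [div_pow, one_pow, hski2] at this
        exact this
      -- x
      have hx : c ^ 2 * (k i * |p'| * M) ≤ ε := by
        have h1 : (c ^ 2 * (k i * |p'| * M)) ^ 2 ≤ ε ^ 2 := by
          have e : (c ^ 2 * (k i * |p'| * M)) ^ 2 =
              k i * c ^ 2 * (k i * p' ^ 2 * c ^ 2 * M ^ 2) := by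
            rw [mul_pow, mul_pow, mul_pow, sq_abs]
            ring
          rw [e]
          refine le_trans ?_ hε
          have h2 : k i * c ^ 2 * (k i * p' ^ 2 * c ^ 2 * M ^ 2) ≤ k i * c ^ 2 * (z.im / V) :=
            mul_le_mul_of_nonneg_left hhi (by positivity)
          have h3 : k i * c ^ 2 * (z.im / V) ≤ k i * (z.im / V * (k i * p' ^ 2 * c ^ 2)) := by
            have h4 : c ^ 2 * (z.im / V) ≤ (k i * p' ^ 2 * c ^ 2) * (z.im / V) :=
              mul_le_mul_of_nonneg_right hcc1 (by positivity)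
            calc k i * c ^ 2 * (z.im / V) = k i * (c ^ 2 * (z.im / V)) := by ring
              _ ≤ k i * ((k i * p' ^ 2 * c ^ 2) * (z.im / V)) := mul_le_mul_of_nonneg_left h4 hki.le
              _ = k i * (z.im / V * (k i * p' ^ 2 * c ^ 2)) := by ring
          have h5 : k i * (z.im / V * (k i * p' ^ 2 * c ^ 2)) ≤ k i * (2 * v₀ / V) :=
            mul_le_mul_of_nonneg_left hyV hki.le
          have h6 : k i * (2 * v₀ / V) ≤ K₁ * (2 * v₀ / V) :=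
            mul_le_mul_of_nonneg_right hkK (by positivity)
          have e2 : K₁ * (2 * v₀ / V) = 2 * K₁ * v₀ / V := by ring
          linarith
        exact le_of_sq_le_sq h1 hε0
      set x := k i * |p'| * M with hxdef
      have hx0 : 0 ≤ x := by positivity
      have hxhalf : x ≤ 1 / 2 := by
        by_contra hcon
        push Not at hcon
        have : k₀ * x ≤ c ^ 2 * x := mul_le_mul_of_nonneg_right hc2 hx0
        have h2 : k₀ * (1 / 2) < k₀ * x := mul_lt_mul_of_pos_left hcon hq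
        linarith
      have hqpN : 1 - x ≤ k i * |p'| * ‖w‖ := by
        rw [div_le_iff₀ (by positivity)] at htri2
        rw [hxdef]
        have e : (‖w‖ + M) * (k i * |p'|) = k i * |p'| * ‖w‖ + k i * |p'| * M := by ring
        linarith
      have hqN : 0 < k i * ‖w‖ ^ 2 := by positivity
      -- the point z'
      have hz'im : (((s i : ℝ) : ℂ) + 1 / ((k i : ℂ) * (starRingEnd ℂ) w)).im =
          z.im / (k i * ‖w‖ ^ 2) := by
        rw [Complex.add_im, Complex.ofReal_im, zero_add, him]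
      have hz'sub : ((s i : ℝ) : ℂ) + 1 / ((k i : ℂ) * (starRingEnd ℂ) w) - (p : ℂ) =
          1 / ((k i : ℂ) * (starRingEnd ℂ) w) - (p' : ℂ) := by
        rw [hps]
        ring
      have hz' : 0 < (((s i : ℝ) : ℂ) + 1 / ((k i : ℂ) * (starRingEnd ℂ) w)).im := by
        rw [hz'im]
        positivity
      have hih1 : (((s i : ℝ) : ℂ) + 1 / ((k i : ℂ) * (starRingEnd ℂ) w)).im * c ^ 2 ≤
          v₀ * Real.exp (K / c ^ 2) := by
        rw [hz'im, div_mul_eq_mul_div, div_le_iff₀ hqN]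
        have h1 : z.im * (k i * p' ^ 2 * c ^ 2) ≤ v₀ * Real.exp (K / (k i * p' ^ 2 * c ^ 2)) := hyc
        have h2 := cexp_ineq hx0 hxhalf
        have h3 : (1 - x) ^ 2 ≤ (k i * |p'| * ‖w‖) ^ 2 := pow_le_pow_left₀ (by linarith) hqpN 2
        have h4 : 1 ≤ Real.exp (4 * x) * (k i * |p'| * ‖w‖) ^ 2 :=
          le_trans h2 (mul_le_mul_of_nonneg_left h3 (Real.exp_pos _).le)
        have h5 : Real.exp (K / (k i * p' ^ 2 * c ^ 2)) * Real.exp (4 * x) ≤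
            Real.exp (K / c ^ 2) := by
          rw [← Real.exp_add]
          apply Real.exp_le_exp.mpr
          have h6 : K / (k i * p' ^ 2 * c ^ 2) ≤ K * κ / c ^ 2 := by
            rw [div_le_div_iff₀ hC1 hc20]
            calc K * c ^ 2 ≤ K * (k i * p' ^ 2 * c ^ 2 * κ) := mul_le_mul_of_nonneg_left hρ hK0
              _ = K * κ * (k i * p' ^ 2 * c ^ 2) := by ring
          have h7 : 4 * x ≤ K * (1 - κ) / c ^ 2 := by
            rw [le_div_iff₀ hc20]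
            have e : 4 * x * c ^ 2 = 4 * (c ^ 2 * x) := by ring
            rw [e]
            linarith
          have h8 : K * κ / c ^ 2 + K * (1 - κ) / c ^ 2 = K / c ^ 2 := by
            field_simp
            ring
          linarith
        have e1 : z.im * c ^ 2 * (k i * p' ^ 2 * (k i * ‖w‖ ^ 2)) =
            z.im * (k i * p' ^ 2 * c ^ 2) * (k i * ‖w‖ ^ 2) := by ring
        have h9 : (k i * |p'| * ‖w‖) ^ 2 = k i * p' ^ 2 * (k i * ‖w‖ ^ 2) := by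
          rw [mul_pow, mul_pow, sq_abs]
          ring
        rw [h9] at h4
        have hE : 0 < Real.exp (4 * x) := Real.exp_pos _
        calc z.im * c ^ 2 ≤ z.im * c ^ 2 * (Real.exp (4 * x) * (k i * p' ^ 2 * (k i * ‖w‖ ^ 2))) :=
              le_mul_of_one_le_right (by positivity) h4
          _ = (z.im * (k i * p' ^ 2 * c ^ 2)) * Real.exp (4 * x) * (k i * ‖w‖ ^ 2) := by ring
          _ ≤ (v₀ * Real.exp (K / (k i * p' ^ 2 * c ^ 2))) * Real.exp (4 * x) *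
                (k i * ‖w‖ ^ 2) := by
              gcongr
          _ = v₀ * (Real.exp (K / (k i * p' ^ 2 * c ^ 2)) * Real.exp (4 * x)) *
                (k i * ‖w‖ ^ 2) := by ring
          _ ≤ v₀ * Real.exp (K / c ^ 2) * (k i * ‖w‖ ^ 2) := by gcongr
      have hnn : c ^ 2 * ‖((s i : ℝ) : ℂ) + 1 / ((k i : ℂ) * (starRingEnd ℂ) w) - (p : ℂ)‖ ^ 2 =
          k i * p' ^ 2 * c ^ 2 * M ^ 2 / (k i * ‖w‖ ^ 2) := by
        rw [hz'sub, hgn, div_pow, mul_pow, sq_abs]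
        field_simp
      have hih2 : (((s i : ℝ) : ℂ) + 1 / ((k i : ℂ) * (starRingEnd ℂ) w)).im / (2 * V) ≤
          c ^ 2 * ‖((s i : ℝ) : ℂ) + 1 / ((k i : ℂ) * (starRingEnd ℂ) w) - (p : ℂ)‖ ^ 2 := by
        rw [hnn, hz'im, div_right_comm]
        exact div_le_div_of_nonneg_right hlo hqN.le
      have hih3 : c ^ 2 * ‖((s i : ℝ) : ℂ) + 1 / ((k i : ℂ) * (starRingEnd ℂ) w) - (p : ℂ)‖ ^ 2 ≤
          (((s i : ℝ) : ℂ) + 1 / ((k i : ℂ) * (starRingEnd ℂ) w)).im / V := by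
        rw [hnn, hz'im, div_right_comm]
        exact div_le_div_of_nonneg_right hhi hqN.le
      have hIH := ih _ hz' hih1 hih2 hih3
      have hrf := hrefl i w (by rw [hwim]; exact hz) (by rw [hwim]; exact k2) hN2
      rw [hwim] at hrf
      have habs := (abs_le.mp hrf).1
      rw [hper] at habs
      have hCy : C * z.im ^ (1 / 4 : ℝ) ≤
          C * ((2 * v₀) ^ (1 / 4 : ℝ) * (k i * p' ^ 2 * c ^ 2) ^ (-(1 / 4) : ℝ)) :=
        mul_le_mul_of_nonneg_left k3 hC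
      have hG : R4 * (k i * p' ^ 2 * c ^ 2) ^ (-(1 / 4) : ℝ) ≤ (c ^ 2) ^ (-(1 / 4) : ℝ) := by
        have h1 : (k i * p' ^ 2 * c ^ 2 * κ) ^ (-(1 / 4) : ℝ) ≤ (c ^ 2) ^ (-(1 / 4) : ℝ) :=
          Real.rpow_le_rpow_of_nonpos hc20 hρ (by norm_num)
        rw [Real.mul_rpow hC1.le hκ0.le] at h1
        have h2 : R4 = κ ^ (-(1 / 4) : ℝ) := by
          rw [hR4, one_div, Real.inv_rpow hκ0.le, Real.rpow_neg hκ0.le]
        rw [h2]
        linarith
      have hG0 : 0 ≤ (k i * p' ^ 2 * c ^ 2) ^ (-(1 / 4) : ℝ) := by positivity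
      have hfin : C * (2 * v₀) ^ (1 / 4 : ℝ) * (k i * p' ^ 2 * c ^ 2) ^ (-(1 / 4) : ℝ) ≤
          A * (R4 - 1) * (k i * p' ^ 2 * c ^ 2) ^ (-(1 / 4) : ℝ) :=
        mul_le_mul_of_nonneg_right hA hG0
      have hfin2 : A * (R4 * (k i * p' ^ 2 * c ^ 2) ^ (-(1 / 4) : ℝ)) ≤
          A * (c ^ 2) ^ (-(1 / 4) : ℝ) :=
        mul_le_mul_of_nonneg_left hG hA0
      generalize hg1 : (k i * p' ^ 2 * c ^ 2) ^ (-(1 / 4) : ℝ) = g1 at *
      generalize hg2 : (c ^ 2) ^ (-(1 / 4) : ℝ) = g2 at *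
      generalize hg3 : (2 * v₀) ^ (1 / 4 : ℝ) = g3 at *
      have e1 : C * (g3 * g1) = C * g3 * g1 := by ring
      have e2 : A * (R4 - 1) * g1 = A * (R4 * g1) - A * g1 := by ring
      have e3 : A * (D - g1) = A * D - A * g1 := by ring
      have e4 : A * (D - g2) = A * D - A * g2 := by ring
      rw [e3]
      rw [e4] at hIH
      rw [e1] at hCy
      rw [e2] at hfin
      linarith

private theorem mev0 {f : ℝ → ℝ} (hf : Continuous f) {b : ℝ} (h : f 0 < b) :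
    ∀ᶠ v : ℝ in 𝓝 0, f v < b :=
  hf.continuousAt.eventually_lt continuousAt_const h

theorem mcusp_low {N : ℕ} {s k r : Fin N → ℝ} {φ : ℂ → ℝ} (h : MAut s k φ) (hg : Geo s k r) :
    ∃ V v₀ c₀ : ℝ, 1 ≤ V ∧ 0 < v₀ ∧ 0 < c₀ ∧ V * v₀ ≤ 1 / 8 ∧
      ∀ p c : ℝ, MAdm s k r p c → ∀ z : ℂ, 0 < z.im → z.im * c ^ 2 ≤ v₀ →
        z.im / (2 * V) ≤ c ^ 2 * ‖z - p‖ ^ 2 → c ^ 2 * ‖z - p‖ ^ 2 ≤ z.im / V → c₀ ≤ φ z := by
  obtain ⟨V, cV, hV, hcV, htop⟩ := h.top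
  obtain ⟨C, hC0, hrefl⟩ := h.refl
  obtain ⟨k₀, K₁, κ, hu⟩ := hg.unif
  have hq := hu.k0
  have hK₁ := hu.K1
  have hκ1 : κ < 1 := hu.kap
  have hκ0 : 0 < κ := hu.kap0
  have hsq : 0 < Real.sqrt k₀ := Real.sqrt_pos.mpr hq
  have hV0 : 0 < V := by linarith
  obtain ⟨R4, hR4⟩ : ∃ R4 : ℝ, R4 = (1 / κ) ^ (1 / 4 : ℝ) := ⟨_, rfl⟩
  have hR41 : 1 < R4 := by
    rw [hR4]
    apply Real.one_lt_rpow _ (by norm_num)
    rw [lt_div_iff₀ hκ0]
    linarith
  obtain ⟨D, hD⟩ : ∃ D : ℝ, D = k₀ ^ (-(1 / 4) : ℝ) * R4 := ⟨_, rfl⟩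
  have hD0 : 0 ≤ D := by
    rw [hD]
    have : 0 < R4 := by linarith
    positivity
  have hrs : ∀ i, r i < 1 / Real.sqrt (k i) := by
    intro i
    have hsi : 0 < Real.sqrt (k i) := Real.sqrt_pos.mpr (hg.kpos i)
    rw [lt_div_iff₀ hsi]
    by_contra hcon
    push Not at hcon
    have h1 : 1 ≤ (r i * Real.sqrt (k i)) ^ 2 := one_le_pow₀ hcon
    rw [mul_pow, Real.sq_sqrt (hg.kpos i).le] at h1
    have := hg.kr i
    linarith
  have e1 : ∀ᶠ v : ℝ in 𝓝 0, V * v < 1 / 8 :=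
    mev0 (f := fun v => V * v) (by fun_prop) (by simp)
  have e2 : ∀ᶠ v : ℝ in 𝓝 0, Real.sqrt (2 * K₁ * v / V) < k₀ / 2 :=
    mev0 (f := fun v => Real.sqrt (2 * K₁ * v / V)) (by fun_prop) (by simpa using hq)
  have e3 : ∀ᶠ v : ℝ in 𝓝 0,
      Real.exp (4 * Real.sqrt (2 * K₁ * v / V) / (1 - κ) / k₀) < 2 :=
    mev0 (f := fun v => Real.exp (4 * Real.sqrt (2 * K₁ * v / V) / (1 - κ) / k₀))
      (by fun_prop) (by simp)
  have e4 : ∀ᶠ v : ℝ in 𝓝 0, 2 * v < k₀ :=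
    mev0 (f := fun v => 2 * v) (by fun_prop) (by simpa using hq)
  have e5 : ∀ᶠ v : ℝ in 𝓝 0, ∀ i, r i + Real.sqrt (2 * v / V) / k₀ < 1 / Real.sqrt (k i) := by
    rw [Filter.eventually_all]
    intro i
    exact mev0 (f := fun v => r i + Real.sqrt (2 * v / V) / k₀) (by fun_prop)
      (by simpa using hrs i)
  have e6 : ∀ᶠ v : ℝ in 𝓝 0, C * (2 * v) ^ (1 / 4 : ℝ) / (R4 - 1) * D < cV / 2 := by
    have hc0 : Continuous (fun v : ℝ => (2 * v) ^ (1 / 4 : ℝ)) :=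
      (continuous_const.mul continuous_id).rpow_const (fun _ => Or.inr (by norm_num))
    have hc : Continuous (fun v : ℝ => C * (2 * v) ^ (1 / 4 : ℝ) / (R4 - 1) * D) :=
      ((continuous_const.mul hc0).div_const _).mul continuous_const
    refine mev0 (f := fun v => C * (2 * v) ^ (1 / 4 : ℝ) / (R4 - 1) * D) hc ?_
    simp only [mul_zero]
    rw [Real.zero_rpow (by norm_num)]
    simpa using hcV
  have hall := (e1.and (e2.and (e3.and (e4.and (e5.and e6)))))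
  have hall' : ∀ᶠ v : ℝ in 𝓝[>] 0, _ := hall.filter_mono nhdsWithin_le_nhds
  obtain ⟨v₀, ⟨h1, h2, h3, h4, h5, h6⟩, hv0⟩ := (hall'.and self_mem_nhdsWithin).exists
  have hv : 0 < v₀ := hv0
  refine ⟨V, v₀, cV / 2, hV, hv, by linarith, h1.le, ?_⟩
  intro p c hadm z hz hyc hlo hhi
  have hR : 0 < R4 - 1 := by linarith
  have hqr1 : 0 < 1 - κ := by linarith
  have hcs : Real.sqrt k₀ ≤ c := MAdm.sqrt_le hg hu.le_k hadm
  have hc0 : 0 < c := lt_of_lt_of_le hsq hcs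
  have hA0 : 0 ≤ C * (2 * v₀) ^ (1 / 4 : ℝ) / (R4 - 1) := by positivity
  have hK0 : 0 ≤ 4 * Real.sqrt (2 * K₁ * v₀ / V) / (1 - κ) := by positivity
  have hmain := mcusp_ind h hg hu V cV C v₀ (Real.sqrt (2 * K₁ * v₀ / V))
    (4 * Real.sqrt (2 * K₁ * v₀ / V) / (1 - κ))
    (C * (2 * v₀) ^ (1 / 4 : ℝ) / (R4 - 1)) D R4 hV htop hC0 hrefl hv (Real.sqrt_nonneg _)
    (by rw [Real.sq_sqrt (by positivity)]) h2.le hK0
    (by rw [div_mul_cancel₀ _ hqr1.ne']) h3.le h4.le (fun i => (h5 i).le) hR4 hA0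
    (by rw [div_mul_cancel₀ _ hR.ne']) hD p c hadm z hz
    (le_trans hyc (le_mul_of_one_le_right hv.le (Real.one_le_exp (by positivity)))) hlo hhi
  have hg : 0 ≤ (c ^ 2) ^ (-(1 / 4) : ℝ) := by positivity
  have hAg : 0 ≤ C * (2 * v₀) ^ (1 / 4 : ℝ) / (R4 - 1) * (c ^ 2) ^ (-(1 / 4) : ℝ) :=
    mul_nonneg hA0 hg
  have e : C * (2 * v₀) ^ (1 / 4 : ℝ) / (R4 - 1) * (D - (c ^ 2) ^ (-(1 / 4) : ℝ)) =
    C * (2 * v₀) ^ (1 / 4 : ℝ) / (R4 - 1) * D -
      C * (2 * v₀) ^ (1 / 4 : ℝ) / (R4 - 1) * (c ^ 2) ^ (-(1 / 4) : ℝ) := by ring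
  rw [e] at hmain
  linarith

end Pool.Agent.H80.Sel
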