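import Mathlib
import Pool.Agent.H80.Sel.Basic

set_option autoImplicit false

/-!
# Module DENSEZX (MP_8e9775_nt): admissible cusps are dense (adaptation of `Pool/Agent/H14/Sel/DenseZ.lean`)

`Z = {p | ∃ c, MAdm s k r p c}`, `U` the complement of the closure of `Z`. Apply `hg.gap` to `U`: it is
open, periodic (`MAdm.add_int`), does not contain `s i` (`MAdm.base i 0`); if `x ∈ U`, `x ≠ s i`,
`|x - s i| < r i` and `x' = s i + 1/(k i (x - s i))` is in the closure of `Z`, then
`|x' - s i| > 1/(k i r i)`, the points `p ∈ Z` near `x'` satisfy `|p - s i| ≥ 1/(k i r i)` and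
`MAdm.step i p c 0` gives points of `Z` near `x`. Compactness of `[0,1]` as in `DenseZ.lean`.
-/

namespace Pool.Agent.H80.Sel

open Complex MeasureTheory Filter Topology Pool.Agent.H11.Selberg Pool.Agent.H14.Sel

theorem madm_dense {N : ℕ} {s k r : Fin N → ℝ} (hg : Geo s k r) (η : ℝ) (hη : 0 < η) :
    ∃ cm : ℝ, 0 < cm ∧ ∀ x : ℝ, ∃ p c : ℝ, MAdm s k r p c ∧ |x - p| < η ∧ c ≤ cm := by
  set Z : Set ℝ := {p | ∃ c, MAdm s k r p c} with hZ
  have htr : ∀ (x : ℝ) (n : ℤ), x ∈ closure Z → x + n ∈ closure Z := by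
    intro x n hx
    rw [Metric.mem_closure_iff] at hx ⊢
    intro ε hε
    obtain ⟨b, ⟨c, hc⟩, hb⟩ := hx ε hε
    refine ⟨b + n, ⟨c, hc.add_int n⟩, ?_⟩
    rwa [dist_add_right]
  have hcov := hg.gap (closure Z)ᶜ isClosed_closure.isOpen_compl ?_ ?_ ?_
  · have hd : closure Z = Set.univ := by
      rw [← Set.compl_empty_iff]
      exact hcov
    have hsub : Set.Icc (0 : ℝ) 1 ⊆
        ⋃ i : {x : ℝ × ℝ // MAdm s k r x.1 x.2}, Metric.ball i.1.1 η := by
      intro x _
      have hx : x ∈ closure Z := by rw [hd]; exact Set.mem_univ x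
      rw [Metric.mem_closure_iff] at hx
      obtain ⟨b, ⟨c, hc⟩, hb⟩ := hx η hη
      exact Set.mem_iUnion.2 ⟨⟨(b, c), hc⟩, Metric.mem_ball.2 hb⟩
    obtain ⟨t, ht⟩ := isCompact_Icc.elim_finite_subcover _ (fun i => Metric.isOpen_ball) hsub
    refine ⟨∑ i ∈ t, |i.1.2| + 1, by positivity, ?_⟩
    intro x
    have hf : Int.fract x ∈ Set.Icc (0 : ℝ) 1 := ⟨Int.fract_nonneg x, (Int.fract_lt_one x).le⟩
    obtain ⟨i, hi, hix⟩ := Set.mem_iUnion₂.1 (ht hf)
    refine ⟨i.1.1 + ⌊x⌋, i.1.2, i.2.add_int _, ?_, ?_⟩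
    · rw [Metric.mem_ball, Real.dist_eq] at hix
      have e : x - (i.1.1 + ⌊x⌋) = Int.fract x - i.1.1 := by
        rw [Int.fract]; ring
      rwa [e]
    · have h1 : |i.1.2| ≤ ∑ i ∈ t, |i.1.2| :=
        Finset.single_le_sum (f := fun i : {x : ℝ × ℝ // MAdm s k r x.1 x.2} => |i.1.2|)
          (fun j _ => abs_nonneg _) hi
      have h2 := le_abs_self i.1.2
      linarith
  · intro x
    rw [Set.mem_compl_iff, Set.mem_compl_iff, not_iff_not]
    constructor
    · intro h
      have := htr x 1 h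
      push_cast at this
      exact this
    · intro h
      have := htr (x + 1) (-1) h
      push_cast at this
      rwa [add_neg_cancel_right] at this
  · intro i h
    apply h
    apply subset_closure
    have := MAdm.base (s := s) (k := k) (r := r) i 0
    rw [Int.cast_zero, add_zero] at this
    exact ⟨_, this⟩
  · intro i x hx hxs hxr hx'
    apply hx
    have hk := hg.kpos i
    have hr0 := hg.rpos i
    have hx0 : x - s i ≠ 0 := sub_ne_zero.2 hxs
    have h1 : 1 / (k i * (x - s i)) ≠ 0 := by positivity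
    have h2 : 1 / (k i * r i) < |s i + 1 / (k i * (x - s i)) - s i| := by
      rw [add_sub_cancel_left, abs_div, abs_one, abs_mul, abs_of_pos hk]
      apply one_div_lt_one_div_of_lt (mul_pos hk (abs_pos.2 hx0))
      exact mul_lt_mul_of_pos_left hxr hk
    have hcont : ContinuousAt (fun t : ℝ => s i + 1 / (k i * (t - s i)))
        (s i + 1 / (k i * (x - s i))) := by
      apply ContinuousAt.add continuousAt_const
      apply ContinuousAt.div continuousAt_const (by fun_prop)
      rw [add_sub_cancel_left]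
      exact mul_ne_zero hk.ne' h1
    have e : s i + 1 / (k i * (s i + 1 / (k i * (x - s i)) - s i)) = x := by
      rw [add_sub_cancel_left]
      field_simp
      ring
    have hlim : Tendsto (fun t : ℝ => s i + 1 / (k i * (t - s i)))
        (𝓝 (s i + 1 / (k i * (x - s i)))) (𝓝 x) := by
      have := hcont.tendsto
      simp only [e] at this
      exact this
    rw [mem_closure_iff_frequently] at hx' ⊢
    have h3 : ∀ᶠ p in 𝓝 (s i + 1 / (k i * (x - s i))), 1 / (k i * r i) < |p - s i| := by
      have hc : ContinuousAt (fun p : ℝ => |p - s i|) (s i + 1 / (k i * (x - s i))) := by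
        fun_prop
      exact hc.eventually_const_lt h2
    refine hlim.frequently ((hx'.and_eventually h3).mono ?_)
    rintro p ⟨⟨c, hc⟩, hp⟩
    have := MAdm.step (s := s) (k := k) (r := r) i p c 0 hc hp.le
    rw [Int.cast_zero, sub_zero] at this
    exact ⟨_, this⟩

end Pool.Agent.H80.Sel
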