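import Mathlib
import Pool.Agent.H80.Sel.DenseZX

set_option autoImplicit false

/-!
# Module DENSEX (MP_8e9775_nt): approximation by admissible cusps (adaptation of
`Pool/Agent/H14/Sel/Dense.lean`)

Constants: `k₀, K₁, κ` from `hg.unif`, `δ` from `hg.cov`, `M` with `k i * r i ≤ M` for all `i`
(e.g. `M = (K₁ + κ)/1`: `k r ≤ (k + k r^2)/2 ≤ K₁ + κ`), `K = 2 M/(1 - κ)`, `η > 0` with `η ≤ δ`, `K η ≤ log 2`.
`cm` from `madm_dense` for `η`; `τ = min 1 (k₀ η^2)`, `v₁ = min (v₀/(2 K₁)) (v₀/(2 cm^2))`,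
`C = max (1/sqrt v₁) (cm η/sqrt(τ v₁))`, `Y₁ = v₁/2`.

Claim by induction on `n`: for `0 < Y < v₁` with `v₁ κ^n ≤ Y` and every `x` there is `(p,c)`, `MAdm`, with
`|x - p| ≤ η`, `c |x - p| ≤ C sqrt Y`, `Y c^2 ≤ (v₀/2) exp (K (η - |x - p|))`.
Choose `i, j` with `|x + j - s i| ≤ r i - δ`, `u = x + j - s i`, `d = |u|`.

Stop case `k i d^2 v₁ ≤ Y`:
* `Y < τ v₁`: `p = s i - j`, `c = sqrt (k i)`: `d ≤ sqrt (Y/(k i v₁)) ≤ sqrt (τ/k i) ≤ η`.
* `Y ≥ τ v₁`: `(p,c)` from `madm_dense`.

Otherwise `x' = s i + 1/(k i u)`, `Y' = Y/(k i d^2) < v₁`, `Y' ≥ Y/κ ≥ v₁ κ^(n-1)`. Take `(p', c')` for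
`(x', Y')`, `p = s i + 1/(k i (p' - s i)) - j`, `c = sqrt (k i) |p' - s i| c'`: `|x' - s i| = 1/(k i d) ≥ 1/(k i (r i - δ))`,
`|p' - s i| ≥ 1/(k i (r i - δ)) - η ≥ 1/(k i r i)` because
`1/(k i (r i - δ)) - 1/(k i r i) = δ/(k i r i (r i - δ)) ≥ δ/(k i r i^2) ≥ δ ≥ η`.
`x - p = 1/(k i (x' - s i)) - 1/(k i (p' - s i)) = (p' - x')/(k i (x' - s i)(p' - s i))`, so
`|x - p| ≤ κ |x' - p'|` (`k i |x' - s i| |p' - s i| ≥ 1/(k i r i^2) ≥ 1/κ`). The rest as in `Dense.lean` with `q/2`
replaced by `M`: `|p' - s i|/|x' - s i| ≤ 1 + k i r i |x' - p'| ≤ exp (M |x' - p'|)`, `K (1 - κ) = 2 M`.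
-/

namespace Pool.Agent.H80.Sel

open Complex MeasureTheory Filter Topology Pool.Agent.H11.Selberg Pool.Agent.H14.Sel

private theorem densex_ind {N : ℕ} {s k r : Fin N → ℝ} (hg : Geo s k r)
    (k₀ K₁ κ δ M v₀ η cm τ v₁ C K : ℝ) (hU : Unif k r k₀ K₁ κ)
    (hcov : ∀ x : ℝ, ∃ (i : Fin N) (j : ℤ), |x + j - s i| ≤ r i - δ)
    (hM : ∀ i, k i * r i ≤ M) (hM0 : 0 < M) (hv : 0 < v₀) (hη : 0 < η) (hηδ : η ≤ δ)
    (hcm : 0 < cm) (hdense : ∀ x : ℝ, ∃ p c : ℝ, MAdm s k r p c ∧ |x - p| < η ∧ c ≤ cm)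
    (hτ : τ ≤ k₀ * η ^ 2) (hv1 : 0 < v₁) (hv1a : v₁ * (2 * K₁) ≤ v₀)
    (hv1b : v₁ * (2 * cm ^ 2) ≤ v₀) (hC0 : 0 < C) (hC1 : 1 / Real.sqrt v₁ ≤ C)
    (hC2 : cm * η ≤ C * Real.sqrt (τ * v₁)) (hK0 : 0 < K) (hK : K * (1 - κ) = 2 * M) :
    ∀ n : ℕ, ∀ Y x : ℝ, 0 < Y → Y < v₁ → v₁ * κ ^ n ≤ Y →
      ∃ p c : ℝ, MAdm s k r p c ∧ |x - p| ≤ η ∧ c * |x - p| ≤ C * Real.sqrt Y ∧
        Y * c ^ 2 ≤ v₀ / 2 * Real.exp (K * (η - |x - p|)) := by
  have hk0 := hU.k0
  have hκlt := hU.kap
  have hκ0 := hU.kap0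
  have hsk0 : 0 < Real.sqrt k₀ := Real.sqrt_pos.mpr hk0
  have hsv : 0 < Real.sqrt v₁ := Real.sqrt_pos.mpr hv1
  have hsv2 : Real.sqrt v₁ ^ 2 = v₁ := Real.sq_sqrt hv1.le
  intro n
  induction n with
  | zero =>
      intro Y x hY hYv hn
      simp at hn
      linarith
  | succ n ih =>
      intro Y x hY hYv hn
      have hsY : 0 < Real.sqrt Y := Real.sqrt_pos.mpr hY
      have hsY2 : Real.sqrt Y ^ 2 = Y := Real.sq_sqrt hY.le
      obtain ⟨i, j, hij⟩ := hcov x
      obtain ⟨q, hqi⟩ : ∃ q : ℝ, q = k i := ⟨_, rfl⟩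
      obtain ⟨ρ, hρi⟩ : ∃ ρ : ℝ, ρ = r i := ⟨_, rfl⟩
      obtain ⟨u, hu⟩ : ∃ u : ℝ, u = x + j - s i := ⟨_, rfl⟩
      have hq : 0 < q := by rw [hqi]; exact hg.kpos i
      have hρ : 0 < ρ := by rw [hρi]; exact hg.rpos i
      have hqk0 : k₀ ≤ q := by rw [hqi]; exact hU.le_k i
      have hqK1 : q ≤ K₁ := by rw [hqi]; exact hU.k_le i
      have hqρ : q * ρ ^ 2 ≤ κ := by rw [hqi, hρi]; exact hU.kr_le i
      have hqM : q * ρ ≤ M := by rw [hqi, hρi]; exact hM i
      have hud : |u| ≤ ρ - δ := by rw [hu, hρi]; exact hij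
      have hδ0 : 0 < δ := lt_of_lt_of_le hη hηδ
      have hudρ : |u| ≤ ρ := by linarith
      have hsq : 0 < Real.sqrt q := Real.sqrt_pos.mpr hq
      have hsq2 : Real.sqrt q ^ 2 = q := Real.sq_sqrt hq.le
      by_cases hstop : q * |u| ^ 2 * v₁ ≤ Y
      · by_cases hYτ : Y < τ * v₁
        · have hdη : |u| ≤ η := by
            have h1 : q * |u| ^ 2 * v₁ < q * η ^ 2 * v₁ := by
              have h3 : k₀ * η ^ 2 ≤ q * η ^ 2 := mul_le_mul_of_nonneg_right hqk0 (by positivity)
              have := mul_le_mul_of_nonneg_right (hτ.trans h3) hv1.le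
              linarith
            have h2 : |u| ^ 2 < η ^ 2 := by
              have h3 := lt_of_mul_lt_mul_right h1 hv1.le
              exact lt_of_mul_lt_mul_left h3 hq.le
            exact (lt_of_pow_lt_pow_left₀ 2 hη.le h2).le
          have hbase : MAdm s k r (s i + ((-j : ℤ) : ℝ)) (Real.sqrt q) := by
            rw [hqi]
            exact MAdm.base i (-j)
          have hxp : x - (s i + ((-j : ℤ) : ℝ)) = u := by
            rw [hu]
            push_cast
            ring
          refine ⟨s i + ((-j : ℤ) : ℝ), Real.sqrt q, hbase, ?_, ?_, ?_⟩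
          · rw [hxp]; exact hdη
          · rw [hxp]
            have h1 : (Real.sqrt q * |u| * Real.sqrt v₁) ^ 2 ≤ (Real.sqrt Y) ^ 2 := by
              rw [mul_pow, mul_pow, hsq2, hsv2, hsY2]
              exact hstop
            have h2 : Real.sqrt q * |u| * Real.sqrt v₁ ≤ Real.sqrt Y :=
              le_of_sq_le_sq h1 hsY.le
            have h3 : Real.sqrt q * |u| ≤ 1 / Real.sqrt v₁ * Real.sqrt Y := by
              rw [one_div, inv_mul_eq_div, le_div_iff₀ hsv]
              exact h2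
            exact le_trans h3 (mul_le_mul_of_nonneg_right hC1 hsY.le)
          · rw [hxp, hsq2]
            have h1 : 1 ≤ Real.exp (K * (η - |u|)) := by
              apply Real.one_le_exp
              exact mul_nonneg hK0.le (by linarith)
            have h2 : Y * q ≤ v₀ / 2 := by
              have h3 : Y * q ≤ v₁ * K₁ := mul_le_mul hYv.le hqK1 hq.le hv1.le
              linarith
            exact le_trans h2 (le_mul_of_one_le_right (by positivity) h1)
        · push Not at hYτ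
          obtain ⟨p, c, hadm, hp, hc⟩ := hdense x
          have hc0 : 0 ≤ c := le_trans hsk0.le (MAdm.sqrt_le hg hU.le_k hadm)
          refine ⟨p, c, hadm, hp.le, ?_, ?_⟩
          · have h1 : c * |x - p| ≤ cm * η := mul_le_mul hc hp.le (abs_nonneg _) hcm.le
            have h2 : Real.sqrt (τ * v₁) ≤ Real.sqrt Y := Real.sqrt_le_sqrt hYτ
            have h3 := mul_le_mul_of_nonneg_left h2 hC0.le
            linarith
          · have h1 : 1 ≤ Real.exp (K * (η - |x - p|)) := by
              apply Real.one_le_exp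
              exact mul_nonneg hK0.le (by linarith)
            have h2 : Y * c ^ 2 ≤ v₀ / 2 := by
              have h3 : c ^ 2 ≤ cm ^ 2 := pow_le_pow_left₀ hc0 hc 2
              have h4 : Y * c ^ 2 ≤ v₁ * cm ^ 2 := mul_le_mul hYv.le h3 (by positivity) hv1.le
              linarith
            exact le_trans h2 (le_mul_of_one_le_right (by positivity) h1)
      · push Not at hstop
        have hu0 : u ≠ 0 := by
          intro h0
          rw [h0] at hstop
          simp at hstop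
          linarith
        have hd0 : 0 < |u| := abs_pos.mpr hu0
        have hqd : 0 < q * |u| ^ 2 := by positivity
        have hqdκ : q * |u| ^ 2 ≤ κ := by
          have : |u| ^ 2 ≤ ρ ^ 2 := pow_le_pow_left₀ hd0.le hudρ 2
          exact (mul_le_mul_of_nonneg_left this hq.le).trans hqρ
        have hY' : 0 < Y / (q * |u| ^ 2) := by positivity
        have hY'v : Y / (q * |u| ^ 2) < v₁ := by
          rw [div_lt_iff₀ hqd]
          linarith
        have hY'n : v₁ * κ ^ n ≤ Y / (q * |u| ^ 2) := by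
          rw [le_div_iff₀ hqd]
          have h1 : v₁ * κ ^ n * (q * |u| ^ 2) ≤ v₁ * κ ^ n * κ :=
            mul_le_mul_of_nonneg_left hqdκ (by positivity)
          have h2 : v₁ * κ ^ n * κ = v₁ * κ ^ (n + 1) := by ring
          linarith
        obtain ⟨p₀, c', hadm, hp1, hp2, hp3⟩ :=
          ih (Y / (q * |u| ^ 2)) (s i + 1 / (q * u)) hY' hY'v hY'n
        obtain ⟨x', hx'⟩ : ∃ x' : ℝ, x' = 1 / (q * u) := ⟨_, rfl⟩
        obtain ⟨p', hp'⟩ : ∃ p' : ℝ, p' = p₀ - s i := ⟨_, rfl⟩
        have hxp' : s i + 1 / (q * u) - p₀ = x' - p' := by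
          rw [hx', hp']
          ring
        rw [hxp'] at hp1 hp2 hp3
        have hc' : Real.sqrt k₀ ≤ c' := MAdm.sqrt_le hg hU.le_k hadm
        have hc'0 : 0 < c' := lt_of_lt_of_le hsk0 hc'
        have hx'abs : |x'| = 1 / (q * |u|) := by
          rw [hx', abs_div, abs_one, abs_mul, abs_of_pos hq]
        have hx'0 : 0 < |x'| := by
          rw [hx'abs]
          positivity
        have hqx : q * |x'| * |u| = 1 := by
          rw [hx'abs]
          field_simp
        have hp'r : 1 / (q * ρ) ≤ |p'| := by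
          have h1 : |x'| - |p'| ≤ |x' - p'| := abs_sub_abs_le_abs_sub x' p'
          have h2 : 1 / (q * ρ) + δ ≤ |x'| := by
            rw [hx'abs, div_add' _ _ _ (by positivity), div_le_div_iff₀ (by positivity) (by positivity)]
            have h3 : δ * (q * ρ ^ 2) ≤ δ * 1 := mul_le_mul_of_nonneg_left (by linarith) hδ0.le
            have h4 : |u| ≤ ρ - δ := hud
            have h5 : δ * (q * ρ) * |u| ≤ δ * (q * ρ) * ρ :=
              mul_le_mul_of_nonneg_left hudρ (by positivity)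
            have h6 : δ * (q * ρ) * ρ = δ * (q * ρ ^ 2) := by ring
            have h7 : |u| + δ * (q * ρ) * |u| ≤ ρ := by linarith
            have h8 := mul_le_mul_of_nonneg_left h7 hq.le
            linarith
          linarith
        have hp'0 : 0 < |p'| := lt_of_lt_of_le (by positivity) hp'r
        have hp'ne : p' ≠ 0 := abs_pos.mp hp'0
        have hx'ne : x' ≠ 0 := abs_pos.mp hx'0
        have hstep : MAdm s k r (s i + 1 / (q * p') - (j : ℝ)) (Real.sqrt q * |p'| * c') := by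
          have := MAdm.step (s := s) (k := k) (r := r) i p₀ c' j hadm (by
            rw [← hqi, ← hρi, ← hp']
            exact hp'r)
          rw [← hqi, ← hp'] at this
          exact this
        refine ⟨s i + 1 / (q * p') - (j : ℝ), Real.sqrt q * |p'| * c', hstep, ?_⟩
        have hdiff : x - (s i + 1 / (q * p') - (j : ℝ)) = (p' - x') / (q * x' * p') := by
          have h1 : x - (s i + 1 / (q * p') - (j : ℝ)) = u - 1 / (q * p') := by
            rw [hu]
            ring
          have h2 : u = 1 / (q * x') := by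
            rw [hx']
            field_simp
          rw [h1, h2]
          field_simp
        have hdabs : |x - (s i + 1 / (q * p') - (j : ℝ))| = |x' - p'| / (q * |x'| * |p'|) := by
          rw [hdiff, abs_div, abs_mul, abs_mul, abs_of_pos hq, abs_sub_comm]
        have hκ1 : |x' - p'| / (q * |x'| * |p'|) ≤ κ * |x' - p'| := by
          rw [div_le_iff₀ (by positivity)]
          have h4 : 1 ≤ κ * (q * |x'| * |p'|) := by
            have h5 : κ * (q * |x'| * |p'|) * (|u| * (q * ρ)) = κ * ((q * |x'| * |u|) * (q * ρ * |p'|)) := by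
              ring
            rw [hqx, one_mul] at h5
            have h6 : 1 ≤ q * ρ * |p'| := by
              have := mul_le_mul_of_nonneg_left hp'r (by positivity : 0 ≤ q * ρ)
              rwa [mul_one_div, div_self (by positivity)] at this
            have h7 : |u| * (q * ρ) ≤ κ := by
              have h8 : |u| * (q * ρ) ≤ ρ * (q * ρ) := mul_le_mul_of_nonneg_right hudρ (by positivity)
              have h9 : ρ * (q * ρ) = q * ρ ^ 2 := by ring
              linarith
            have h10 : κ ≤ κ * (q * |x'| * |p'|) * κ := by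
              have h11 : κ * 1 ≤ κ * (q * ρ * |p'|) := mul_le_mul_of_nonneg_left h6 hκ0.le
              have h12 : κ * (q * |x'| * |p'|) * (|u| * (q * ρ)) ≤ κ * (q * |x'| * |p'|) * κ :=
                mul_le_mul_of_nonneg_left h7 (by positivity)
              linarith
            have h13 : 1 * κ ≤ κ * (q * |x'| * |p'|) * κ := by linarith
            exact le_of_mul_le_mul_right h13 hκ0
          have h6 := mul_le_mul_of_nonneg_right h4 (abs_nonneg (x' - p'))
          linarith
        rw [hdabs]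
        refine ⟨?_, ?_, ?_⟩
        · refine le_trans hκ1 ?_
          have : κ * |x' - p'| ≤ 1 * |x' - p'| := mul_le_mul_of_nonneg_right hκlt.le (abs_nonneg _)
          linarith
        · have e1 : Real.sqrt q * |p'| * c' * (|x' - p'| / (q * |x'| * |p'|)) =
              c' * |x' - p'| * (Real.sqrt q * |u|) := by
            rw [hx'abs]
            field_simp
          rw [e1]
          have e2 : C * Real.sqrt Y = C * Real.sqrt (Y / (q * |u| ^ 2)) * (Real.sqrt q * |u|) := by
            rw [Real.sqrt_div hY.le, Real.sqrt_mul hq.le, Real.sqrt_sq (abs_nonneg u)]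
            field_simp
          rw [e2]
          exact mul_le_mul_of_nonneg_right hp2 (by positivity)
        · have e1 : Y * (Real.sqrt q * |p'| * c') ^ 2 =
              Y / (q * |u| ^ 2) * c' ^ 2 * (|p'| / |x'|) ^ 2 := by
            rw [mul_pow, mul_pow, hsq2, hx'abs]
            field_simp
          rw [e1]
          have h1 : |p'| / |x'| ≤ Real.exp (M * |x' - p'|) := by
            have h2 : |p'| ≤ |x'| + |x' - p'| := by
              have := abs_sub_abs_le_abs_sub p' x'
              rw [abs_sub_comm] at this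
              linarith
            have h3 : |p'| / |x'| ≤ 1 + M * |x' - p'| := by
              rw [div_le_iff₀ hx'0]
              have h4 : 1 ≤ M * |x'| := by
                have h5 : q * |u| ≤ M := (mul_le_mul_of_nonneg_left hudρ hq.le).trans hqM
                have h6 := mul_le_mul_of_nonneg_right h5 hx'0.le
                have h7 : q * |u| * |x'| = q * |x'| * |u| := by ring
                linarith
              have h5 := mul_le_mul_of_nonneg_right h4 (abs_nonneg (x' - p'))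
              have h6 : (1 + M * |x' - p'|) * |x'| = |x'| + M * |x'| * |x' - p'| := by ring
              rw [h6]
              linarith
            have h6 := Real.add_one_le_exp (M * |x' - p'|)
            linarith
          have h2 : (|p'| / |x'|) ^ 2 ≤ Real.exp (2 * M * |x' - p'|) := by
            have h3 := pow_le_pow_left₀ (by positivity) h1 2
            have e : Real.exp (M * |x' - p'|) ^ 2 = Real.exp (2 * M * |x' - p'|) := by
              rw [← Real.exp_nat_mul]
              congr 1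
              push_cast
              ring
            rw [e] at h3
            exact h3
          have h3 : Y / (q * |u| ^ 2) * c' ^ 2 * (|p'| / |x'|) ^ 2 ≤
              (v₀ / 2 * Real.exp (K * (η - |x' - p'|))) * Real.exp (2 * M * |x' - p'|) :=
            mul_le_mul hp3 h2 (by positivity) (by positivity)
          refine le_trans h3 ?_
          rw [mul_assoc, ← Real.exp_add]
          apply mul_le_mul_of_nonneg_left _ (by positivity)
          apply Real.exp_le_exp.mpr
          have h4 := mul_le_mul_of_nonneg_left hκ1 hK0.le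
          have h5 : K * (κ * |x' - p'|) + 2 * M * |x' - p'| = K * |x' - p'| := by
            rw [← hK]
            ring
          have e3 : K * (η - |x' - p'|) = K * η - K * |x' - p'| := by ring
          have e4 : K * (η - |x' - p'| / (q * |x'| * |p'|)) =
            K * η - K * (|x' - p'| / (q * |x'| * |p'|)) := by ring
          rw [e3, e4]
          linarith

theorem madm_approx {N : ℕ} {s k r : Fin N → ℝ} (hg : Geo s k r) (v₀ : ℝ) (hv : 0 < v₀) :
    ∃ C Y₁ : ℝ, 0 < C ∧ 0 < Y₁ ∧ ∀ x Y : ℝ, 0 < Y → Y ≤ Y₁ →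
      ∃ p c : ℝ, MAdm s k r p c ∧ Y * c ^ 2 ≤ v₀ ∧ c * |x - p| ≤ C * Real.sqrt Y := by
  obtain ⟨k₀, K₁, κ, hU⟩ := hg.unif
  obtain ⟨δ, hδ, hcov⟩ := hg.cov
  have hk0 := hU.k0
  have hK1' := hU.K1
  have hκlt := hU.kap
  have hκ0 := hU.kap0
  have hκ1 : 0 < 1 - κ := by linarith
  obtain ⟨M, hMdef⟩ : ∃ M : ℝ, M = K₁ + κ := ⟨_, rfl⟩
  have hM0 : 0 < M := by
    rw [hMdef]
    positivity
  have hM : ∀ i, k i * r i ≤ M := by
    intro i
    have h1 := hU.k_le i
    have h2 := hU.kr_le i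
    have h3 := hg.kpos i
    have h4 := hg.rpos i
    have h5 : k i * r i ≤ k i * (1 + r i ^ 2) := by
      apply mul_le_mul_of_nonneg_left _ h3.le
      nlinarith [sq_nonneg (r i - 1)]
    rw [hMdef]
    linarith
  obtain ⟨K, hK⟩ : ∃ K : ℝ, K = 2 * M / (1 - κ) := ⟨_, rfl⟩
  have hK0 : 0 < K := by
    rw [hK]
    positivity
  have hK1 : K * (1 - κ) = 2 * M := by
    rw [hK, div_mul_cancel₀ _ hκ1.ne']
  have hlog : 0 < Real.log 2 := Real.log_pos (by norm_num)
  obtain ⟨η, hη, hη1, hη3⟩ : ∃ η : ℝ, 0 < η ∧ η ≤ δ ∧ K * η ≤ Real.log 2 := by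
    refine ⟨min δ (Real.log 2 / K), lt_min hδ (by positivity), min_le_left _ _, ?_⟩
    have h := mul_le_mul_of_nonneg_left (min_le_right δ (Real.log 2 / K)) hK0.le
    rwa [mul_div_cancel₀ _ hK0.ne'] at h
  obtain ⟨cm, hcm, hdense⟩ := madm_dense hg η hη
  obtain ⟨τ, hτ⟩ : ∃ τ : ℝ, τ = k₀ * η ^ 2 := ⟨_, rfl⟩
  have hτ0 : 0 < τ := by
    rw [hτ]
    positivity
  obtain ⟨v₁, hv1, hv1a, hv1b⟩ : ∃ v₁ : ℝ, 0 < v₁ ∧ v₁ * (2 * K₁) ≤ v₀ ∧ v₁ * (2 * cm ^ 2) ≤ v₀ := by
    refine ⟨min (v₀ / (2 * K₁)) (v₀ / (2 * cm ^ 2)), ?_, ?_, ?_⟩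
    · exact lt_min (by positivity) (by positivity)
    · have h := mul_le_mul_of_nonneg_right (min_le_left (v₀ / (2 * K₁)) (v₀ / (2 * cm ^ 2)))
        (by positivity : (0 : ℝ) ≤ 2 * K₁)
      rwa [div_mul_cancel₀ _ (by positivity)] at h
    · have h := mul_le_mul_of_nonneg_right (min_le_right (v₀ / (2 * K₁)) (v₀ / (2 * cm ^ 2)))
        (by positivity : (0 : ℝ) ≤ 2 * cm ^ 2)
      rwa [div_mul_cancel₀ _ (by positivity)] at h
  have hsv : 0 < Real.sqrt v₁ := Real.sqrt_pos.mpr hv1
  have hst : 0 < Real.sqrt (τ * v₁) := Real.sqrt_pos.mpr (by positivity)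
  obtain ⟨C, hC1, hC2⟩ : ∃ C : ℝ, 1 / Real.sqrt v₁ ≤ C ∧ cm * η ≤ C * Real.sqrt (τ * v₁) := by
    refine ⟨max (1 / Real.sqrt v₁) (cm * η / Real.sqrt (τ * v₁)), le_max_left _ _, ?_⟩
    have h := mul_le_mul_of_nonneg_right (le_max_right (1 / Real.sqrt v₁)
      (cm * η / Real.sqrt (τ * v₁))) hst.le
    rwa [div_mul_cancel₀ _ hst.ne'] at h
  have hC0 : 0 < C := lt_of_lt_of_le (by positivity) hC1
  refine ⟨C, v₁ / 2, hC0, by positivity, ?_⟩
  intro x Y hY hYv
  obtain ⟨n, hn⟩ : ∃ n : ℕ, v₁ * κ ^ n ≤ Y := by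
    obtain ⟨n, hn⟩ := exists_pow_lt_of_lt_one (div_pos hY hv1) hκlt
    refine ⟨n, ?_⟩
    rw [lt_div_iff₀ hv1] at hn
    linarith
  obtain ⟨p, c, h1, h2, h3, h4⟩ := densex_ind hg k₀ K₁ κ δ M v₀ η cm τ v₁ C K hU hcov hM hM0 hv hη
    hη1 hcm hdense hτ.le hv1 hv1a hv1b hC0 hC1 hC2 hK0 hK1 n Y x hY (by linarith) hn
  refine ⟨p, c, h1, ?_, h3⟩
  refine le_trans h4 ?_
  have h5 : Real.exp (K * (η - |x - p|)) ≤ 2 := by
    calc Real.exp (K * (η - |x - p|)) ≤ Real.exp (Real.log 2) := by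
          apply Real.exp_le_exp.mpr
          have : K * (η - |x - p|) ≤ K * η :=
            mul_le_mul_of_nonneg_left (by linarith [abs_nonneg (x - p)]) hK0.le
          linarith
      _ = 2 := Real.exp_log (by norm_num)
  have := mul_le_mul_of_nonneg_left h5 (by positivity : (0 : ℝ) ≤ v₀ / 2)
  linarith

end Pool.Agent.H80.Sel
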