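import Mathlib
import Pool.Agent.H80.Sel.CuspX
import Pool.Agent.H80.Sel.DenseX
import Pool.Agent.H14.Sel.Meas

set_option autoImplicit false

/-!
# Module MEASX (MP_8e9775_nt): lower bound for the mean square (adaptation of `Aut.mean_low` in
`Pool/Agent/H14/Sel/Meas.lean`; `vitali_lower` is used from there)

`V, v₀, c₀` from `mcusp_low`, `C, Y₁` from `madm_approx`, `k₀` from `hg.unif`; `sqrt q` is replaced by `sqrt k₀`
(`MAdm.sqrt_le`).
-/

namespace Pool.Agent.H80.Sel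

open Complex MeasureTheory Filter Topology Pool.Agent.H11.Selberg Pool.Agent.H14.Sel

theorem MAut.mean_low {N : ℕ} {s k r : Fin N → ℝ} {φ : ℂ → ℝ} (h : MAut s k φ) (hg : Geo s k r) :
    ∃ c Y₁ : ℝ, 0 < c ∧ 0 < Y₁ ∧
      ∀ Y : ℝ, 0 < Y → Y ≤ Y₁ → c ≤ ∫ x in (0:ℝ)..1, (φ (x + Y * I)) ^ 2 := by
  obtain ⟨q, K₁, κ, hU⟩ := hg.unif
  have hq := hU.k0
  obtain ⟨V, v₀, c₀, hV, hv₀, hc₀, hVv, hcusp⟩ := mcusp_low h hg
  obtain ⟨C, Y₁, hC, hY₁, happ⟩ := madm_approx hg v₀ hv₀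
  have hV0 : 0 < V := by linarith
  set M : ℝ := max (C * Real.sqrt V) 1 with hM
  have hM1 : 1 ≤ M := le_max_right _ _
  have hM0 : 0 < M := by linarith
  have hsq : 0 < Real.sqrt q := Real.sqrt_pos.2 hq
  refine ⟨c₀ ^ 2 * (13 / 70) / (20 * M) / 3, min Y₁ (V * q / (9 * M ^ 2)), by positivity,
    lt_min hY₁ (by positivity), ?_⟩
  intro Y hY hYle
  have hY1 : Y ≤ Y₁ := hYle.trans (min_le_left _ _)
  have hY2 : Y ≤ V * q / (9 * M ^ 2) := hYle.trans (min_le_right _ _)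
  choose p c hadm hc1 hc2 using fun x : ℝ => happ x Y hY hY1
  have hcq : ∀ x, Real.sqrt q ≤ c x := fun x => (hadm x).sqrt_le hg hU.le_k
  have hc0 : ∀ x, 0 < c x := fun x => hsq.trans_le (hcq x)
  have hsYV : 0 < Real.sqrt (Y / V) := Real.sqrt_pos.2 (by positivity)
  have hsYV2 : Real.sqrt (Y / V) ^ 2 = Y / V := Real.sq_sqrt (by positivity)
  refine vitali_lower (fun x : ℝ => (φ (x + Y * I)) ^ 2) ((h.cont Y hY).pow 2)
    (fun t => sq_nonneg _) ?_ M (Real.sqrt (Y / V) / Real.sqrt q) (c₀ ^ 2) hM1 ?_ (sq_nonneg _)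
    p (fun x => Real.sqrt (Y / V) / c x) (fun x => div_pos hsYV (hc0 x)) ?_ ?_ ?_
  · intro x
    have := h.per ((x : ℂ) + Y * I)
    simp only
    rw [← this]
    congr 2
    push_cast
    ring
  · -- the radii are small
    have h1 : Real.sqrt (Y / V) / Real.sqrt q ≤ 1 / (3 * M) := by
      rw [← Real.sqrt_div' _ hq.le]
      have h2 : Y / V / q ≤ (1 / (3 * M)) ^ 2 := by
        rw [div_div, div_le_iff₀ (by positivity)]
        calc Y ≤ V * q / (9 * M ^ 2) := hY2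
          _ = (1 / (3 * M)) ^ 2 * (V * q) := by field_simp; ring
      calc Real.sqrt (Y / V / q) ≤ Real.sqrt ((1 / (3 * M)) ^ 2) := Real.sqrt_le_sqrt h2
        _ = 1 / (3 * M) := Real.sqrt_sq (by positivity)
    calc 3 * M * (Real.sqrt (Y / V) / Real.sqrt q) ≤ 3 * M * (1 / (3 * M)) :=
          mul_le_mul_of_nonneg_left h1 (by positivity)
      _ = 1 := by field_simp
  · intro x
    exact div_le_div_of_nonneg_left hsYV.le hsq (hcq x)
  · intro x
    have h1 : |x - p x| ≤ C * Real.sqrt Y / c x := by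
      rw [le_div_iff₀ (hc0 x)]
      have := hc2 x
      linarith
    refine h1.trans ?_
    have h2 : C * Real.sqrt Y = C * Real.sqrt V * Real.sqrt (Y / V) := by
      rw [mul_assoc, ← Real.sqrt_mul hV0.le, mul_div_cancel₀ _ hV0.ne']
    rw [h2, mul_div_assoc]
    exact mul_le_mul_of_nonneg_right (le_max_left _ _) (div_pos hsYV (hc0 x)).le
  · intro x t ht1 ht2
    have hc := hc0 x
    set ρ := Real.sqrt (Y / V) / c x with hρ
    have hρ0 : 0 < ρ := div_pos hsYV hc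
    have hρ2 : c x ^ 2 * ρ ^ 2 = Y / V := by
      rw [hρ, div_pow, hsYV2]
      field_simp
    have hnorm : ‖((t : ℂ) + Y * I) - (p x : ℂ)‖ ^ 2 = (t - p x) ^ 2 + Y ^ 2 := by
      have : ((t : ℂ) + Y * I) - (p x : ℂ) = ((t - p x : ℝ) : ℂ) + (Y : ℂ) * I := by
        push_cast
        ring
      rw [this, Complex.sq_norm, Complex.normSq_add_mul_I]
    have him : ((t : ℂ) + Y * I).im = Y := by simp
    have hs1 : 25 / 49 * ρ ^ 2 ≤ (t - p x) ^ 2 := by nlinarith
    have hs2 : (t - p x) ^ 2 ≤ 81 / 100 * ρ ^ 2 := by nlinarith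
    have hcpos : 0 < c x ^ 2 := by positivity
    have hφ : c₀ ≤ φ ((t : ℂ) + Y * I) := by
      refine hcusp (p x) (c x) (hadm x) _ (by rw [him]; exact hY) (by rw [him]; exact hc1 x) ?_ ?_
      · rw [him, hnorm]
        have h1 : Y / (2 * V) = 1 / 2 * (Y / V) := by field_simp
        rw [h1, ← hρ2]
        have h2 : 0 ≤ c x ^ 2 * Y ^ 2 := by positivity
        have h3 : c x ^ 2 * (25 / 49 * ρ ^ 2) ≤ c x ^ 2 * (t - p x) ^ 2 :=
          mul_le_mul_of_nonneg_left hs1 hcpos.le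
        have h4 : 0 ≤ c x ^ 2 * ρ ^ 2 := by positivity
        nlinarith
      · rw [him, hnorm]
        have h3 : c x ^ 2 * (t - p x) ^ 2 ≤ c x ^ 2 * (81 / 100 * ρ ^ 2) :=
          mul_le_mul_of_nonneg_left hs2 hcpos.le
        have h4 : c x ^ 2 * Y ^ 2 ≤ 1 / 8 * (Y / V) := by
          have h5 : c x ^ 2 * Y ^ 2 ≤ v₀ * Y := by
            have := mul_le_mul_of_nonneg_right (hc1 x) hY.le
            nlinarith
          have h6 : v₀ ≤ 1 / 8 / V := by
            rw [le_div_iff₀ hV0]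
            linarith
          have h7 : v₀ * Y ≤ 1 / 8 / V * Y := mul_le_mul_of_nonneg_right h6 hY.le
          have h8 : 1 / 8 / V * Y = 1 / 8 * (Y / V) := by ring
          linarith
        have h5 : c x ^ 2 * ((t - p x) ^ 2 + Y ^ 2) =
            c x ^ 2 * (t - p x) ^ 2 + c x ^ 2 * Y ^ 2 := by ring
        have h6 : c x ^ 2 * (81 / 100 * ρ ^ 2) = 81 / 100 * (Y / V) := by
          rw [← hρ2]
          ring
        have h7 : 0 < Y / V := by positivity
        linarith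
    exact pow_le_pow_left₀ hc₀.le hφ 2

end Pool.Agent.H80.Sel
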