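import Mathlib
import Pool.Agent.H80.Sel.Defs
import Pool.Agent.H14.Sel.Norm

set_option autoImplicit false

/-!
# Module NORMX (MP_8e9775_nt): `normalise` of `Pool/Agent/H14/Sel/Norm.lean` with explicit coefficients

The same proof with the twist `w = iτ` explicit.
-/

namespace Pool.Agent.H80.Sel

open Complex MeasureTheory Filter Topology Pool.Agent.H11.Selberg Pool.Agent.H14.Sel

private theorem normx_conj_cpow (Q : ℝ) (hQ : 0 < Q) (z : ℂ) :
    (starRingEnd ℂ) ((Q : ℂ) ^ z) = (Q : ℂ) ^ ((starRingEnd ℂ) z) := by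
  have h : (Q : ℂ) ≠ 0 := by exact_mod_cast hQ.ne'
  rw [Complex.cpow_def_of_ne_zero h, Complex.cpow_def_of_ne_zero h, ← Complex.ofReal_log hQ.le,
    ← Complex.exp_conj, map_mul, Complex.conj_ofReal]

private theorem normx_term (a : ℕ → ℂ) (w s : ℂ) (n : ℕ) :
    LSeries.term (fun n : ℕ => a n * (n : ℂ) ^ (-w)) s n = LSeries.term a (s + w) n := by
  rcases Nat.eq_zero_or_pos n with h | h
  · subst h
    simp [LSeries.term]
  · have hn : (n : ℂ) ≠ 0 := by exact_mod_cast h.ne'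
    rw [LSeries.term_of_ne_zero h.ne', LSeries.term_of_ne_zero h.ne', Complex.cpow_add _ _ hn,
      Complex.cpow_neg]
    have h1 : (n : ℂ) ^ w ≠ 0 := by
      rw [Ne, Complex.cpow_eq_zero_iff]
      exact fun h => hn h.1
    have h2 : (n : ℂ) ^ s ≠ 0 := by
      rw [Ne, Complex.cpow_eq_zero_iff]
      exact fun h => hn h.1
    field_simp

private theorem normx_completed (Q : ℝ) (hQ : 0 < Q) {r : ℕ} (lam : Fin r → ℝ) (mu : Fin r → ℂ)
    (H : ℂ → ℂ) (w s : ℂ) :
    completed Q lam (fun j => mu j + lam j * w) (fun s => H (s + w)) s =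
      (Q : ℂ) ^ (-w) * completed Q lam mu H (s + w) := by
  have h : (Q : ℂ) ≠ 0 := by exact_mod_cast hQ.ne'
  unfold completed
  have e1 : (Q : ℂ) ^ s = (Q : ℂ) ^ (-w) * (Q : ℂ) ^ (s + w) := by
    rw [← Complex.cpow_add _ _ h]
    congr 1
    ring
  have e2 : (∏ j, Complex.Gamma ((lam j : ℂ) * s + (mu j + lam j * w))) =
      ∏ j, Complex.Gamma ((lam j : ℂ) * (s + w) + mu j) := by
    refine Finset.prod_congr rfl fun j _ => ?_
    congr 1
    ring
  rw [e1, e2]
  ring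

/-- growth of the entire function -/
private theorem normx_growth (a : ℕ → ℂ) (F H : ℂ → ℂ) (h : IsSelberg a F)
    (hH : Differentiable ℂ H) (hHF : ∀ s : ℂ, s ≠ 1 → H s = F s) :
    ∃ (N : ℕ) (C : ℝ), 0 ≤ C ∧ ∀ s, ‖H s‖ ≤ C * Real.exp ((1 + ‖s‖) ^ N) := by
  obtain ⟨m, G, hG, ⟨A, C, hGb⟩, hGF⟩ := h.continuation
  obtain ⟨M, hM⟩ := (isCompact_closedBall (0 : ℂ) 2).exists_bound_of_continuousOn
    hH.continuous.continuousOn
  refine ⟨⌈|A|⌉₊, |M| + |C|, by positivity, fun s => ?_⟩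
  by_cases hs : s ∈ Metric.closedBall (0 : ℂ) 2
  · have h1 := hM s hs
    have h2 : (1 : ℝ) ≤ Real.exp ((1 + ‖s‖) ^ ⌈|A|⌉₊) := Real.one_le_exp (by positivity)
    calc ‖H s‖ ≤ |M| := h1.trans (le_abs_self M)
      _ ≤ (|M| + |C|) * 1 := by linarith [abs_nonneg C]
      _ ≤ (|M| + |C|) * Real.exp ((1 + ‖s‖) ^ ⌈|A|⌉₊) :=
        mul_le_mul_of_nonneg_left h2 (by positivity)
  · rw [Metric.mem_closedBall, dist_zero_right, not_le] at hs
    have hs1 : s ≠ 1 := by
      rintro rfl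
      rw [norm_one] at hs
      norm_num at hs
    have h1 : 1 ≤ ‖s - 1‖ := by
      have := norm_sub_norm_le s 1
      rw [norm_one] at this
      linarith
    have h2 : ‖H s‖ ≤ ‖G s‖ := by
      rw [hGF s hs1, hHF s hs1, norm_mul, norm_pow]
      have : 1 ≤ ‖s - 1‖ ^ m := one_le_pow₀ h1
      nlinarith [norm_nonneg (F s)]
    have h3 : ‖s‖ ^ A ≤ (1 + ‖s‖) ^ ⌈|A|⌉₊ := by
      have h4 : ‖s‖ ^ A ≤ ‖s‖ ^ ((⌈|A|⌉₊ : ℕ) : ℝ) :=
        Real.rpow_le_rpow_of_exponent_le (by linarith) ((le_abs_self A).trans (Nat.le_ceil _))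
      rw [Real.rpow_natCast] at h4
      exact h4.trans (pow_le_pow_left₀ (norm_nonneg _) (by linarith) _)
    calc ‖H s‖ ≤ ‖G s‖ := h2
      _ ≤ C * Real.exp (‖s‖ ^ A) := hGb s
      _ ≤ |C| * Real.exp (‖s‖ ^ A) :=
        mul_le_mul_of_nonneg_right (le_abs_self C) (Real.exp_pos _).le
      _ ≤ |C| * Real.exp ((1 + ‖s‖) ^ ⌈|A|⌉₊) :=
        mul_le_mul_of_nonneg_left (Real.exp_le_exp.2 h3) (abs_nonneg C)
      _ ≤ (|M| + |C|) * Real.exp ((1 + ‖s‖) ^ ⌈|A|⌉₊) :=
        mul_le_mul_of_nonneg_right (by linarith [abs_nonneg M]) (Real.exp_pos _).le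

theorem normalise' (a : ℕ → ℂ) (F H : ℂ → ℂ) (Q : ℝ) {r : ℕ} (lam : Fin r → ℝ) (mu : Fin r → ℂ)
    (ε : ℂ) (h : IsSelberg a F) (hH : Differentiable ℂ H) (hHF : ∀ s : ℂ, s ≠ 1 → H s = F s)
    (hQ : 0 < Q) (hlam : ∀ j, 0 < lam j) (hmu : ∀ j, 0 ≤ (mu j).re) (hε : ‖ε‖ = 1)
    (hfeq : ∀ s : ℂ, 0 < s.re → s.re < 1 → completed Q lam mu F s =
      ε * (starRingEnd ℂ) (completed Q lam mu F (1 - (starRingEnd ℂ) s)))
    (hdeg : ∑ j, lam j = 1) :
    ∃ (w : ℂ) (H' : ℂ → ℂ) (mu' : Fin r → ℂ) (ε' : ℂ), w.re = 0 ∧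
      Dat (fun n => a n * (n : ℂ) ^ (-w)) H' Q lam mu' ε' := by
  obtain ⟨τ, hτ⟩ : ∃ τ : ℝ, τ = -(∑ j, mu j).im := ⟨_, rfl⟩
  obtain ⟨w, hw⟩ : ∃ w : ℂ, w = (τ : ℂ) * I := ⟨_, rfl⟩
  have hwre : w.re = 0 := by simp [hw]
  have hwim : w.im = τ := by simp [hw]
  have hwconj : (starRingEnd ℂ) w = -w := by
    rw [hw, map_mul, Complex.conj_ofReal, Complex.conj_I]
    ring
  have hwnorm : ‖w‖ = |τ| := by
    rw [hw, norm_mul, Complex.norm_I, mul_one, Complex.norm_real, Real.norm_eq_abs]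
  have hQ0 : (Q : ℂ) ≠ 0 := by exact_mod_cast hQ.ne'
  have hnorm : ∀ n : ℕ, 1 ≤ n → ‖a n * (n : ℂ) ^ (-w)‖ = ‖a n‖ := by
    intro n hn
    rw [norm_mul, Complex.norm_natCast_cpow_of_pos hn, Complex.neg_re, hwre, neg_zero,
      Real.rpow_zero, mul_one]
  have hterm : ∀ s : ℂ, LSeries.term (fun n : ℕ => a n * (n : ℂ) ^ (-w)) s =
      LSeries.term a (s + w) := fun s => funext fun n => normx_term a w s n
  have hcompl : ∀ s : ℂ, s ≠ 1 → completed Q lam mu H s = completed Q lam mu F s := by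
    intro s hs
    unfold completed
    rw [hHF s hs]
  refine ⟨w, fun s => H (s + w), fun j => mu j + lam j * w,
    (Q : ℂ) ^ (-w) * (Q : ℂ) ^ (-w) * ε, hwre, ?_⟩
  constructor
  · simp [h.one]
  · intro s hs
    have h1 := h.summable (s + w) (by rw [Complex.add_re, hwre, add_zero]; exact hs)
    unfold LSeriesSummable at h1 ⊢
    rw [hterm]
    exact h1
  · intro s hs
    have hs' : 1 < (s + w).re := by rw [Complex.add_re, hwre, add_zero]; exact hs
    have hne : s + w ≠ 1 := by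
      intro he
      rw [he, Complex.one_re] at hs'
      exact lt_irrefl _ hs'
    have h1 := h.eq_LSeries (s + w) hs'
    change H (s + w) = _
    rw [hHF _ hne, h1]
    unfold LSeries
    rw [hterm]
  · exact hH.comp (differentiable_id.add_const w)
  · obtain ⟨N, C, hC, hb⟩ := normx_growth a F H h hH hHF
    refine ⟨N, (1 + |τ|) ^ N, C, fun s => ?_⟩
    refine (hb (s + w)).trans ?_
    refine mul_le_mul_of_nonneg_left (Real.exp_le_exp.2 ?_) hC
    rw [← mul_pow]
    refine pow_le_pow_left₀ (by positivity) ?_ N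
    have h1 := norm_add_le s w
    rw [hwnorm] at h1
    nlinarith [norm_nonneg s, abs_nonneg τ, mul_nonneg (norm_nonneg s) (abs_nonneg τ)]
  · exact hQ
  · exact hlam
  · intro j
    have : (mu j + lam j * w).re = (mu j).re := by
      rw [Complex.add_re, Complex.mul_re, hwre, Complex.ofReal_im]
      ring
    rw [this]
    exact hmu j
  · have h1 : ‖(Q : ℂ) ^ (-w)‖ = 1 := by
      rw [Complex.norm_cpow_eq_rpow_re_of_pos hQ, Complex.neg_re, hwre, neg_zero, Real.rpow_zero]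
    rw [norm_mul, norm_mul, h1, hε]
    norm_num
  · intro s hs0 hs1
    have hne1 : s + w ≠ 1 := by
      intro he
      have := congrArg Complex.re he
      rw [Complex.add_re, hwre, add_zero, Complex.one_re] at this
      linarith
    have hne2 : (1 - (starRingEnd ℂ) s) + w ≠ 1 := by
      intro he
      have := congrArg Complex.re he
      rw [Complex.add_re, hwre, add_zero, Complex.one_re, Complex.sub_re, Complex.one_re,
        Complex.conj_re] at this
      linarith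
    have e1 := normx_completed Q hQ lam mu H w s
    have e2 := normx_completed Q hQ lam mu H w (1 - (starRingEnd ℂ) s)
    have e3 := hfeq (s + w) (by rw [Complex.add_re, hwre, add_zero]; exact hs0)
      (by rw [Complex.add_re, hwre, add_zero]; exact hs1)
    have e4 : 1 - (starRingEnd ℂ) (s + w) = (1 - (starRingEnd ℂ) s) + w := by
      rw [map_add, hwconj]
      ring
    rw [e4, ← hcompl _ hne2, ← hcompl _ hne1] at e3
    have e5 : completed Q lam mu H ((1 - (starRingEnd ℂ) s) + w) =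
        (Q : ℂ) ^ w * completed Q lam (fun j => mu j + lam j * w) (fun s => H (s + w))
          (1 - (starRingEnd ℂ) s) := by
      rw [e2, ← mul_assoc, ← Complex.cpow_add _ _ hQ0, add_neg_cancel, Complex.cpow_zero, one_mul]
    rw [e5, map_mul, normx_conj_cpow Q hQ, hwconj] at e3
    rw [e1, e3]
    ring
  · intro δ hδ
    obtain ⟨C, hC⟩ := h.ramanujan δ hδ
    refine ⟨C, fun n hn => ?_⟩
    have := hnorm n hn
    change ‖a n * (n : ℂ) ^ (-w)‖ ≤ _
    rw [this]
    exact hC n hn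
  · exact hdeg
  · have h1 : ∑ j, (mu j + (lam j : ℂ) * w) = (∑ j, mu j) + w := by
      rw [Finset.sum_add_distrib, ← Finset.sum_mul]
      have : (∑ j, (lam j : ℂ)) = 1 := by
        rw [← Complex.ofReal_sum, hdeg, Complex.ofReal_one]
      rw [this, one_mul]
    rw [h1, Complex.add_im, hwim, hτ]
    ring

end Pool.Agent.H80.Sel
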