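import Mathlib
import Pool.Agent.H80.Sel.Defs
import Pool.Agent.H80.Sel.ReflC
import Pool.Agent.H14.Sel.LemL

set_option autoImplicit false

/-!
# Module LEMC (MP_8e9775_nt): the reflection lemma with its phase

`lemmaC_neg`: as `lemmaL_neg` in `Pool/Agent/H14/Sel/LemL.lean`, but the complex identity (`htot` in the
proof of `reflected`, `Pool/Agent/H14/Sel/Refl.lean`)
`2π E(1/2) a X = ε X⁻¹ W J`, `X = -2πi z`, `W = 2πi/(q z)`, `X⁻¹ W = -1/(q z^2)`,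
is used before taking norms. `κ = -ε c₀`. Region `Im z ≤ 4`, `‖z‖^2 ≤ 4/q`, so `v = Im z/(q‖z‖^2) ≥ y/4`.
`lemmaC_pos`: `Re z ≥ 0`, apply `lemmaC_neg` to `h.conj` and `-conj z`; `G (cj a) (-conj z) = conj (G a z)`.
-/

namespace Pool.Agent.H80.Sel

open Complex MeasureTheory Filter Topology Pool.Agent.H11.Selberg Pool.Agent.H14.Sel

theorem lemmaC_neg {a : ℕ → ℂ} {H : ℂ → ℂ} {Q : ℝ} {r : ℕ} {lam : Fin r → ℝ} {mu : Fin r → ℂ}
    {ε : ℂ} (h : Dat a H Q lam mu ε) :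
    ∃ (κ : ℂ) (C : ℝ), ‖κ‖ = 1 ∧ 0 ≤ C ∧ ∀ z : ℂ, 0 < z.im → z.im ≤ 4 → z.re ≤ 0 →
      ‖z‖ ^ 2 ≤ 4 / cond Q lam →
      z.im * ‖G a z - κ / ((cond Q lam : ℂ) * z ^ 2) * G (cj a) (-1 / ((cond Q lam : ℂ) * z))‖ ≤
        C * z.im ^ (1 / 4 : ℝ) := by
  obtain ⟨c₀, r₁, C₁, hc₀, hC₁, hdec⟩ := LemL.decomp h
  obtain ⟨C₂, hC₂, hE⟩ := norm_E_le (cj a) h.conj.ram (-1 / 2) (3 / 4) (by norm_num) (by norm_num)
    (by norm_num)
  set q : ℝ := cond Q lam with hq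
  have hq0 : 0 < q := LemL.cond_pos h
  have hpi := Real.pi_pos
  refine ⟨-(ε * c₀), 2 * (‖r₁‖ * C₂ * (q ^ (1 / 4 : ℝ)) ^ 2) + 4 * (C₁ * (q ^ (1 / 4 : ℝ)) ^ 3),
    by rw [norm_neg, norm_mul, h.eps, hc₀, one_mul], by positivity, ?_⟩
  intro z hy hy1 hx hz
  set y : ℝ := z.im with hydef
  have hz0 : z ≠ 0 := by
    intro h0; rw [hydef, h0] at hy; simp at hy
  have hn0 : 0 < ‖z‖ := norm_pos_iff.mpr hz0
  set W : ℂ := 2 * (Real.pi : ℂ) * I / ((q : ℂ) * z) with hWdef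
  set v : ℝ := y / (q * ‖z‖ ^ 2) with hv
  have hv0 : 0 < v := by positivity
  have hnsq : z.re * z.re + z.im * z.im = ‖z‖ ^ 2 := by
    rw [← Complex.normSq_eq_norm_sq, Complex.normSq_apply]
  have hW1 : W = ((2 * Real.pi / (q * ‖z‖ ^ 2) : ℝ) : ℂ) * (I * (starRingEnd ℂ) z) := by
    rw [hWdef]
    have h1 : (z : ℂ) * (starRingEnd ℂ) z = ((‖z‖ ^ 2 : ℝ) : ℂ) := by
      rw [Complex.mul_conj, Complex.normSq_eq_norm_sq]
    have h2 : (((‖z‖ ^ 2 : ℝ) : ℂ)) ≠ 0 := by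
      exact_mod_cast (pow_pos hn0 2).ne'
    have hqc : (q : ℂ) ≠ 0 := by exact_mod_cast hq0.ne'
    rw [div_eq_iff (mul_ne_zero hqc hz0)]
    push_cast
    push_cast at h1 h2
    calc 2 * (Real.pi : ℂ) * I = 2 * Real.pi * I * (((‖z‖ : ℂ) ^ 2) / ((‖z‖ : ℂ) ^ 2)) *
          ((q : ℂ) / q) := by rw [div_self h2, div_self hqc]; ring
      _ = 2 * Real.pi * I * ((z * (starRingEnd ℂ) z) / ((‖z‖ : ℂ) ^ 2)) * ((q : ℂ) / q) := by
          rw [h1]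
      _ = _ := by
          field_simp
  have hWre : W.re = 2 * Real.pi * v := by
    rw [hW1, Complex.re_ofReal_mul]
    simp only [Complex.mul_re, Complex.I_re, Complex.I_im, Complex.conj_re, Complex.conj_im]
    rw [hv]; ring
  have hWim : W.im = (2 * Real.pi / (q * ‖z‖ ^ 2)) * z.re := by
    rw [hW1, Complex.im_ofReal_mul]
    simp only [Complex.mul_im, Complex.I_re, Complex.I_im, Complex.conj_re, Complex.conj_im]
    ring
  have hWre0 : 0 < W.re := by rw [hWre]; positivity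
  have hWim0 : W.im ≤ 0 := by
    rw [hWim]
    exact mul_nonpos_of_nonneg_of_nonpos (by positivity) hx
  have hWn : ‖W‖ = 2 * Real.pi / (q * ‖z‖) := by
    rw [hWdef, norm_div, norm_mul, norm_mul, norm_mul, Complex.norm_I]
    simp only [Complex.norm_real, Real.norm_eq_abs, abs_of_pos hpi, abs_of_pos hq0,
      Complex.norm_ofNat]
    ring
  have hWn0 : 0 < ‖W‖ := by rw [hWn]; positivity
  have hGW : G (cj a) (-1 / ((q : ℂ) * z)) = E (1 / 2) (cj a) W := by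
    unfold G
    congr 1
    rw [hWdef]
    ring
  -- the value at z
  have hrefl := reflectedC h z hy
  set J : ℂ := ∫ t : ℝ, R lam mu (5 / 4 + t * I) * (Complex.Gamma (7 / 4 + t * I) *
        W ^ (-(7 / 4 + t * I : ℂ)) * LSeries (cj a) (5 / 4 + t * I)) with hJ
  have hd := hdec W hWre0 hWim0
  rw [← hJ] at hd
  set M : ℂ := c₀ * (2 * Real.pi * E (1 / 2) (cj a) W) +
    c₀ * r₁ * W⁻¹ * (2 * Real.pi * E (-1 / 2) (cj a) W) with hM
  have hmain : ‖J - c₀ * (2 * Real.pi * E (1 / 2) (cj a) W)‖ ≤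
      2 * Real.pi * (‖r₁‖ * ‖W‖⁻¹ * ‖E (-1 / 2) (cj a) W‖) +
        C₁ * ‖W‖ ^ (-3 / 2 : ℝ) * W.re ^ (-1 / 4 : ℝ) := by
    have h2 : ‖c₀ * r₁ * W⁻¹ * (2 * Real.pi * E (-1 / 2) (cj a) W)‖ =
        2 * Real.pi * (‖r₁‖ * ‖W‖⁻¹ * ‖E (-1 / 2) (cj a) W‖) := by
      rw [norm_mul, norm_mul, norm_mul, hc₀, one_mul, norm_mul, norm_mul, norm_inv]
      simp [abs_of_pos hpi]
      ring
    calc ‖J - c₀ * (2 * Real.pi * E (1 / 2) (cj a) W)‖
        = ‖c₀ * r₁ * W⁻¹ * (2 * Real.pi * E (-1 / 2) (cj a) W) + (J - M)‖ := by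
          rw [hM]; congr 1; ring
      _ ≤ _ := by
          refine (norm_add_le _ _).trans ?_
          rw [h2]
          linarith
  have hpc : (Real.pi : ℂ) ≠ 0 := by exact_mod_cast hpi.ne'
  have hqc : (q : ℂ) ≠ 0 := by exact_mod_cast hq0.ne'
  have hid : G a z - -(ε * c₀) / ((q : ℂ) * z ^ 2) * G (cj a) (-1 / ((q : ℂ) * z)) =
      -(ε / ((q : ℂ) * z ^ 2)) * (1 / (2 * Real.pi)) *
        (J - c₀ * (2 * Real.pi * E (1 / 2) (cj a) W)) := by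
    rw [hGW]
    have h1 : G a z = -(ε / ((q : ℂ) * z ^ 2)) * (1 / (2 * Real.pi)) * J := by
      have h2 : G a z = (1 / (2 * Real.pi)) *
          (2 * Real.pi * E (1 / 2) a (-(2 * (Real.pi : ℂ) * I * z))) := by
        unfold G
        field_simp
      rw [h2, hrefl]
      ring
    rw [h1]
    field_simp
    ring
  have hcoef : ‖-(ε / ((q : ℂ) * z ^ 2)) * (1 / (2 * Real.pi))‖ =
      1 / (q * ‖z‖ ^ 2) / (2 * Real.pi) := by
    rw [norm_mul, norm_neg, norm_div, norm_div, norm_mul, norm_mul, norm_pow, h.eps]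
    simp only [Complex.norm_real, Real.norm_eq_abs, abs_of_pos hpi, abs_of_pos hq0, norm_one,
      Complex.norm_ofNat]
    ring
  have hdiff : y * ‖G a z - -(ε * c₀) / ((q : ℂ) * z ^ 2) * G (cj a) (-1 / ((q : ℂ) * z))‖ ≤
      v * (‖r₁‖ * ‖W‖⁻¹ * ‖E (-1 / 2) (cj a) W‖) +
        v / (2 * Real.pi) * (C₁ * ‖W‖ ^ (-3 / 2 : ℝ) * W.re ^ (-1 / 4 : ℝ)) := by
    rw [hid, norm_mul, hcoef]
    have h1 : y * (1 / (q * ‖z‖ ^ 2) / (2 * Real.pi) *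
        ‖J - c₀ * (2 * Real.pi * E (1 / 2) (cj a) W)‖) =
        v / (2 * Real.pi) * ‖J - c₀ * (2 * Real.pi * E (1 / 2) (cj a) W)‖ := by
      rw [hv]; ring
    rw [h1]
    refine (mul_le_mul_of_nonneg_left hmain (by positivity)).trans (le_of_eq ?_)
    field_simp
  refine hdiff.trans ?_
  -- comparisons
  have hvy : y ≤ 4 * v := by
    have h1 : y / 4 ≤ v := by
      rw [hv, le_div_iff₀ (by positivity)]
      have : q * ‖z‖ ^ 2 ≤ 4 := by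
        rw [le_div_iff₀ hq0] at hz; linarith
      nlinarith
    linarith
  set k : ℝ := q ^ (1 / 4 : ℝ) with hk
  set A : ℝ := y ^ (1 / 4 : ℝ) with hA
  set B : ℝ := v ^ (1 / 4 : ℝ) with hB
  have hk0 : 0 < k := by positivity
  have hA0 : 0 < A := by positivity
  have hB0 : 0 < B := by positivity
  have pow4 : ∀ x : ℝ, 0 < x → (x ^ (1 / 4 : ℝ)) ^ 4 = x := by
    intro x hx0
    rw [← Real.rpow_natCast, ← Real.rpow_mul hx0.le]
    norm_num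
  have hk4 : k ^ 4 = q := pow4 q hq0
  have hA4 : A ^ 4 = y := pow4 y hy
  have hB4 : B ^ 4 = v := pow4 v hv0
  have hAB : A ≤ 2 * B := by
    refine le_of_pow_le_pow_left₀ (n := 4) (by norm_num) (by positivity) ?_
    rw [mul_pow, hA4, hB4]
    linarith
  have hA1 : A ≤ 2 := by
    refine le_of_pow_le_pow_left₀ (n := 4) (by norm_num) (by norm_num) ?_
    rw [hA4]
    linarith
  have hzn : ‖z‖ = A ^ 2 / (k ^ 2 * B ^ 2) := by
    have h1 : ‖z‖ ^ 2 = (A ^ 2 / (k ^ 2 * B ^ 2)) ^ 2 := by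
      have h2 : v * (q * ‖z‖ ^ 2) = y := by
        rw [hv]; field_simp
      rw [← hB4, ← hA4, ← hk4] at h2
      rw [div_pow, eq_div_iff (by positivity)]
      calc ‖z‖ ^ 2 * (k ^ 2 * B ^ 2) ^ 2 = B ^ 4 * (k ^ 4 * ‖z‖ ^ 2) := by ring
        _ = A ^ 4 := h2
        _ = (A ^ 2) ^ 2 := by ring
    exact (pow_left_inj₀ (norm_nonneg _) (by positivity) (by norm_num)).mp h1
  have hWlow : B ^ 2 / (k ^ 2 * A ^ 2) ≤ ‖W‖ := by
    rw [hWn, hzn, ← hk4, div_le_div_iff₀ (by positivity) (by positivity)]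
    have h1 : k ^ 4 * (A ^ 2 / (k ^ 2 * B ^ 2)) = k ^ 2 * A ^ 2 / B ^ 2 := by
      field_simp
    rw [h1]
    have h2 : B ^ 2 * (k ^ 2 * A ^ 2 / B ^ 2) = k ^ 2 * A ^ 2 := by field_simp
    rw [h2]
    have h3 : (1 : ℝ) ≤ 2 * Real.pi := by nlinarith [Real.pi_gt_three]
    nlinarith [mul_pos (pow_pos hk0 2) (pow_pos hA0 2)]
  have hWlow0 : 0 < B ^ 2 / (k ^ 2 * A ^ 2) := by positivity
  have hWinv : ‖W‖⁻¹ ≤ k ^ 2 * A ^ 2 / B ^ 2 := by
    have := inv_anti₀ hWlow0 hWlow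
    rwa [inv_div] at this
  have hW32 : ‖W‖ ^ (-3 / 2 : ℝ) ≤ k ^ 3 * A ^ 3 / B ^ 3 := by
    have h1 := Real.rpow_le_rpow_of_nonpos hWlow0 hWlow (by norm_num : (-3 / 2 : ℝ) ≤ 0)
    refine h1.trans (le_of_eq ?_)
    have h2 : B ^ 2 / (k ^ 2 * A ^ 2) = (B / (k * A)) ^ (2 : ℝ) := by
      rw [Real.rpow_two]; field_simp
    rw [h2, ← Real.rpow_mul (by positivity)]
    rw [show (2 : ℝ) * (-3 / 2) = -((3 : ℕ) : ℝ) by norm_num, Real.rpow_neg (by positivity),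
      Real.rpow_natCast, ← inv_pow, inv_div]
    field_simp
  have hWre34 : W.re ^ (-(3 / 4) : ℝ) ≤ 1 / B ^ 3 := by
    have h0 : v ≤ W.re := by
      rw [hWre]; nlinarith [Real.pi_gt_three]
    have h1 := Real.rpow_le_rpow_of_nonpos hv0 h0 (by norm_num : (-(3 / 4) : ℝ) ≤ 0)
    refine h1.trans (le_of_eq ?_)
    have h2 : B ^ 3 = v ^ (3 / 4 : ℝ) := by
      rw [hB, ← Real.rpow_natCast, ← Real.rpow_mul hv0.le]
      norm_num
    rw [Real.rpow_neg hv0.le, h2, one_div]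
  have hWre14 : W.re ^ (-1 / 4 : ℝ) ≤ 1 / B := by
    have h0 : v ≤ W.re := by
      rw [hWre]; nlinarith [Real.pi_gt_three]
    have h1 := Real.rpow_le_rpow_of_nonpos hv0 h0 (by norm_num : (-1 / 4 : ℝ) ≤ 0)
    refine h1.trans (le_of_eq ?_)
    rw [show (-1 / 4 : ℝ) = -(1 / 4 : ℝ) by norm_num, Real.rpow_neg hv0.le, hB]
    exact (one_div _).symm
  have hEb := (hE W hWre0).trans (mul_le_mul_of_nonneg_left hWre34 hC₂)
  have ht1 : v * (‖r₁‖ * ‖W‖⁻¹ * ‖E (-1 / 2) (cj a) W‖) ≤ 2 * (‖r₁‖ * C₂ * k ^ 2) * A := by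
    calc v * (‖r₁‖ * ‖W‖⁻¹ * ‖E (-1 / 2) (cj a) W‖)
        ≤ v * (‖r₁‖ * (k ^ 2 * A ^ 2 / B ^ 2) * (C₂ * (1 / B ^ 3))) := by
          gcongr
      _ = ‖r₁‖ * C₂ * k ^ 2 * (A * (A / B)) := by
          rw [← hB4]; field_simp
      _ ≤ ‖r₁‖ * C₂ * k ^ 2 * (A * 2) := by
          have : A / B ≤ 2 := by rw [div_le_iff₀ hB0]; exact hAB
          gcongr
      _ = _ := by ring
  have ht2 : v / (2 * Real.pi) * (C₁ * ‖W‖ ^ (-3 / 2 : ℝ) * W.re ^ (-1 / 4 : ℝ)) ≤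
      4 * (C₁ * k ^ 3) * A := by
    have h3 : v / (2 * Real.pi) ≤ v := by
      rw [div_le_iff₀ (by positivity)]
      nlinarith [Real.pi_gt_three]
    calc v / (2 * Real.pi) * (C₁ * ‖W‖ ^ (-3 / 2 : ℝ) * W.re ^ (-1 / 4 : ℝ))
        ≤ v * (C₁ * (k ^ 3 * A ^ 3 / B ^ 3) * (1 / B)) := by
          gcongr
      _ = C₁ * k ^ 3 * (A * (A * A)) := by
          rw [← hB4]; field_simp
      _ ≤ C₁ * k ^ 3 * (A * (2 * 2)) := by
          gcongr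
      _ = _ := by ring
  calc _ ≤ 2 * (‖r₁‖ * C₂ * k ^ 2) * A + 4 * (C₁ * k ^ 3) * A := add_le_add ht1 ht2
    _ = _ := by ring

theorem lemmaC_pos {a : ℕ → ℂ} {H : ℂ → ℂ} {Q : ℝ} {r : ℕ} {lam : Fin r → ℝ} {mu : Fin r → ℂ}
    {ε : ℂ} (h : Dat a H Q lam mu ε) :
    ∃ (κ : ℂ) (C : ℝ), ‖κ‖ = 1 ∧ 0 ≤ C ∧ ∀ z : ℂ, 0 < z.im → z.im ≤ 4 → 0 ≤ z.re →
      ‖z‖ ^ 2 ≤ 4 / cond Q lam →
      z.im * ‖G a z - κ / ((cond Q lam : ℂ) * z ^ 2) * G (cj a) (-1 / ((cond Q lam : ℂ) * z))‖ ≤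
        C * z.im ^ (1 / 4 : ℝ) := by
  obtain ⟨κ, C, hκ, hC, hb⟩ := lemmaC_neg h.conj
  refine ⟨(starRingEnd ℂ) κ, C, by rw [RCLike.norm_conj, hκ], hC, ?_⟩
  intro z hy hy1 hx hz
  have h1 := hb (-(starRingEnd ℂ) z) (by simpa using hy) (by simpa using hy1)
      (by simpa using hx) (by simpa using hz)
  have him : (-(starRingEnd ℂ) z).im = z.im := by simp
  rw [him] at h1
  have hG : ∀ (b : ℕ → ℂ) (u : ℂ), G (cj b) (-(starRingEnd ℂ) u) = (starRingEnd ℂ) (G b u) := by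
    intro b u
    unfold G
    rw [E_cj]
    congr 2
    rw [map_neg, map_mul, map_mul, map_mul, Complex.conj_ofReal, Complex.conj_I,
      Complex.conj_ofNat, map_neg, Complex.conj_conj]
    ring
  have hG2 : G (cj (cj a)) (-1 / ((cond Q lam : ℂ) * -(starRingEnd ℂ) z)) =
      (starRingEnd ℂ) (G (cj a) (-1 / ((cond Q lam : ℂ) * z))) := by
    rw [← hG]
    congr 1
    rw [map_div₀, map_neg, map_one, map_mul, Complex.conj_ofReal, mul_neg, div_neg]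
  rw [hG2, hG] at h1
  have e : (starRingEnd ℂ) (G a z) - κ / ((cond Q lam : ℂ) * (-(starRingEnd ℂ) z) ^ 2) *
        (starRingEnd ℂ) (G (cj a) (-1 / ((cond Q lam : ℂ) * z))) =
      (starRingEnd ℂ) (G a z - (starRingEnd ℂ) κ / ((cond Q lam : ℂ) * z ^ 2) *
        G (cj a) (-1 / ((cond Q lam : ℂ) * z))) := by
    rw [map_sub, map_mul, map_div₀, Complex.conj_conj, map_mul, map_pow, Complex.conj_ofReal]
    ring
  rw [e, RCLike.norm_conj] at h1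
  exact h1

end Pool.Agent.H80.Sel
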