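import Mathlib
import Pool.Agent.H80.Sel.LemC
import Pool.Agent.H80.Sel.TwoX

set_option autoImplicit false

/-!
# Module HALF (MP_8e9775_nt): the reflection at `1/2`

`half_core`: let `w = -1/(q z)`, so `-1/(q (2z)) = w/2`, `-1/(q (4z)) = w/4`. By `G_half` and the three
bounds `G a (1/2 + z)` is, up to an error `e` with `Im z ‖e‖ ≤ (1 + √2 ‖α‖ + ‖ω‖) δ`, equal to
`κ/(q z^2) (-Gc w + (√2 α/2) Gc (w/2) - (ω/4) Gc (w/4))`, `Gc = G (cj a)`.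

Case B (`‖ω‖ = 1`, `α = ω conj α`): this is
`-κ ω/(4 q z^2) (Gc (w/4) - 2√2 conj α Gc (w/2) + 4 conj ω Gc w) = κ ω/(4 q z^2) Gc (w/4 + 1/2)` by `G_half` for `cj a`
at `w/4`. Norms: `Im z/(4 q ‖z‖^2) = Im (w/4)` and
`‖Gc (w/4 + 1/2)‖ = ‖G a (-conj (w/4 + 1/2))‖ = ‖G a (1/2 + 1/(4 q conj z))‖` (period one).

Case C (`ω = 0`, `‖α‖^2 = 1/2`): it is
`κ α √2/(2 q z^2) (Gc (w/2) - 2 √2 conj α Gc w) = - κ α √2/(2 q z^2) Gc (w/2 + 1/2)` and `‖α √2/2‖ = 1/2`.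
-/

namespace Pool.Agent.H80.Sel

open Complex MeasureTheory Filter Topology Pool.Agent.H11.Selberg Pool.Agent.H14.Sel

theorem G_per (a : ℕ → ℂ) (z : ℂ) : G a (z + 1) = G a z := by
  unfold G E
  refine tsum_congr (fun n => ?_)
  congr 1
  have h1 : -((n : ℂ) * -(2 * (Real.pi : ℂ) * I * (z + 1))) =
      -((n : ℂ) * -(2 * (Real.pi : ℂ) * I * z)) + n * (2 * Real.pi * I) := by ring
  rw [h1, Complex.exp_add, Complex.exp_nat_mul_two_pi_mul_I, mul_one]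

theorem G_cj (a : ℕ → ℂ) (u : ℂ) : G (cj a) (-(starRingEnd ℂ) u) = (starRingEnd ℂ) (G a u) := by
  unfold G
  rw [E_cj]
  congr 2
  rw [map_neg, map_mul, map_mul, map_mul, Complex.conj_ofReal, Complex.conj_I,
    Complex.conj_ofNat, map_neg, Complex.conj_conj]
  ring

theorem half_final (a : ℕ → ℂ) (q : ℝ) (hq : 0 < q) (z : ℂ) (hz : 0 < z.im) (Kc : ℂ)
    (hK : ‖Kc‖ = 1 / (q * ‖z‖ ^ 2)) (D : ℝ)
    (h : z.im * ‖G a (z + 1 / 2) - Kc * G (cj a) (-1 / ((q : ℂ) * z) + 1 / 2)‖ ≤ D) :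
    |phi a (((1 / 2 : ℝ) : ℂ) + z) -
        phi a (((1 / 2 : ℝ) : ℂ) + 1 / ((q : ℂ) * (starRingEnd ℂ) z))| ≤ D := by
  have hz0 : z ≠ 0 := by
    intro h0; rw [h0] at hz; simp at hz
  have hn0 : 0 < ‖z‖ := norm_pos_iff.mpr hz0
  have hqc : (q : ℂ) ≠ 0 := by exact_mod_cast hq.ne'
  set zs : ℂ := 1 / ((q : ℂ) * (starRingEnd ℂ) z) with hzs
  have hzs1 : zs = ((1 / (q * ‖z‖ ^ 2) : ℝ) : ℂ) * z := by
    rw [hzs]
    have h1 : (z : ℂ) * (starRingEnd ℂ) z = ((‖z‖ ^ 2 : ℝ) : ℂ) := by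
      rw [Complex.mul_conj, Complex.normSq_eq_norm_sq]
    have hc0 : (starRingEnd ℂ) z ≠ 0 := by simpa using hz0
    have h2 : (((‖z‖ ^ 2 : ℝ) : ℂ)) ≠ 0 := by
      exact_mod_cast (pow_pos hn0 2).ne'
    rw [div_eq_iff (mul_ne_zero hqc hc0)]
    push_cast
    push_cast at h1 h2
    calc (1 : ℂ) = (((‖z‖ : ℂ) ^ 2) / ((‖z‖ : ℂ) ^ 2)) * ((q : ℂ) / q) := by
          rw [div_self h2, div_self hqc]; ring
      _ = ((z * (starRingEnd ℂ) z) / ((‖z‖ : ℂ) ^ 2)) * ((q : ℂ) / q) := by rw [h1]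
      _ = _ := by field_simp
  have hzsim : zs.im = z.im / (q * ‖z‖ ^ 2) := by
    rw [hzs1, Complex.im_ofReal_mul]; ring
  have hconj : -1 / ((q : ℂ) * z) = -(starRingEnd ℂ) zs := by
    rw [hzs, map_div₀, map_one, map_mul, Complex.conj_ofReal, Complex.conj_conj]
    ring
  have hG : ‖G (cj a) (-1 / ((q : ℂ) * z) + 1 / 2)‖ = ‖G a (((1 / 2 : ℝ) : ℂ) + zs)‖ := by
    have h1 : -1 / ((q : ℂ) * z) + 1 / 2 = -(starRingEnd ℂ) (zs - 1 / 2) := by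
      have h0 : (starRingEnd ℂ) (1 / 2 : ℂ) = 1 / 2 := by
        rw [map_div₀, map_one, Complex.conj_ofNat]
      rw [hconj, map_sub, h0]
      ring
    rw [h1, G_cj, RCLike.norm_conj]
    have h2 : ((1 / 2 : ℝ) : ℂ) + zs = (zs - 1 / 2) + 1 := by
      push_cast
      ring
    rw [h2, G_per]
  have h1 : phi a (((1 / 2 : ℝ) : ℂ) + z) = z.im * ‖G a (z + 1 / 2)‖ := by
    have e1 : (((1 / 2 : ℝ) : ℂ) + z).im = z.im := by
      rw [Complex.add_im, Complex.ofReal_im, zero_add]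
    have e2 : ((1 / 2 : ℝ) : ℂ) + z = z + 1 / 2 := by push_cast; ring
    change (((1 / 2 : ℝ) : ℂ) + z).im * ‖G a (((1 / 2 : ℝ) : ℂ) + z)‖ = _
    rw [e1, e2]
  have h2 : phi a (((1 / 2 : ℝ) : ℂ) + zs) =
      z.im * ‖Kc * G (cj a) (-1 / ((q : ℂ) * z) + 1 / 2)‖ := by
    have e1 : (((1 / 2 : ℝ) : ℂ) + zs).im = zs.im := by
      rw [Complex.add_im, Complex.ofReal_im, zero_add]
    change (((1 / 2 : ℝ) : ℂ) + zs).im * ‖G a (((1 / 2 : ℝ) : ℂ) + zs)‖ = _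
    rw [e1, hzsim, norm_mul, hK, hG]
    ring
  rw [h1, h2, ← mul_sub, abs_mul, abs_of_pos hz]
  exact (mul_le_mul_of_nonneg_left (abs_norm_sub_norm_le _ _) hz.le).trans h

theorem half_rpow (c y : ℝ) (hc : 1 ≤ c) (hc4 : c ≤ 4) (hy : 0 < y) :
    (c * y) ^ (1 / 4 : ℝ) ≤ 4 * y ^ (1 / 4 : ℝ) := by
  rw [Real.mul_rpow (by linarith) hy.le]
  have h1 : c ^ (1 / 4 : ℝ) ≤ c ^ (1 : ℝ) := Real.rpow_le_rpow_of_exponent_le hc (by norm_num)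
  rw [Real.rpow_one] at h1
  exact mul_le_mul_of_nonneg_right (h1.trans hc4) (by positivity)

/-- both signs of the real part -/
theorem half_signs {a : ℕ → ℂ} {H : ℂ → ℂ} {Q : ℝ} {r : ℕ} {lam : Fin r → ℝ} {mu : Fin r → ℂ}
    {ε : ℂ} (h : Dat a H Q lam mu ε) :
    ∃ C : ℝ, 0 ≤ C ∧ ∀ z : ℂ, 0 < z.im → z.im ≤ 1 → ∃ κ : ℂ, ‖κ‖ = 1 ∧
      ∀ c : ℝ, 1 ≤ c → c ≤ 4 → c ^ 2 * ‖z‖ ^ 2 ≤ 4 / cond Q lam →
        c * z.im * ‖G a (c * z) - κ / ((cond Q lam : ℂ) * (c * z) ^ 2) *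
          G (cj a) (-1 / ((cond Q lam : ℂ) * (c * z)))‖ ≤ C * z.im ^ (1 / 4 : ℝ) := by
  obtain ⟨κ₁, C₁, hκ₁, hC₁, h₁⟩ := lemmaC_neg h
  obtain ⟨κ₂, C₂, hκ₂, hC₂, h₂⟩ := lemmaC_pos h
  refine ⟨4 * max C₁ C₂, by positivity, ?_⟩
  intro z hz hz1
  have him : ∀ c : ℝ, ((c : ℂ) * z).im = c * z.im := fun c => by rw [Complex.im_ofReal_mul]
  have hre : ∀ c : ℝ, ((c : ℂ) * z).re = c * z.re := fun c => by rw [Complex.re_ofReal_mul]
  have hnn : ∀ c : ℝ, ‖(c : ℂ) * z‖ ^ 2 = c ^ 2 * ‖z‖ ^ 2 := fun c => by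
    rw [norm_mul, Complex.norm_real, mul_pow, Real.norm_eq_abs, sq_abs]
  rcases le_total z.re 0 with hx | hx
  · refine ⟨κ₁, hκ₁, fun c hc hc4 hcz => ?_⟩
    have hc0 : 0 < c := by linarith
    have e := h₁ ((c : ℂ) * z) (by rw [him]; positivity) (by rw [him]; nlinarith)
      (by rw [hre]; exact mul_nonpos_of_nonneg_of_nonpos hc0.le hx) (by rw [hnn]; exact hcz)
    rw [him] at e
    refine e.trans ?_
    calc C₁ * (c * z.im) ^ (1 / 4 : ℝ) ≤ max C₁ C₂ * (4 * z.im ^ (1 / 4 : ℝ)) :=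
          mul_le_mul (le_max_left _ _) (half_rpow c _ hc hc4 hz) (by positivity) (by positivity)
      _ = _ := by ring
  · refine ⟨κ₂, hκ₂, fun c hc hc4 hcz => ?_⟩
    have hc0 : 0 < c := by linarith
    have e := h₂ ((c : ℂ) * z) (by rw [him]; positivity) (by rw [him]; nlinarith)
      (by rw [hre]; exact mul_nonneg hc0.le hx) (by rw [hnn]; exact hcz)
    rw [him] at e
    refine e.trans ?_
    calc C₂ * (c * z.im) ^ (1 / 4 : ℝ) ≤ max C₁ C₂ * (4 * z.im ^ (1 / 4 : ℝ)) :=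
          mul_le_mul (le_max_right _ _) (half_rpow c _ hc hc4 hz) (by positivity) (by positivity)
      _ = _ := by ring

theorem half_B {a : ℕ → ℂ} {H : ℂ → ℂ} {Q : ℝ} {r : ℕ} {lam : Fin r → ℝ} {mu : Fin r → ℂ}
    {ε : ℂ} (h : Dat a H Q lam mu ε) (α ω : ℂ) (h2 : TwoStep a α ω) (hω : ‖ω‖ = 1)
    (hα : α = ω * (starRingEnd ℂ) α) :
    ∃ C : ℝ, 0 ≤ C ∧ ∀ z : ℂ, 0 < z.im → z.im ≤ 1 → ‖z‖ ^ 2 ≤ 1 / (4 * cond Q lam) →
      |phi a (((1 / 2 : ℝ) : ℂ) + z) -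
        phi a (((1 / 2 : ℝ) : ℂ) + 1 / (((4 * cond Q lam : ℝ) : ℂ) * (starRingEnd ℂ) z))| ≤
        C * z.im ^ (1 / 4 : ℝ) := by
  obtain ⟨C, hC, hb⟩ := half_signs h
  have hq : 0 < cond Q lam := LemL.cond_pos h
  obtain ⟨q, hqq⟩ : ∃ q : ℝ, q = cond Q lam := ⟨_, rfl⟩
  rw [← hqq] at hb hq ⊢
  refine ⟨C * (2 + Real.sqrt 2 * ‖α‖), by positivity, ?_⟩
  intro z hz hz1 hzn
  have hz0 : z ≠ 0 := by
    intro h0; rw [h0] at hz; simp at hz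
  have hn0 : 0 < ‖z‖ := norm_pos_iff.mpr hz0
  have hqc : (q : ℂ) ≠ 0 := by exact_mod_cast hq.ne'
  obtain ⟨κ, hκ, hκb⟩ := hb z hz hz1
  have hz16 : 16 * ‖z‖ ^ 2 ≤ 4 / q := by
    rw [le_div_iff₀ (by positivity)] at hzn ⊢
    linarith
  have b1 := hκb 1 le_rfl (by norm_num) (by nlinarith [sq_nonneg ‖z‖])
  have b2 := hκb 2 (by norm_num) (by norm_num) (by nlinarith [sq_nonneg ‖z‖])
  have b4 := hκb 4 (by norm_num) le_rfl (by nlinarith)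
  have g1 := G_half a h.ram α ω h2 z hz
  set w : ℂ := -1 / ((q : ℂ) * z) with hw
  have hwim : 0 < (w / 4).im := by
    have e1 : w / 4 = ((1 / (4 * q * ‖z‖ ^ 2) : ℝ) : ℂ) * -(starRingEnd ℂ) z := by
      rw [hw]
      have h1 : (z : ℂ) * (starRingEnd ℂ) z = ((‖z‖ ^ 2 : ℝ) : ℂ) := by
        rw [Complex.mul_conj, Complex.normSq_eq_norm_sq]
      have h3 : (((‖z‖ ^ 2 : ℝ) : ℂ)) ≠ 0 := by
        exact_mod_cast (pow_pos hn0 2).ne'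
      rw [div_div, div_eq_iff (by simp [hqc, hz0])]
      push_cast
      push_cast at h1 h3
      calc (-1 : ℂ) = -((((‖z‖ : ℂ) ^ 2) / ((‖z‖ : ℂ) ^ 2)) * ((q : ℂ) / q)) := by
            rw [div_self h3, div_self hqc]; ring
        _ = -(((z * (starRingEnd ℂ) z) / ((‖z‖ : ℂ) ^ 2)) * ((q : ℂ) / q)) := by rw [h1]
        _ = _ := by field_simp
    rw [e1, Complex.im_ofReal_mul, Complex.neg_im, Complex.conj_im, neg_neg]
    positivity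
  have g2 := G_half (cj a) h.conj.ram ((starRingEnd ℂ) α) ((starRingEnd ℂ) ω) h2.cj (w / 4) hwim
  have e2 : (2 : ℂ) * (w / 4) = w / 2 := by ring
  have e4 : (4 : ℂ) * (w / 4) = w := by ring
  rw [e2, e4] at g2
  have hωω : ω * (starRingEnd ℂ) ω = 1 := by
    rw [Complex.mul_conj, Complex.normSq_eq_norm_sq, hω]
    norm_num
  have w1 : -1 / ((q : ℂ) * ((1 : ℝ) * z)) = w := by
    rw [hw]; push_cast; rw [one_mul]
  have w2 : -1 / ((q : ℂ) * ((2 : ℝ) * z)) = w / 2 := by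
    rw [hw]; push_cast; field_simp
  have w4 : -1 / ((q : ℂ) * ((4 : ℝ) * z)) = w / 4 := by
    rw [hw]; push_cast; field_simp
  rw [w1] at b1
  rw [w2] at b2
  rw [w4] at b4
  push_cast at b1 b2 b4
  simp only [one_mul] at b1
  set E1 : ℂ := G a z - κ / ((q : ℂ) * z ^ 2) * G (cj a) w with hE1
  set E2 : ℂ := G a (2 * z) - κ / ((q : ℂ) * (2 * z) ^ 2) * G (cj a) (w / 2) with hE2
  set E4 : ℂ := G a (4 * z) - κ / ((q : ℂ) * (4 * z) ^ 2) * G (cj a) (w / 4) with hE4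
  refine half_final a (4 * q) (by positivity) z hz (κ * ω / (4 * q * z ^ 2)) ?_ _ ?_
  · rw [norm_div, norm_mul, norm_mul, norm_mul, norm_pow, hκ, hω]
    simp [abs_of_pos hq]
  · have hwq : -1 / (((4 * q : ℝ) : ℂ) * z) = w / 4 := by
      rw [hw]; push_cast; field_simp
    rw [hwq]
    have hid : G a (z + 1 / 2) - κ * ω / (4 * q * z ^ 2) * G (cj a) (w / 4 + 1 / 2) =
        -E1 + 2 * Real.sqrt 2 * α * E2 - 4 * ω * E4 := by
      rw [g1, g2, hE1, hE2, hE4]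
      have hα' : ω * (starRingEnd ℂ) α = α := hα.symm
      have t1 : κ * ω / (4 * q * z ^ 2) * (-G (cj a) (w / 4) +
          2 * Real.sqrt 2 * (starRingEnd ℂ) α * G (cj a) (w / 2) -
          4 * (starRingEnd ℂ) ω * G (cj a) w) =
          κ / (4 * q * z ^ 2) * (-ω * G (cj a) (w / 4) +
          2 * Real.sqrt 2 * (ω * (starRingEnd ℂ) α) * G (cj a) (w / 2) -
          4 * (ω * (starRingEnd ℂ) ω) * G (cj a) w) := by ring
      rw [t1, hα', hωω]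
      field_simp
      ring
    rw [hid]
    have hs2 : ‖(Real.sqrt 2 : ℂ)‖ = Real.sqrt 2 := by
      rw [Complex.norm_real, Real.norm_of_nonneg (Real.sqrt_nonneg _)]
    have n1 : ‖-E1 + 2 * Real.sqrt 2 * α * E2 - 4 * ω * E4‖ ≤
        ‖E1‖ + 2 * Real.sqrt 2 * ‖α‖ * ‖E2‖ + 4 * ‖E4‖ := by
      refine (norm_sub_le _ _).trans ?_
      refine add_le_add ((norm_add_le _ _).trans ?_) ?_
      · rw [norm_neg]
        refine add_le_add le_rfl (le_of_eq ?_)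
        rw [norm_mul, norm_mul, norm_mul, hs2, Complex.norm_ofNat]
      · rw [norm_mul, norm_mul, hω, Complex.norm_ofNat, mul_one]
    calc z.im * ‖-E1 + 2 * Real.sqrt 2 * α * E2 - 4 * ω * E4‖
        ≤ z.im * (‖E1‖ + 2 * Real.sqrt 2 * ‖α‖ * ‖E2‖ + 4 * ‖E4‖) :=
          mul_le_mul_of_nonneg_left n1 hz.le
      _ = z.im * ‖E1‖ + Real.sqrt 2 * ‖α‖ * (2 * z.im * ‖E2‖) + 4 * z.im * ‖E4‖ := by ring
      _ ≤ C * z.im ^ (1 / 4 : ℝ) + Real.sqrt 2 * ‖α‖ * (C * z.im ^ (1 / 4 : ℝ)) +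
          C * z.im ^ (1 / 4 : ℝ) := by
        have := mul_le_mul_of_nonneg_left b2 (by positivity : 0 ≤ Real.sqrt 2 * ‖α‖)
        linarith
      _ = _ := by ring

theorem half_C {a : ℕ → ℂ} {H : ℂ → ℂ} {Q : ℝ} {r : ℕ} {lam : Fin r → ℝ} {mu : Fin r → ℂ}
    {ε : ℂ} (h : Dat a H Q lam mu ε) (α : ℂ) (h2 : TwoStep a α 0) (hα : ‖α‖ ^ 2 = 1 / 2) :
    ∃ C : ℝ, 0 ≤ C ∧ ∀ z : ℂ, 0 < z.im → z.im ≤ 1 → ‖z‖ ^ 2 ≤ 1 / (2 * cond Q lam) →
      |phi a (((1 / 2 : ℝ) : ℂ) + z) -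
        phi a (((1 / 2 : ℝ) : ℂ) + 1 / (((2 * cond Q lam : ℝ) : ℂ) * (starRingEnd ℂ) z))| ≤
        C * z.im ^ (1 / 4 : ℝ) := by
  obtain ⟨C, hC, hb⟩ := half_signs h
  have hq : 0 < cond Q lam := LemL.cond_pos h
  obtain ⟨q, hqq⟩ : ∃ q : ℝ, q = cond Q lam := ⟨_, rfl⟩
  rw [← hqq] at hb hq ⊢
  refine ⟨C * (1 + Real.sqrt 2 * ‖α‖), by positivity, ?_⟩
  intro z hz hz1 hzn
  have hz0 : z ≠ 0 := by
    intro h0; rw [h0] at hz; simp at hz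
  have hn0 : 0 < ‖z‖ := norm_pos_iff.mpr hz0
  have hqc : (q : ℂ) ≠ 0 := by exact_mod_cast hq.ne'
  obtain ⟨κ, hκ, hκb⟩ := hb z hz hz1
  have hz16 : 4 * ‖z‖ ^ 2 ≤ 4 / q := by
    rw [le_div_iff₀ (by positivity)] at hzn ⊢
    nlinarith [sq_nonneg ‖z‖]
  have b1 := hκb 1 le_rfl (by norm_num) (by nlinarith [sq_nonneg ‖z‖])
  have b2 := hκb 2 (by norm_num) (by norm_num) (by nlinarith [sq_nonneg ‖z‖])
  have g1 := G_half a h.ram α 0 h2 z hz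
  set w : ℂ := -1 / ((q : ℂ) * z) with hw
  have hwim : 0 < (w / 2).im := by
    have e1 : w / 2 = ((1 / (2 * q * ‖z‖ ^ 2) : ℝ) : ℂ) * -(starRingEnd ℂ) z := by
      rw [hw]
      have h1 : (z : ℂ) * (starRingEnd ℂ) z = ((‖z‖ ^ 2 : ℝ) : ℂ) := by
        rw [Complex.mul_conj, Complex.normSq_eq_norm_sq]
      have h3 : (((‖z‖ ^ 2 : ℝ) : ℂ)) ≠ 0 := by
        exact_mod_cast (pow_pos hn0 2).ne'
      rw [div_div, div_eq_iff (by simp [hqc, hz0])]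
      push_cast
      push_cast at h1 h3
      calc (-1 : ℂ) = -((((‖z‖ : ℂ) ^ 2) / ((‖z‖ : ℂ) ^ 2)) * ((q : ℂ) / q)) := by
            rw [div_self h3, div_self hqc]; ring
        _ = -(((z * (starRingEnd ℂ) z) / ((‖z‖ : ℂ) ^ 2)) * ((q : ℂ) / q)) := by rw [h1]
        _ = _ := by field_simp
    rw [e1, Complex.im_ofReal_mul, Complex.neg_im, Complex.conj_im, neg_neg]
    positivity
  have g2 := G_half (cj a) h.conj.ram ((starRingEnd ℂ) α) ((starRingEnd ℂ) 0) h2.cj (w / 2) hwim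
  have e2 : (2 : ℂ) * (w / 2) = w := by ring
  rw [e2, map_zero] at g2
  have hαα : α * (starRingEnd ℂ) α = 1 / 2 := by
    rw [Complex.mul_conj, Complex.normSq_eq_norm_sq, hα]
    push_cast
    ring
  have w1 : -1 / ((q : ℂ) * ((1 : ℝ) * z)) = w := by
    rw [hw]; push_cast; rw [one_mul]
  have w2 : -1 / ((q : ℂ) * ((2 : ℝ) * z)) = w / 2 := by
    rw [hw]; push_cast; field_simp
  rw [w1] at b1
  rw [w2] at b2
  push_cast at b1 b2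
  simp only [one_mul] at b1
  have hs22 : (Real.sqrt 2 : ℂ) * (Real.sqrt 2 : ℂ) = 2 := by
    have := Real.mul_self_sqrt (show (0 : ℝ) ≤ 2 by norm_num)
    exact_mod_cast this
  set E1 : ℂ := G a z - κ / ((q : ℂ) * z ^ 2) * G (cj a) w with hE1
  set E2 : ℂ := G a (2 * z) - κ / ((q : ℂ) * (2 * z) ^ 2) * G (cj a) (w / 2) with hE2
  have hs2 : ‖(Real.sqrt 2 : ℂ)‖ = Real.sqrt 2 := by
    rw [Complex.norm_real, Real.norm_of_nonneg (Real.sqrt_nonneg _)]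
  have hαs : ‖α‖ * Real.sqrt 2 = 1 := by
    have h3 : (‖α‖ * Real.sqrt 2) ^ 2 = 1 ^ 2 := by
      rw [mul_pow, hα, Real.sq_sqrt (by norm_num)]
      norm_num
    exact (pow_left_inj₀ (by positivity) (by norm_num) (by norm_num)).mp h3
  refine half_final a (2 * q) (by positivity) z hz (-(κ * (α * Real.sqrt 2) / (2 * q * z ^ 2)))
    ?_ _ ?_
  · rw [norm_neg, norm_div, norm_mul, norm_mul α, hs2, hαs, norm_mul, norm_mul, norm_pow, hκ]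
    simp [abs_of_pos hq]
  · have hwq : -1 / (((2 * q : ℝ) : ℂ) * z) = w / 2 := by
      rw [hw]; push_cast; field_simp
    rw [hwq]
    have hid : G a (z + 1 / 2) - -(κ * (α * Real.sqrt 2) / (2 * q * z ^ 2)) *
        G (cj a) (w / 2 + 1 / 2) = -E1 + 2 * Real.sqrt 2 * α * E2 := by
      rw [g1, g2, hE1, hE2]
      have t1 : -(κ * (α * Real.sqrt 2) / (2 * q * z ^ 2)) * (-G (cj a) (w / 2) +
          2 * Real.sqrt 2 * (starRingEnd ℂ) α * G (cj a) w -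
          4 * 0 * G (cj a) (4 * (w / 2))) =
          κ / (2 * q * z ^ 2) * (α * Real.sqrt 2 * G (cj a) (w / 2) -
          2 * (Real.sqrt 2 * Real.sqrt 2) * (α * (starRingEnd ℂ) α) * G (cj a) w) := by ring
      rw [t1, hs22, hαα]
      field_simp
      ring
    rw [hid]
    have n1 : ‖-E1 + 2 * Real.sqrt 2 * α * E2‖ ≤ ‖E1‖ + 2 * Real.sqrt 2 * ‖α‖ * ‖E2‖ := by
      refine (norm_add_le _ _).trans ?_
      rw [norm_neg]
      refine add_le_add le_rfl (le_of_eq ?_)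
      rw [norm_mul, norm_mul, norm_mul, hs2, Complex.norm_ofNat]
    calc z.im * ‖-E1 + 2 * Real.sqrt 2 * α * E2‖
        ≤ z.im * (‖E1‖ + 2 * Real.sqrt 2 * ‖α‖ * ‖E2‖) :=
          mul_le_mul_of_nonneg_left n1 hz.le
      _ = z.im * ‖E1‖ + Real.sqrt 2 * ‖α‖ * (2 * z.im * ‖E2‖) := by ring
      _ ≤ C * z.im ^ (1 / 4 : ℝ) + Real.sqrt 2 * ‖α‖ * (C * z.im ^ (1 / 4 : ℝ)) := by
        have := mul_le_mul_of_nonneg_left b2 (by positivity : 0 ≤ Real.sqrt 2 * ‖α‖)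
        linarith
      _ = _ := by ring

end Pool.Agent.H80.Sel
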