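import Mathlib
import Pool.Agent.H80.Sel.Half
import Pool.Agent.H14.Sel.Top
import Pool.Agent.H14.Sel.Pars

set_option autoImplicit false

/-!
# Module RESC (MP_8e9775_nt): the rescaled function `ψ z = phi a (z/m)`

`a n = 0` unless `n % m = 1 % m`. `G a (z + 1/m) = e(1/m) G a z`. `MAut` for `ψ` with the centre `0` and the
modulus `q/m^2`, and for odd `m` with the centres `0, 1/2` and moduli `q/m^2, q₁/m^2` if `phi a` has the
reflection of modulus `q₁` at `1/2`. For `refl` at `1/2`: `(1/2 + z)/m`; by periodicity `ψ (1/2 + z) = ψ (m/2 + z)`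
(`m/2 - 1/2` is an integer) and `(m/2 + z)/m = 1/2 + z/m`.
-/

namespace Pool.Agent.H80.Sel

open Complex MeasureTheory Filter Topology Pool.Agent.H11.Selberg Pool.Agent.H14.Sel

/-- `ψ z = phi a (z/m)`. -/
noncomputable def psi (a : ℕ → ℂ) (m : ℕ) (z : ℂ) : ℝ := phi a (z / m)

theorem resc_mod (m n : ℕ) (h : n % m = 1 % m) : ∃ k : ℤ, (n : ℂ) = 1 + m * k := by
  have h1 : n ≡ 1 [MOD m] := h
  obtain ⟨k, hk⟩ := (Nat.modEq_iff_dvd.1 h1.symm)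
  refine ⟨k, ?_⟩
  have h2 : (n : ℤ) = 1 + m * k := by
    push_cast at hk
    linarith
  exact_mod_cast congrArg (Int.cast : ℤ → ℂ) h2

/-- the translation by `1/m` -/
theorem resc_per (a : ℕ → ℂ) (m : ℕ) (hm : 1 ≤ m) (hsp : ∀ n : ℕ, n % m ≠ 1 % m → a n = 0)
    (z : ℂ) : phi a (z + 1 / m) = phi a z := by
  have hm0 : (m : ℂ) ≠ 0 := by exact_mod_cast (by omega : m ≠ 0)
  have him : (z + 1 / (m : ℂ)).im = z.im := by
    have h1 : (1 / (m : ℂ)) = ((1 / (m : ℝ) : ℝ) : ℂ) := by push_cast; rfl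
    rw [h1, Complex.add_im, Complex.ofReal_im, add_zero]
  have hE : E (1 / 2) a (-(2 * (Real.pi : ℂ) * I * (z + 1 / m))) =
      Complex.exp (2 * Real.pi * I / m) * E (1 / 2) a (-(2 * (Real.pi : ℂ) * I * z)) := by
    unfold E
    rw [← tsum_mul_left]
    refine tsum_congr (fun n => ?_)
    by_cases hn : n % m = 1 % m
    · obtain ⟨k, hk⟩ := resc_mod m n hn
      have h1 : -((n : ℂ) * -(2 * (Real.pi : ℂ) * I * (z + 1 / m))) =
          2 * Real.pi * I / m + (-((n : ℂ) * -(2 * (Real.pi : ℂ) * I * z))) +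
            k * (2 * Real.pi * I) := by
        have h2 : (n : ℂ) / m = 1 / m + k := by
          rw [hk]
          field_simp
        calc -((n : ℂ) * -(2 * (Real.pi : ℂ) * I * (z + 1 / m)))
            = -((n : ℂ) * -(2 * (Real.pi : ℂ) * I * z)) + (2 * Real.pi * I) * ((n : ℂ) / m) := by
              ring
          _ = _ := by rw [h2]; ring
      rw [h1, Complex.exp_add, Complex.exp_int_mul_two_pi_mul_I, mul_one, Complex.exp_add]
      ring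
    · rw [hsp n hn]
      ring
  have hnorm : ‖Complex.exp (2 * Real.pi * I / m)‖ = 1 := by
    have h1 : (2 * (Real.pi : ℂ) * I / m) = ((2 * Real.pi / m : ℝ) : ℂ) * I := by
      push_cast; ring
    rw [h1, Complex.norm_exp_ofReal_mul_I]
  unfold phi
  rw [him, hE, norm_mul, hnorm, one_mul]

theorem resc_im (m : ℕ) (z : ℂ) : (z / (m : ℂ)).im = z.im / m := by
  have h1 : z / (m : ℂ) = (((m : ℝ)⁻¹ : ℝ) : ℂ) * z := by push_cast; ring
  rw [h1, Complex.im_ofReal_mul]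
  ring

theorem psi_per (a : ℕ → ℂ) (m : ℕ) (hm : 1 ≤ m) (hsp : ∀ n : ℕ, n % m ≠ 1 % m → a n = 0)
    (z : ℂ) : psi a m (z + 1) = psi a m z := by
  unfold psi
  rw [add_div]
  exact resc_per a m hm hsp _

theorem psi_per_nat (a : ℕ → ℂ) (m : ℕ) (hm : 1 ≤ m) (hsp : ∀ n : ℕ, n % m ≠ 1 % m → a n = 0)
    (z : ℂ) (j : ℕ) : psi a m (z + j) = psi a m z := by
  induction j with
  | zero => simp
  | succ j ih =>
    rw [Nat.cast_add, Nat.cast_one, ← add_assoc, psi_per a m hm hsp, ih]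

/-- rescaling one reflection -/
theorem resc_refl (f : ℂ → ℝ) (q : ℝ) (hq : 0 < q) (m : ℕ) (hm : 1 ≤ m) (C : ℝ) (hC : 0 ≤ C)
    (h : ∀ z : ℂ, 0 < z.im → z.im ≤ 1 → ‖z‖ ^ 2 ≤ 1 / q →
      |f z - f (1 / ((q : ℂ) * (starRingEnd ℂ) z))| ≤ C * z.im ^ (1 / 4 : ℝ))
    (z : ℂ) (hz : 0 < z.im) (hz1 : z.im ≤ 1) (hzn : ‖z‖ ^ 2 ≤ 1 / (q / (m : ℝ) ^ 2)) :
    |f (z / m) - f (1 / (((q / (m : ℝ) ^ 2 : ℝ) : ℂ) * (starRingEnd ℂ) z) / m)| ≤
      C * z.im ^ (1 / 4 : ℝ) := by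
  have hm1 : (1 : ℝ) ≤ m := by exact_mod_cast hm
  have hm0 : (0 : ℝ) < m := by linarith
  have hmc : (m : ℂ) ≠ 0 := by exact_mod_cast hm0.ne'
  have hqc : (q : ℂ) ≠ 0 := by exact_mod_cast hq.ne'
  have him := resc_im m z
  have hle : z.im / m ≤ z.im := div_le_self hz.le hm1
  have h1 := h (z / m) (by rw [him]; positivity) (by rw [him]; linarith) (by
    rw [norm_div, Complex.norm_natCast, div_pow]
    rw [one_div_div] at hzn
    rw [div_le_div_iff₀ (by positivity) hq]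
    rw [le_div_iff₀ hq] at hzn
    linarith)
  have hz0 : z ≠ 0 := by
    intro h0; rw [h0] at hz; simp at hz
  have hzc : (starRingEnd ℂ) z ≠ 0 := by simpa using hz0
  have e : 1 / (((q / (m : ℝ) ^ 2 : ℝ) : ℂ) * (starRingEnd ℂ) z) / m =
      1 / ((q : ℂ) * (starRingEnd ℂ) (z / m)) := by
    rw [map_div₀, Complex.conj_natCast]
    push_cast
    field_simp
  rw [e]
  refine h1.trans ?_
  rw [him]
  exact mul_le_mul_of_nonneg_left (Real.rpow_le_rpow (by positivity) hle (by norm_num)) hC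

theorem psi_cont (a : ℕ → ℂ) (ram : ∀ δ : ℝ, 0 < δ → ∃ C : ℝ, ∀ n : ℕ, 1 ≤ n → ‖a n‖ ≤ C * (n : ℝ) ^ δ)
    (m : ℕ) (hm : 1 ≤ m) (y : ℝ) (hy : 0 < y) : Continuous (fun x : ℝ => psi a m (x + y * I)) := by
  have hm0 : (0 : ℝ) < m := by exact_mod_cast hm
  have h1 := phi_cont a ram (y / m) (by positivity)
  have h2 : (fun x : ℝ => psi a m (x + y * I)) =
      (fun x : ℝ => phi a (x + ((y / m : ℝ) : ℂ) * I)) ∘ (fun x : ℝ => x / m) := by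
    funext x
    unfold psi
    simp only [Function.comp]
    congr 1
    push_cast
    ring
  rw [h2]
  exact h1.comp (continuous_id.div_const _)

/-- everything but the reflections -/
theorem maut_of {a : ℕ → ℂ} {H : ℂ → ℂ} {Q : ℝ} {r : ℕ} {lam : Fin r → ℝ} {mu : Fin r → ℂ}
    {ε : ℂ} (h : Dat a H Q lam mu ε) (m : ℕ) (hm : 1 ≤ m) (hsp : ∀ n : ℕ, n % m ≠ 1 % m → a n = 0)
    {N : ℕ} (s k : Fin N → ℝ)
    (hr : ∃ C : ℝ, 0 ≤ C ∧ ∀ (i : Fin N) (z : ℂ), 0 < z.im → z.im ≤ 1 → ‖z‖ ^ 2 ≤ 1 / k i →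
      |psi a m (s i + z) - psi a m (s i + 1 / ((k i : ℂ) * (starRingEnd ℂ) z))| ≤
        C * z.im ^ (1 / 4 : ℝ)) : MAut s k (psi a m) where
  per := psi_per a m hm hsp
  nonneg := by
    intro z hz
    have hm0 : (0 : ℝ) < m := by exact_mod_cast hm
    refine mul_nonneg ?_ (norm_nonneg _)
    rw [resc_im]
    positivity
  cont := fun y hy => psi_cont a h.ram m hm y hy
  refl := hr
  high := by
    intro t ht
    have hm0 : (0 : ℝ) < m := by exact_mod_cast hm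
    obtain ⟨M, hM⟩ := phi_high a h.ram (t / m) (by positivity)
    refine ⟨M, fun z hz => hM _ ?_⟩
    rw [resc_im]
    exact div_le_div_of_nonneg_right hz hm0.le
  top := by
    have hm1 : (1 : ℝ) ≤ m := by exact_mod_cast hm
    have hm0 : (0 : ℝ) < m := by linarith
    obtain ⟨V, c, hV, hc, hb⟩ := phi_top a h.one h.ram
    refine ⟨m * V, c, by nlinarith, hc, fun z h1 h2 => hb _ ?_ ?_⟩
    · rw [resc_im, le_div_iff₀ hm0]
      linarith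
    · rw [resc_im, div_le_iff₀ hm0]
      linarith

theorem refl_zero {a : ℕ → ℂ} {H : ℂ → ℂ} {Q : ℝ} {r : ℕ} {lam : Fin r → ℝ} {mu : Fin r → ℂ}
    {ε : ℂ} (h : Dat a H Q lam mu ε) (m : ℕ) (hm : 1 ≤ m) :
    ∃ C : ℝ, 0 ≤ C ∧ ∀ z : ℂ, 0 < z.im → z.im ≤ 1 → ‖z‖ ^ 2 ≤ 1 / (cond Q lam / (m : ℝ) ^ 2) →
      |psi a m (((0 : ℝ) : ℂ) + z) - psi a m (((0 : ℝ) : ℂ) +
        1 / (((cond Q lam / (m : ℝ) ^ 2 : ℝ) : ℂ) * (starRingEnd ℂ) z))| ≤
        C * z.im ^ (1 / 4 : ℝ) := by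
  obtain ⟨C, hC⟩ := lemmaL h
  refine ⟨max C 0, le_max_right _ _, fun z hz hz1 hzn => ?_⟩
  rw [Complex.ofReal_zero, zero_add, zero_add]
  exact resc_refl (phi a) (cond Q lam) (LemL.cond_pos h) m hm (max C 0) (le_max_right _ _)
    (fun u hu hu1 hun => (hC u hu hu1 hun).trans
      (mul_le_mul_of_nonneg_right (le_max_left _ _) (by positivity))) z hz hz1 hzn

theorem maut_one {a : ℕ → ℂ} {H : ℂ → ℂ} {Q : ℝ} {r : ℕ} {lam : Fin r → ℝ} {mu : Fin r → ℂ}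
    {ε : ℂ} (h : Dat a H Q lam mu ε) (m : ℕ) (hm : 1 ≤ m) (hsp : ∀ n : ℕ, n % m ≠ 1 % m → a n = 0) :
    MAut (fun _ : Fin 1 => (0 : ℝ)) (fun _ => cond Q lam / (m : ℝ) ^ 2) (psi a m) := by
  obtain ⟨C, hC0, hC⟩ := refl_zero h m hm
  exact maut_of h m hm hsp _ _ ⟨C, hC0, fun _ z h1 h2 h3 => hC z h1 h2 h3⟩

theorem maut_two {a : ℕ → ℂ} {H : ℂ → ℂ} {Q : ℝ} {r : ℕ} {lam : Fin r → ℝ} {mu : Fin r → ℂ}
    {ε : ℂ} (h : Dat a H Q lam mu ε) (m : ℕ) (hm : 1 ≤ m) (hsp : ∀ n : ℕ, n % m ≠ 1 % m → a n = 0)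
    (hodd : Odd m) (q₁ : ℝ) (hq₁ : 0 < q₁)
    (hr : ∃ C : ℝ, 0 ≤ C ∧ ∀ z : ℂ, 0 < z.im → z.im ≤ 1 → ‖z‖ ^ 2 ≤ 1 / q₁ →
      |phi a (((1 / 2 : ℝ) : ℂ) + z) -
        phi a (((1 / 2 : ℝ) : ℂ) + 1 / ((q₁ : ℂ) * (starRingEnd ℂ) z))| ≤
        C * z.im ^ (1 / 4 : ℝ)) :
    MAut ![0, 1 / 2] ![cond Q lam / (m : ℝ) ^ 2, q₁ / (m : ℝ) ^ 2] (psi a m) := by
  obtain ⟨C, hC0, hC⟩ := refl_zero h m hm
  obtain ⟨C', hC'0, hC'⟩ := hr
  obtain ⟨j, hj⟩ := hodd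
  have hm0 : (0 : ℝ) < m := by exact_mod_cast hm
  have hmc : (m : ℂ) ≠ 0 := by exact_mod_cast hm0.ne'
  have hhalf : ∀ z : ℂ, psi a m (((1 / 2 : ℝ) : ℂ) + z) = phi a (((1 / 2 : ℝ) : ℂ) + z / m) := by
    intro z
    rw [← psi_per_nat a m hm hsp _ j]
    unfold psi
    congr 1
    have h1 : (m : ℂ) = 2 * j + 1 := by
      rw [hj]
      push_cast
      ring
    rw [div_eq_iff hmc, add_mul, div_mul_cancel₀ _ hmc]
    rw [h1]
    push_cast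
    ring
  refine maut_of h m hm hsp _ _ ⟨max C C', le_max_of_le_left hC0, fun i z h1 h2 h3 => ?_⟩
  have hzz : 0 ≤ z.im ^ (1 / 4 : ℝ) := by positivity
  fin_cases i
  · exact (hC z h1 h2 h3).trans (mul_le_mul_of_nonneg_right (le_max_left _ _) hzz)
  · change |psi a m (((1 / 2 : ℝ) : ℂ) + z) - psi a m (((1 / 2 : ℝ) : ℂ) +
        1 / (((q₁ / (m : ℝ) ^ 2 : ℝ) : ℂ) * (starRingEnd ℂ) z))| ≤ _
    rw [hhalf, hhalf]
    exact (resc_refl (fun u => phi a (((1 / 2 : ℝ) : ℂ) + u)) q₁ hq₁ m hm C' hC'0 hC' z h1 h2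
      h3).trans (mul_le_mul_of_nonneg_right (le_max_right _ _) hzz)

/-- the mean square of `ψ` -/
theorem psi_mean (a : ℕ → ℂ) (ram : ∀ δ : ℝ, 0 < δ → ∃ C : ℝ, ∀ n : ℕ, 1 ≤ n → ‖a n‖ ≤ C * (n : ℝ) ^ δ)
    (m : ℕ) (hm : 1 ≤ m) (hsp : ∀ n : ℕ, n % m ≠ 1 % m → a n = 0) (y : ℝ) (hy : 0 < y) :
    ∫ x in (0:ℝ)..1, (psi a m (x + y * I)) ^ 2 =
      ∫ x in (0:ℝ)..1, (phi a (x + ((y / m : ℝ) : ℂ) * I)) ^ 2 := by
  have hm0 : (0 : ℝ) < m := by exact_mod_cast hm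
  set f : ℝ → ℝ := fun x => (phi a (x + ((y / m : ℝ) : ℂ) * I)) ^ 2 with hf
  have hcont : Continuous f := (phi_cont a ram (y / m) (by positivity)).pow 2
  have hper : Function.Periodic f (1 / (m : ℝ)) := by
    intro x
    simp only [hf]
    have h1 := resc_per a m hm hsp ((x : ℂ) + ((y / m : ℝ) : ℂ) * I)
    have h2 : (((x + 1 / (m : ℝ) : ℝ) : ℂ) + ((y / m : ℝ) : ℂ) * I) =
        ((x : ℂ) + ((y / m : ℝ) : ℂ) * I) + 1 / m := by
      push_cast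
      ring
    rw [h2, h1]
  have h1 : (fun x : ℝ => (psi a m (x + y * I)) ^ 2) = fun x : ℝ => f (x / m) := by
    funext x
    simp only [hf, psi]
    congr 2
    push_cast
    ring
  have h2 : ∫ x in (0:ℝ)..1, (psi a m (x + y * I)) ^ 2 = ∫ x in (0:ℝ)..1, f (x / m) := by
    rw [h1]
  rw [h2, intervalIntegral.integral_comp_div f hm0.ne', zero_div, smul_eq_mul]
  have h3 := hper.intervalIntegral_add_zsmul_eq (m : ℤ) 0
    (fun t₁ t₂ => hcont.intervalIntegrable t₁ t₂)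
  rw [zero_add, zero_add, zsmul_eq_mul, zsmul_eq_mul, Int.cast_natCast,
    mul_one_div_cancel hm0.ne'] at h3
  exact h3.symm

end Pool.Agent.H80.Sel
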