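import Mathlib
import Pool.Agent.H80.Sel.Basic

set_option autoImplicit false

/-!
# Module SUPX (MP_8e9775_nt): `φ` is bounded (adaptation of `Pool/Agent/H14/Sel/Sup.lean`)

Let `δ` be from `hg.cov`, `κ < 1` from `hg.unif`, `ρ = 1/κ`, `y₀ = min 1 δ`, `M` a bound for `φ` on
`Im z ≥ y₀`. Everything as in `Sup.lean`: for `Im z < y₀` choose `i, j` with
`|Re z + j - s i| ≤ r i - δ` and put `w = z + j - s i`, so
`‖w‖^2 ≤ (r i - δ)^2 + δ^2 ≤ r i^2` (because `0 ≤ r i - δ`), hence `k i ‖w‖^2 ≤ κ < 1`;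
`φ z = φ (s i + w)` is within `C (Im z)^(1/4)` of `φ z'`, `z' = s i + 1/(k i conj w)`,
`Im z' = Im z/(k i ‖w‖^2) ≥ ρ Im z`.
-/

namespace Pool.Agent.H80.Sel

open Complex MeasureTheory Filter Topology Pool.Agent.H11.Selberg Pool.Agent.H14.Sel

theorem MAut.bounded {N : ℕ} {s k r : Fin N → ℝ} {φ : ℂ → ℝ} (h : MAut s k φ) (hg : Geo s k r) :
    ∃ B : ℝ, ∀ z : ℂ, 0 < z.im → φ z ≤ B := by
  obtain ⟨C', hC'0, hC⟩ := h.refl
  obtain ⟨δ, hδ, hcov⟩ := hg.cov
  obtain ⟨k₀, K₁, t, hU⟩ := hg.unif
  have ht0 := hU.kap0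
  have ht1 := hU.kap
  set ρ : ℝ := 1 / t with hρ
  have htρ : t * ρ = 1 := by
    rw [hρ]
    field_simp
  have hρ1 : 1 < ρ := by
    rw [hρ, lt_div_iff₀ ht0]
    linarith
  have hρ0 : 0 < ρ := by linarith
  set y₀ : ℝ := min 1 δ with hy₀
  have hy0 : 0 < y₀ := lt_min one_pos hδ
  have hy1 : y₀ ≤ 1 := min_le_left _ _
  have hyd : y₀ ≤ δ := min_le_right _ _
  obtain ⟨M, hM⟩ := h.high y₀ hy0
  set κ : ℝ := ρ ^ (1 / 4 : ℝ) with hκ
  have hκ1 : 1 < κ := Real.one_lt_rpow hρ1 (by norm_num)
  set M' : ℝ := max M 0 with hM'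
  set A : ℝ := C' / (κ - 1) with hA
  have hA0 : 0 ≤ A := div_nonneg hC'0 (by linarith)
  have hAC : A * (κ - 1) = C' := by
    rw [hA]
    exact div_mul_cancel₀ _ (by linarith)
  have key : ∀ n : ℕ, ∀ z : ℂ, 0 < z.im → z.im < y₀ → y₀ ≤ z.im * ρ ^ n →
      φ z ≤ M' + A * (κ - z.im ^ (1 / 4 : ℝ)) := by
    intro n
    induction n with
    | zero =>
      intro z _ h2 h3
      simp at h3
      linarith
    | succ n ih =>
      intro z h1 h2 h3
      obtain ⟨i, j, hij⟩ := hcov z.re
      have hki := hg.kpos i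
      have hkr := hU.kr_le i
      set w : ℂ := z + (j : ℂ) - (s i : ℂ) with hw
      have hwim : w.im = z.im := by simp [hw]
      have hwre : |w.re| ≤ r i - δ := by
        simpa [hw] using hij
      have hrδ : 0 ≤ r i - δ := (abs_nonneg _).trans hwre
      have hφw : φ ((s i : ℂ) + w) = φ z := by
        rw [hw, add_sub_cancel]
        exact h.per_int z j
      have hns : Complex.normSq w = w.re * w.re + w.im * w.im := Complex.normSq_apply w
      have hns1 : Complex.normSq w ≤ r i ^ 2 := by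
        rw [hns]
        have e1 : w.re * w.re ≤ (r i - δ) ^ 2 := by
          rw [← abs_mul_abs_self, pow_two]
          exact mul_self_le_mul_self (abs_nonneg _) hwre
        have e2 : w.im * w.im ≤ δ ^ 2 := by
          rw [hwim]
          nlinarith
        nlinarith
      have hns0 : 0 < Complex.normSq w := by
        rw [hns, hwim]
        nlinarith [mul_self_nonneg w.re]
      have hnk : k i * Complex.normSq w ≤ t :=
        (mul_le_mul_of_nonneg_left hns1 hki.le).trans hkr
      have hnsρ : Complex.normSq w * (k i * ρ) ≤ 1 := by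
        calc Complex.normSq w * (k i * ρ) = (k i * Complex.normSq w) * ρ := by ring
          _ ≤ t * ρ := mul_le_mul_of_nonneg_right hnk hρ0.le
          _ = 1 := htρ
      have hnorm : ‖w‖ ^ 2 ≤ 1 / k i := by
        rw [← Complex.normSq_eq_norm_sq, le_div_iff₀ hki]
        linarith
      have hr := hC i w (by rw [hwim]; exact h1) (by rw [hwim]; linarith) hnorm
      rw [hwim, hφw] at hr
      set z' : ℂ := (s i : ℂ) + 1 / ((k i : ℂ) * (starRingEnd ℂ) w) with hz'
      have hz'im : z'.im = z.im / (k i * Complex.normSq w) := by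
        rw [hz', add_im, ofReal_im, zero_add, one_div, Complex.inv_im]
        have e1 : ((k i : ℂ) * (starRingEnd ℂ) w).im = -(k i * w.im) := by simp
        have e2 : Complex.normSq ((k i : ℂ) * (starRingEnd ℂ) w) =
            k i ^ 2 * Complex.normSq w := by
          rw [map_mul, Complex.normSq_ofReal, Complex.normSq_conj]
          ring
        rw [e1, e2, hwim]
        field_simp
      have hz'ge : ρ * z.im ≤ z'.im := by
        rw [hz'im, le_div_iff₀ (by positivity)]
        nlinarith [mul_pos hns0 hki]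
      have hz'pos : 0 < z'.im := lt_of_lt_of_le (mul_pos hρ0 h1) hz'ge
      set u : ℝ := z.im ^ (1 / 4 : ℝ) with hu
      have hu0 : 0 ≤ u := Real.rpow_nonneg h1.le _
      have hu1 : u ≤ 1 := Real.rpow_le_one h1.le (by linarith) (by norm_num)
      have hφ : φ z ≤ φ z' + C' * u := by
        have := (abs_le.mp hr).2
        linarith
      by_cases hcase : y₀ ≤ z'.im
      · have e1 := hM z' hcase
        have e2 : M ≤ M' := le_max_left _ _
        have e3 : C' * u ≤ A * (κ - u) := by
          rw [← hAC]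
          have e4 : 0 ≤ A * κ * (1 - u) :=
            mul_nonneg (mul_nonneg hA0 (by linarith)) (sub_nonneg.mpr hu1)
          nlinarith [e4]
        linarith
      · push Not at hcase
        have e0 : y₀ ≤ z'.im * ρ ^ n := by
          have : z.im * ρ ^ (n + 1) = (ρ * z.im) * ρ ^ n := by ring
          rw [this] at h3
          exact h3.trans (mul_le_mul_of_nonneg_right hz'ge (by positivity))
        have e1 := ih z' hz'pos hcase e0
        have e2 : κ * u ≤ z'.im ^ (1 / 4 : ℝ) := by
          rw [hκ, hu, ← Real.mul_rpow hρ0.le h1.le]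
          exact Real.rpow_le_rpow (by positivity) hz'ge (by norm_num)
        have e3 : A * (κ - z'.im ^ (1 / 4 : ℝ)) ≤ A * (κ - κ * u) :=
          mul_le_mul_of_nonneg_left (by linarith) hA0
        have e4 : A * (κ - κ * u) + C' * u = A * (κ - u) := by
          rw [← hAC]
          ring
        linarith
  refine ⟨M' + A * κ, fun z hz => ?_⟩
  have hAκ : 0 ≤ A * κ := mul_nonneg hA0 (by linarith)
  by_cases hcase : y₀ ≤ z.im
  · have e1 := hM z hcase
    have e2 : M ≤ M' := le_max_left _ _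
    linarith
  · push Not at hcase
    obtain ⟨n, hn⟩ := pow_unbounded_of_one_lt (y₀ / z.im) hρ1
    have h1 : y₀ ≤ z.im * ρ ^ n := by
      rw [div_lt_iff₀ hz] at hn
      linarith
    have h2 := key n z hz hcase h1
    have h3 : 0 ≤ A * z.im ^ (1 / 4 : ℝ) := mul_nonneg hA0 (Real.rpow_nonneg hz.le _)
    linarith [mul_sub A κ (z.im ^ (1 / 4 : ℝ))]

end Pool.Agent.H80.Sel
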