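import Mathlib
import Pool.Agent.H11.Selberg.Equiv
import Pool.Agent.H80.Sel.NormX
import Pool.Agent.H80.Sel.EulerTwo
import Pool.Agent.H80.Sel.Resc
import Pool.Agent.H80.Sel.GeoOne
import Pool.Agent.H80.Sel.GeoTwo
import Pool.Agent.H80.Sel.SupX
import Pool.Agent.H80.Sel.MeasX
import Pool.Agent.H14.Sel.Taub

set_option autoImplicit false

/-!
# Module MAINX (MP_8e9775_nt): assembly
-/

namespace Pool.Agent.H80.Sel

open Complex MeasureTheory Filter Topology Pool.Agent.H11.Selberg Pool.Agent.H14.Sel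

/-- the mean square of the coefficients from a geometry -/
theorem mean_square_of {a : ℕ → ℂ} {H : ℂ → ℂ} {Q : ℝ} {r : ℕ} {lam : Fin r → ℝ} {mu : Fin r → ℂ}
    {ε : ℂ} (h : Dat a H Q lam mu ε) (m : ℕ) (hm : 1 ≤ m) (hsp : ∀ n : ℕ, n % m ≠ 1 % m → a n = 0)
    {N : ℕ} {s k ρ : Fin N → ℝ} (hA : MAut s k (psi a m)) (hg : Geo s k ρ) :
    ∃ c' C' : ℝ, 0 < c' ∧ ∀ x : ℝ, 2 ≤ x →
      c' * Real.log x ≤ ∑ n ∈ Finset.Icc 1 ⌊x⌋₊, ‖a n‖ ^ 2 / (n : ℝ) ∧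
      ∑ n ∈ Finset.Icc 1 ⌊x⌋₊, ‖a n‖ ^ 2 / (n : ℝ) ≤ C' * Real.log x := by
  have hm0 : (0 : ℝ) < m := by exact_mod_cast hm
  obtain ⟨B, hB⟩ := hA.bounded hg
  obtain ⟨c, Y₁, hc, hY₁, hlow⟩ := hA.mean_low hg
  have hkey : ∀ y : ℝ, 0 < y → ∫ x in (0:ℝ)..1, (phi a (x + y * I)) ^ 2 =
      ∫ x in (0:ℝ)..1, (psi a m (x + ((m * y : ℝ) : ℂ) * I)) ^ 2 := by
    intro y hy
    rw [psi_mean a h.ram m hm hsp (m * y) (by positivity), mul_div_cancel_left₀ _ hm0.ne']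
  refine taub (fun n => ‖a n‖ ^ 2) (fun n => by positivity) (by simp [h.one])
    (fun y hy => (mean_eq a h.ram y hy).1) c (B ^ 2) (Y₁ / m) hc (by positivity) ?_ ?_
  · intro y hy
    rw [← (mean_eq a h.ram y hy).2, hkey y hy]
    have hy' : 0 < m * y := by positivity
    have hcont : Continuous (fun x : ℝ => (psi a m (x + ((m * y : ℝ) : ℂ) * I)) ^ 2) :=
      (hA.cont _ hy').pow 2
    have h1 : ∫ x in (0:ℝ)..1, (psi a m (x + ((m * y : ℝ) : ℂ) * I)) ^ 2 ≤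
        ∫ x in (0:ℝ)..1, B ^ 2 := by
      refine intervalIntegral.integral_mono_on (by norm_num) (hcont.intervalIntegrable _ _)
        (by simp) ?_
      intro x _
      have him : 0 < ((x : ℂ) + ((m * y : ℝ) : ℂ) * I).im := by simpa using hy'
      exact pow_le_pow_left₀ (hA.nonneg _ him) (hB _ him) 2
    simpa using h1
  · intro y hy hy1
    rw [← (mean_eq a h.ram y hy).2, hkey y hy]
    refine hlow (m * y) (by positivity) ?_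
    rw [le_div_iff₀ hm0] at hy1
    linarith

/-- The hypothesis on the support, the conductor and the Euler factor at two. -/
def Cases (a : ℕ → ℂ) (m : ℕ) (q : ℝ) : Prop :=
  q < 4 * (m : ℝ) ^ 2 ∨
  (Odd m ∧ q < 9 * (m : ℝ) ^ 2 ∧ ∃ ω : ℂ, ‖ω‖ = 1 ∧ a 2 = ω * (starRingEnd ℂ) (a 2) ∧
    ∀ k : ℕ, a (2 ^ (k + 2)) = a 2 * a (2 ^ (k + 1)) - ω * a (2 ^ k)) ∨
  (Odd m ∧ q < (6 + 4 * Real.sqrt 2) * (m : ℝ) ^ 2 ∧ ‖a 2‖ ^ 2 = 1 / 2 ∧
    ∀ k : ℕ, a (2 ^ (k + 1)) = a 2 * a (2 ^ k))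

theorem mean_square {a : ℕ → ℂ} {H : ℂ → ℂ} {Q : ℝ} {r : ℕ} {lam : Fin r → ℝ} {mu : Fin r → ℂ}
    {ε : ℂ} (h : Dat a H Q lam mu ε) (m : ℕ) (hm : 1 ≤ m) (hsp : ∀ n : ℕ, n % m ≠ 1 % m → a n = 0)
    (hc : cond Q lam < 4 * (m : ℝ) ^ 2 ∨
      (Odd m ∧ cond Q lam < 9 * (m : ℝ) ^ 2 ∧ ∃ α ω : ℂ, ‖ω‖ = 1 ∧ α = ω * (starRingEnd ℂ) α ∧
        TwoStep a α ω) ∨
      (Odd m ∧ cond Q lam < (6 + 4 * Real.sqrt 2) * (m : ℝ) ^ 2 ∧ ∃ α : ℂ, ‖α‖ ^ 2 = 1 / 2 ∧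
        TwoStep a α 0)) :
    ∃ c' C' : ℝ, 0 < c' ∧ ∀ x : ℝ, 2 ≤ x →
      c' * Real.log x ≤ ∑ n ∈ Finset.Icc 1 ⌊x⌋₊, ‖a n‖ ^ 2 / (n : ℝ) ∧
      ∑ n ∈ Finset.Icc 1 ⌊x⌋₊, ‖a n‖ ^ 2 / (n : ℝ) ≤ C' * Real.log x := by
  have hm0 : (0 : ℝ) < m := by exact_mod_cast hm
  have hm2 : (0 : ℝ) < (m : ℝ) ^ 2 := by positivity
  have hq : 0 < cond Q lam := LemL.cond_pos h
  by_cases h4 : cond Q lam < 4 * (m : ℝ) ^ 2
  · obtain ⟨ρ, hρ⟩ := geo_one (cond Q lam / (m : ℝ) ^ 2) (by positivity)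
      (by rw [div_lt_iff₀ hm2]; linarith)
    exact mean_square_of h m hm hsp (maut_one h m hm hsp) hρ
  have h4' : 4 ≤ cond Q lam / (m : ℝ) ^ 2 := by
    rw [le_div_iff₀ hm2]; linarith
  have hs : ∀ t : ℝ, 4 ≤ t → 0 < Real.sqrt t := fun t ht => Real.sqrt_pos.mpr (by linarith)
  rcases hc with hc | ⟨hodd, hc, α, ω, hω, hα, h2⟩ | ⟨hodd, hc, α, hα, h2⟩
  · exact absurd hc h4
  · have hr := half_B h α ω h2 hω hα
    have hx9 : cond Q lam / (m : ℝ) ^ 2 < 9 := by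
      rw [div_lt_iff₀ hm2]; linarith
    set x := cond Q lam / (m : ℝ) ^ 2 with hx
    have hx0 : 0 < x := by linarith
    have hsx : Real.sqrt x < 3 := by
      rw [show (3 : ℝ) = Real.sqrt (3 ^ 2) by rw [Real.sqrt_sq (by norm_num)]]
      exact Real.sqrt_lt_sqrt hx0.le (by linarith)
    have hsx0 : 0 < Real.sqrt x := Real.sqrt_pos.mpr hx0
    have hs4 : Real.sqrt (4 * x) = 2 * Real.sqrt x := by
      rw [show (4 : ℝ) * x = 2 ^ 2 * x by ring, Real.sqrt_mul (by norm_num),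
        Real.sqrt_sq (by norm_num)]
    obtain ⟨r₀, r₁, hρ⟩ := geo_two x (4 * x) h4' (by linarith) (by
      rw [hs4]
      have : 1 / Real.sqrt x + 1 / (2 * Real.sqrt x) = 3 / (2 * Real.sqrt x) := by
        field_simp; norm_num
      rw [this, div_lt_div_iff₀ (by norm_num) (by positivity)]
      linarith)
    have hA := maut_two h m hm hsp hodd (4 * cond Q lam) (by positivity) hr
    rw [mul_div_assoc, ← hx] at hA
    exact mean_square_of h m hm hsp hA hρ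
  · have hr := half_C h α h2 hα
    have hx9 : cond Q lam / (m : ℝ) ^ 2 < 6 + 4 * Real.sqrt 2 := by
      rw [div_lt_iff₀ hm2]; linarith
    set x := cond Q lam / (m : ℝ) ^ 2 with hx
    have hx0 : 0 < x := by linarith
    have h22 : Real.sqrt 2 * Real.sqrt 2 = 2 := Real.mul_self_sqrt (by norm_num)
    have hs20 : 0 < Real.sqrt 2 := Real.sqrt_pos.mpr (by norm_num)
    have hsx : Real.sqrt x < 2 + Real.sqrt 2 := by
      rw [← Real.sqrt_sq (by positivity : (0 : ℝ) ≤ 2 + Real.sqrt 2)]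
      apply Real.sqrt_lt_sqrt hx0.le
      nlinarith
    have hsx0 : 0 < Real.sqrt x := Real.sqrt_pos.mpr hx0
    have hs2 : Real.sqrt (2 * x) = Real.sqrt 2 * Real.sqrt x := Real.sqrt_mul (by norm_num) _
    obtain ⟨r₀, r₁, hρ⟩ := geo_two x (2 * x) h4' (by linarith) (by
      rw [hs2]
      have : 1 / Real.sqrt x + 1 / (Real.sqrt 2 * Real.sqrt x) =
          (2 + Real.sqrt 2) / (2 * Real.sqrt x) := by
        rw [div_add_div _ _ hsx0.ne' (by positivity), div_eq_div_iff (by positivity) (by positivity)]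
        linear_combination (-(Real.sqrt x) ^ 2) * h22
      rw [this, div_lt_div_iff₀ (by norm_num) (by positivity)]
      linarith)
    have hA := maut_two h m hm hsp hodd (2 * cond Q lam) (by positivity) hr
    rw [mul_div_assoc, ← hx] at hA
    exact mean_square_of h m hm hsp hA hρ

/-- Selberg's orthogonality conjecture for entire functions of degree two with small conductor,
or moderate conductor and a standard Euler factor at two, or sparse support. -/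
theorem mainX (a : ℕ → ℂ) (F H : ℂ → ℂ) (Q : ℝ) {r : ℕ} (lam : Fin r → ℝ) (mu : Fin r → ℂ)
    (ε : ℂ) (h : IsSelberg a F) (hH : Differentiable ℂ H) (hHF : ∀ s : ℂ, s ≠ 1 → H s = F s)
    (hQ : 0 < Q) (hlam : ∀ j, 0 < lam j) (hmu : ∀ j, 0 ≤ (mu j).re) (hε : ‖ε‖ = 1)
    (hfeq : ∀ s : ℂ, 0 < s.re → s.re < 1 → completed Q lam mu F s =
      ε * (starRingEnd ℂ) (completed Q lam mu F (1 - (starRingEnd ℂ) s)))
    (hdeg : ∑ j, lam j = 1) (m : ℕ) (hm : 1 ≤ m) (hsp : ∀ n : ℕ, n % m ≠ 1 % m → a n = 0)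
    (hcond : Cases a m (cond Q lam)) :
    ∃ C : ℝ, ∀ x : ℝ, 2 ≤ x → |S a x - Real.log (Real.log x)| ≤ C := by
  obtain ⟨w, H', mu', ε', hw, hd⟩ := normalise' a F H Q lam mu ε h hH hHF hQ hlam hmu hε hfeq hdeg
  have hwc : (starRingEnd ℂ) w = -w := by
    apply Complex.ext
    · simp [hw]
    · simp
  have hn : ∀ n : ℕ, 1 ≤ n → ‖a n * (n : ℂ) ^ (-w)‖ = ‖a n‖ := by
    intro n hn
    rw [norm_mul, Complex.norm_natCast_cpow_of_pos hn, Complex.neg_re, hw, neg_zero,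
      Real.rpow_zero, mul_one]
  have h2n : ‖(2 : ℂ) ^ (-w)‖ = 1 := by
    have := Complex.norm_natCast_cpow_of_pos (n := 2) (by norm_num) (-w)
    rw [Complex.neg_re, hw, neg_zero, Real.rpow_zero] at this
    exact_mod_cast this
  have h4n : ‖(4 : ℂ) ^ (-w)‖ = 1 := by
    have := Complex.norm_natCast_cpow_of_pos (n := 4) (by norm_num) (-w)
    rw [Complex.neg_re, hw, neg_zero, Real.rpow_zero] at this
    exact_mod_cast this
  have h42 : (4 : ℂ) ^ (-w) = (2 : ℂ) ^ (-w) * (2 : ℂ) ^ (-w) := by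
    have := Complex.natCast_mul_natCast_cpow 2 2 (-w)
    norm_num at this
    exact this
  have h2c : (2 : ℂ) ^ (-w) * (starRingEnd ℂ) ((2 : ℂ) ^ (-w)) = 1 := by
    rw [Complex.mul_conj, Complex.normSq_eq_norm_sq, h2n]
    norm_num
  have hms : ∃ c' C' : ℝ, 0 < c' ∧ ∀ x : ℝ, 2 ≤ x →
      c' * Real.log x ≤ ∑ n ∈ Finset.Icc 1 ⌊x⌋₊, ‖a n * (n : ℂ) ^ (-w)‖ ^ 2 / (n : ℝ) ∧
      ∑ n ∈ Finset.Icc 1 ⌊x⌋₊, ‖a n * (n : ℂ) ^ (-w)‖ ^ 2 / (n : ℝ) ≤ C' * Real.log x := by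
    refine mean_square hd m hm (fun n hnm => by rw [hsp n hnm, zero_mul]) ?_
    rcases hcond with hc | ⟨hodd, hc, ω, hω, hα, h2⟩ | ⟨hodd, hc, hα, h2⟩
    · exact Or.inl hc
    · refine Or.inr (Or.inl ⟨hodd, hc, a 2 * (2 : ℂ) ^ (-w), ω * (4 : ℂ) ^ (-w), ?_, ?_,
        (twoStep_of a F h ω h2).twist w⟩)
      · rw [norm_mul, hω, h4n, mul_one]
      · rw [map_mul, h42]
        calc a 2 * (2 : ℂ) ^ (-w) = (ω * (starRingEnd ℂ) (a 2)) * (2 : ℂ) ^ (-w) := by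
              rw [← hα]
          _ = _ := by
            linear_combination (-(ω * (starRingEnd ℂ) (a 2) * (2 : ℂ) ^ (-w))) * h2c
    · refine Or.inr (Or.inr ⟨hodd, hc, a 2 * (2 : ℂ) ^ (-w), ?_, ?_⟩)
      · rw [norm_mul, h2n, mul_one, hα]
      · have h3 := (twoStep_of a F h 0 (fun k => by rw [h2 (k + 1)]; ring)).twist w
        rwa [zero_mul] at h3
  obtain ⟨c', C', hc', hms⟩ := hms
  obtain ⟨b, θ, K, hθ, hb1, hb2⟩ := h.euler
  have hE : EulerCoeff b F := ⟨θ, K, hθ, hb1, hb2⟩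
  have hT := equivalence a F b 1 h hE zero_le_one
  have h2 : ∃ c C : ℝ, 0 < c ∧ ∀ x : ℝ, 2 ≤ x →
        c * (Real.log x) ^ (1 : ℝ) ≤ ∑ n ∈ Finset.Icc 1 ⌊x⌋₊, ‖a n‖ ^ 2 / (n : ℝ) ∧
        ∑ n ∈ Finset.Icc 1 ⌊x⌋₊, ‖a n‖ ^ 2 / (n : ℝ) ≤ C * (Real.log x) ^ (1 : ℝ) := by
    refine ⟨c', C', hc', fun x hx => ?_⟩
    have hsum : ∑ n ∈ Finset.Icc 1 ⌊x⌋₊, ‖a n‖ ^ 2 / (n : ℝ) =
        ∑ n ∈ Finset.Icc 1 ⌊x⌋₊, ‖a n * (n : ℂ) ^ (-w)‖ ^ 2 / (n : ℝ) := by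
      refine Finset.sum_congr rfl (fun n hn1 => ?_)
      rw [hn n (Finset.mem_Icc.mp hn1).1]
    rw [hsum, Real.rpow_one]
    exact hms x hx
  have h1 : ∃ C : ℝ, ∀ x : ℝ, 2 ≤ x → |S a x - 1 * Real.log (Real.log x)| ≤ C :=
    (hT.out 0 1).mpr h2
  simpa using h1

end Pool.Agent.H80.Sel
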